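import Pool.Agent.TH301.HX.Rep

/-!
The algebra of the trilinear form for helical fields.
-/

set_option autoImplicit false

open MeasureTheory Set Filter Topology
open H459R3.NS Pool.Agent.TH305.FB

namespace Pool.Agent.TH301.HX

/-! ### linearity -/

theorem tri_comm13 (a b c : K3 → ℂ) : Tri a b c = Tri c b a := by
  rw [tri_comm12, tri_comm23, tri_comm12]

theorem tri_smul1 (z : ℂ) (a b c : K3 → ℂ) : Tri (fun k => z * a k) b c = z * Tri a b c := by
  unfold Tri
  rw [← tsum_mul_left]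
  exact tsum_congr fun p => by ring

theorem tri_smul2 (z : ℂ) (a b c : K3 → ℂ) : Tri a (fun k => z * b k) c = z * Tri a b c := by
  rw [tri_comm12, tri_smul1, tri_comm12]

theorem tri_smul3 (z : ℂ) (a b c : K3 → ℂ) : Tri a b (fun k => z * c k) = z * Tri a b c := by
  rw [tri_comm13, tri_smul1, tri_comm13]

theorem tri_neg1 (a b c : K3 → ℂ) : Tri (-a) b c = -Tri a b c := by
  have := tri_smul1 (-1) a b c
  rw [neg_one_mul] at this
  rw [← this]
  congr 1
  funext k
  simp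

theorem rap_add {a b : K3 → ℂ} (ha : Rap a) (hb : Rap b) : Rap (a + b) := by
  intro n
  refine Summable.of_nonneg_of_le (fun k => by positivity) (fun k => ?_) ((ha n).add (hb n))
  rw [← mul_add]
  gcongr
  exact norm_add_le _ _

theorem rap_smul {a : K3 → ℂ} (ha : Rap a) (z : ℂ) : Rap (fun k => z * a k) := by
  intro n
  refine ((ha n).mul_left ‖z‖).congr fun k => ?_
  rw [norm_mul]
  ring

theorem rap_neg {a : K3 → ℂ} (ha : Rap a) : Rap (-a) := by
  intro n
  refine (ha n).congr fun k => ?_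
  rw [Pi.neg_apply, norm_neg]

theorem rap_sub {a b : K3 → ℂ} (ha : Rap a) (hb : Rap b) : Rap (a - b) := by
  rw [sub_eq_add_neg]
  exact rap_add ha (rap_neg hb)

theorem rap_of_le {a b : K3 → ℂ} (hb : Rap b) (h : ∀ k, ‖a k‖ ≤ ‖b k‖) : Rap a := by
  intro n
  refine Summable.of_nonneg_of_le (fun k => by positivity) (fun k => ?_) (hb n)
  gcongr
  exact h k

theorem tri_sub1 {a a' b c : K3 → ℂ} (ha : Rap a) (ha' : Rap a') (hb : Rap b) (hc : Rap c) :
    Tri (a - a') b c = Tri a b c - Tri a' b c := by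
  rw [sub_eq_add_neg, tri_add1 ha.summable (rap_neg ha').summable hb.summable hc.summable,
    tri_neg1]
  ring

theorem tri_sub2 {a b b' c : K3 → ℂ} (ha : Rap a) (hb : Rap b) (hb' : Rap b') (hc : Rap c) :
    Tri a (b - b') c = Tri a b c - Tri a b' c := by
  rw [tri_comm12, tri_sub1 hb hb' ha hc, tri_comm12 b, tri_comm12 b']

theorem tri_zero1 (b c : K3 → ℂ) : Tri 0 b c = 0 := by
  have := tri_smul1 0 0 b c
  rw [zero_mul] at this
  rw [← this]
  congr 1
  funext k
  simp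

theorem tri_zero2 (a c : K3 → ℂ) : Tri a 0 c = 0 := by rw [tri_comm12, tri_zero1]

theorem tri_zero3 (a b : K3 → ℂ) : Tri a b 0 = 0 := by rw [tri_comm13, tri_zero1]

/-- The operator `(-Δ)^{1/2} / 2π`. -/
noncomputable def Lm (a : K3 → ℂ) (k : K3) : ℂ := (rr k : ℂ) * a k

theorem rap_Lm {a : K3 → ℂ} (ha : Rap a) : Rap (Lm a) := by
  intro n
  refine Summable.of_nonneg_of_le (fun k => by positivity) (fun k => ?_)
    ((ha (n + 1)).mul_left 2)
  rw [Lm, norm_mul, Complex.norm_real, Real.norm_eq_abs, abs_of_nonneg (rr_nonneg k)]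
  have := rr_le k
  calc (N k : ℝ) ^ n * (rr k * ‖a k‖) ≤ (N k : ℝ) ^ n * (2 * N k * ‖a k‖) := by gcongr
    _ = 2 * ((N k : ℝ) ^ (n + 1) * ‖a k‖) := by ring

theorem D_Lm (m : Fin 3) (a : K3 → ℂ) : D m (Lm a) = Lm (D m a) := by
  funext k
  simp only [D, Lm]
  ring

/-! ### vector fields -/

/-- Rapidly decreasing families of vectors. -/
def RV (U : Fin 3 → K3 → ℂ) : Prop := ∀ i, Rap (U i)

/-- The divergence vanishes. -/
def Dv (U : Fin 3 → K3 → ℂ) : Prop := ∀ k, ∑ i, (k i : ℂ) * U i k = 0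

/-- `∫ (U · ∇) V · W` -/
noncomputable def TT (U V W : Fin 3 → K3 → ℂ) : ℂ := ∑ i, ∑ j, Tri (U j) (D j (V i)) (W i)

/-- `∫ U · (V × W)` -/
noncomputable def X3 (U V W : Fin 3 → K3 → ℂ) : ℂ :=
  Tri (U 0) (V 1) (W 2) - Tri (U 0) (V 2) (W 1) + Tri (U 1) (V 2) (W 0)
    - Tri (U 1) (V 0) (W 2) + Tri (U 2) (V 0) (W 1) - Tri (U 2) (V 1) (W 0)

/-- The curl. -/
noncomputable def curl (U : Fin 3 → K3 → ℂ) : Fin 3 → K3 → ℂ :=
  ![D 1 (U 2) - D 2 (U 1), D 2 (U 0) - D 0 (U 2), D 0 (U 1) - D 1 (U 0)]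

theorem RV.curl {U : Fin 3 → K3 → ℂ} (h : RV U) : RV (curl U) := by
  intro i
  fin_cases i
  · exact rap_sub ((h 2).D 1) ((h 1).D 2)
  · exact rap_sub ((h 0).D 2) ((h 2).D 0)
  · exact rap_sub ((h 1).D 0) ((h 0).D 1)

theorem Dv.sum {U : Fin 3 → K3 → ℂ} (h : Dv U) : D 0 (U 0) + D 1 (U 1) + D 2 (U 2) = 0 := by
  funext k
  have := h k
  rw [Fin.sum_univ_three] at this
  simp only [Pi.add_apply, Pi.zero_apply, D]
  linear_combination (2 * Real.pi * Complex.I) * this

theorem tri_div1 {U : Fin 3 → K3 → ℂ} (hU : RV U) (h : Dv U) {b c : K3 → ℂ} (hb : Rap b)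
    (hc : Rap c) :
    Tri (D 0 (U 0)) b c + Tri (D 1 (U 1)) b c + Tri (D 2 (U 2)) b c = 0 := by
  rw [← tri_add1 ((hU 0).D 0).summable ((hU 1).D 1).summable hb.summable hc.summable,
    ← tri_add1 (rap_add ((hU 0).D 0) ((hU 1).D 1)).summable ((hU 2).D 2).summable hb.summable
      hc.summable, h.sum, tri_zero1]

theorem tri_div2 {U : Fin 3 → K3 → ℂ} (hU : RV U) (h : Dv U) {b c : K3 → ℂ} (hb : Rap b)
    (hc : Rap c) :
    Tri b (D 0 (U 0)) c + Tri b (D 1 (U 1)) c + Tri b (D 2 (U 2)) c = 0 := by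
  rw [tri_comm12 b, tri_comm12 b, tri_comm12 b]
  exact tri_div1 hU h hb hc

theorem tri_div3 {U : Fin 3 → K3 → ℂ} (hU : RV U) (h : Dv U) {b c : K3 → ℂ} (hb : Rap b)
    (hc : Rap c) :
    Tri b c (D 0 (U 0)) + Tri b c (D 1 (U 1)) + Tri b c (D 2 (U 2)) = 0 := by
  rw [tri_comm13 b, tri_comm13 b, tri_comm13 b]
  exact tri_div1 hU h hc hb

/-- The gradient term vanishes. -/
theorem grad_zero {W c : Fin 3 → K3 → ℂ} (hW : RV W) (hc : RV c) (hd : Dv c) (j : Fin 3) :
    Tri (c 0) (D 0 (W j)) (W j) + Tri (c 1) (D 1 (W j)) (W j) + Tri (c 2) (D 2 (W j)) (W j)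
      = 0 := by
  have h := tri_div1 hc hd (hW j) (hW j)
  have e : ∀ i, Tri (D i (c i)) (W j) (W j) = -2 * Tri (c i) (D i (W j)) (W j) := by
    intro i
    rw [tri_D1 (hc i) (hW j) (hW j) i, tri_comm23 (c i) (W j)]
    ring
  rw [e, e, e] at h
  linear_combination (-1 / 2) * h

/-- The Lamb form: `∫ (W · ∇) W · c = ∫ c · (curl W × W)`. -/
theorem lamb {W c : Fin 3 → K3 → ℂ} (hW : RV W) (hc : RV c) (hd : Dv c) :
    TT W W c = X3 c (curl W) W := by
  have h0 := grad_zero hW hc hd 0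
  have h1 := grad_zero hW hc hd 1
  have h2 := grad_zero hW hc hd 2
  unfold TT X3 curl
  simp only [Fin.sum_univ_three, Matrix.cons_val_zero, Matrix.cons_val_one, Matrix.cons_val]
  rw [tri_sub2 (hc _) ((hW _).D _) ((hW _).D _) (hW _),
    tri_sub2 (hc _) ((hW _).D _) ((hW _).D _) (hW _),
    tri_sub2 (hc _) ((hW _).D _) ((hW _).D _) (hW _),
    tri_sub2 (hc _) ((hW _).D _) ((hW _).D _) (hW _),
    tri_sub2 (hc _) ((hW _).D _) ((hW _).D _) (hW _),
    tri_sub2 (hc _) ((hW _).D _) ((hW _).D _) (hW _)]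
  simp only [tri_comm13 (W _) (D _ (W _)) (c _)]
  linear_combination h0 + h1 + h2

/-- `∫ curl b · (f × g) = ∫ b · ((g · ∇) f - (f · ∇) g)`. -/
theorem curl_cross {b f g : Fin 3 → K3 → ℂ} (hb : RV b) (hf : RV f) (hg : RV g) (df : Dv f)
    (dg : Dv g) : X3 (curl b) f g = TT g f b - TT f g b := by
  have f0 := tri_div2 hf df (hb 0) (hg 0)
  have f1 := tri_div2 hf df (hb 1) (hg 1)
  have f2 := tri_div2 hf df (hb 2) (hg 2)
  have g0 := tri_div3 hg dg (hb 0) (hf 0)
  have g1 := tri_div3 hg dg (hb 1) (hf 1)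
  have g2 := tri_div3 hg dg (hb 2) (hf 2)
  unfold TT X3 curl
  simp only [Fin.sum_univ_three, Matrix.cons_val_zero, Matrix.cons_val_one, Matrix.cons_val]
  rw [tri_sub1 ((hb _).D _) ((hb _).D _) (hf _) (hg _),
    tri_sub1 ((hb _).D _) ((hb _).D _) (hf _) (hg _),
    tri_sub1 ((hb _).D _) ((hb _).D _) (hf _) (hg _),
    tri_sub1 ((hb _).D _) ((hb _).D _) (hf _) (hg _),
    tri_sub1 ((hb _).D _) ((hb _).D _) (hf _) (hg _),
    tri_sub1 ((hb _).D _) ((hb _).D _) (hf _) (hg _)]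
  have e : ∀ m n p q, Tri (D m (b n)) (f p) (g q)
      = -Tri (b n) (D m (f p)) (g q) - Tri (b n) (f p) (D m (g q)) := fun m n p q =>
    tri_D1 (hb n) (hf p) (hg q) m
  simp only [e]
  have e1 : ∀ j i, Tri (g j) (D j (f i)) (b i) = Tri (b i) (D j (f i)) (g j) := fun j i =>
    tri_comm13 _ _ _
  have e2 : ∀ j i, Tri (f j) (D j (g i)) (b i) = Tri (b i) (f j) (D j (g i)) := fun j i => by
    rw [tri_comm13, tri_comm23]
  simp only [e1, e2]
  linear_combination (-1 : ℂ) * (f0 + f1 + f2) + (g0 + g1 + g2)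

/-! ### the commutator -/

/-- The symbol `|k| + |l| - |k + l|`. -/
noncomputable def gm (k l : K3) : ℝ := rr k + rr l - rr (k + l)

/-- The trilinear form with this symbol. -/
noncomputable def Gt (a b c : K3 → ℂ) : ℂ :=
  ∑' p : K3 × K3, (gm p.1 p.2 : ℂ) * (a p.1 * b p.2 * c (-p.1 - p.2))

theorem Gt_eq {a b c : K3 → ℂ} (ha : Rap a) (hb : Rap b) (hc : Rap c) :
    Gt a b c = Tri (Lm a) b c + Tri a (Lm b) c - Tri a b (Lm c) := by
  unfold Gt Tri
  rw [← (summable_tri (rap_Lm ha).summable hb.summable hc.summable).tsum_add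
      (summable_tri ha.summable (rap_Lm hb).summable hc.summable),
    ← ((summable_tri (rap_Lm ha).summable hb.summable hc.summable).add
      (summable_tri ha.summable (rap_Lm hb).summable hc.summable)).tsum_sub
      (summable_tri ha.summable hb.summable (rap_Lm hc).summable)]
  refine tsum_congr fun p => ?_
  have e : rr (-p.1 - p.2) = rr (p.1 + p.2) := by
    rw [← rr_neg]
    congr 1
    abel
  simp only [Lm, gm, e]
  push_cast
  ring

/-- `∑ Γ (aⱼ, ∂ⱼ aᵢ) bᵢ` -/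
noncomputable def GG (a b : Fin 3 → K3 → ℂ) : ℂ := ∑ i, ∑ j, Gt (a j) (D j (a i)) (b i)

theorem commut {a b : Fin 3 → K3 → ℂ} (ha : RV a) (hb : RV b) :
    TT a a (fun i => Lm (b i)) - TT a (fun i => Lm (a i)) b
      = TT (fun i => Lm (a i)) a b - GG a b := by
  unfold TT GG
  have e : ∀ i j, Gt (a j) (D j (a i)) (b i)
      = Tri (Lm (a j)) (D j (a i)) (b i) + Tri (a j) (D j (Lm (a i))) (b i)
        - Tri (a j) (D j (a i)) (Lm (b i)) := by
    intro i j
    rw [Gt_eq (ha j) ((ha i).D j) (hb i), D_Lm]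
  simp only [e, Finset.sum_sub_distrib, Finset.sum_add_distrib]
  ring

/-! ### helical fields -/

/-- `curl U = 2 π s |∇| U` -/
def Hel (s : ℂ) (U : Fin 3 → K3 → ℂ) : Prop :=
  ∀ i k, curl U i k = (2 * Real.pi * s) * Lm (U i) k

theorem X3_smul1 (z : ℂ) (U V W : Fin 3 → K3 → ℂ) :
    X3 (fun i k => z * U i k) V W = z * X3 U V W := by
  unfold X3
  simp only [tri_smul1]
  ring

theorem X3_smul2 (z : ℂ) (U V W : Fin 3 → K3 → ℂ) :
    X3 U (fun i k => z * V i k) W = z * X3 U V W := by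
  unfold X3
  simp only [tri_smul2]
  ring

theorem X3_add1 {U U' V W : Fin 3 → K3 → ℂ} (hU : RV U) (hU' : RV U') (hV : RV V) (hW : RV W) :
    X3 (fun i => U i + U' i) V W = X3 U V W + X3 U' V W := by
  unfold X3
  simp only [tri_add1 (hU _).summable (hU' _).summable (hV _).summable (hW _).summable]
  ring

theorem X3_sub2 {U V V' W : Fin 3 → K3 → ℂ} (hU : RV U) (hV : RV V) (hV' : RV V') (hW : RV W) :
    X3 U (fun i => V i - V' i) W = X3 U V W - X3 U V' W := by
  unfold X3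
  simp only [tri_sub2 (hU _) (hV _) (hV' _) (hW _)]
  ring

theorem X3_add3 {U V W W' : Fin 3 → K3 → ℂ} (hU : RV U) (hV : RV V) (hW : RV W) (hW' : RV W') :
    X3 U V (fun i => W i + W' i) = X3 U V W + X3 U V W' := by
  unfold X3
  simp only [tri_add3 (hU _).summable (hV _).summable (hW _).summable (hW' _).summable]
  ring

theorem X3_self12 (U W : Fin 3 → K3 → ℂ) : X3 U U W = 0 := by
  unfold X3
  rw [tri_comm12 (U 0) (U 1), tri_comm12 (U 0) (U 2), tri_comm12 (U 1) (U 2)]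
  ring

theorem X3_swap12 (U V W : Fin 3 → K3 → ℂ) : X3 U V W = -X3 V U W := by
  unfold X3
  rw [tri_comm12 (U 0) (V 1), tri_comm12 (U 0) (V 2), tri_comm12 (U 1) (V 2),
    tri_comm12 (U 1) (V 0), tri_comm12 (U 2) (V 0), tri_comm12 (U 2) (V 1)]
  ring

theorem Hel.curl_eq {s : ℂ} {U : Fin 3 → K3 → ℂ} (h : Hel s U) :
    curl U = fun i k => (2 * Real.pi * s) * Lm (U i) k := by
  funext i k
  exact h i k

theorem curl_add (U V : Fin 3 → K3 → ℂ) : curl (fun i => U i + V i) = fun i => curl U i + curl V i := by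
  have e : ∀ m (x y : K3 → ℂ), D m (x + y) = D m x + D m y := by
    intro m x y
    funext k
    simp only [D, Pi.add_apply]
    ring
  funext i
  fin_cases i <;> simp [curl, e] <;> ring

theorem Dv.Lm {U : Fin 3 → K3 → ℂ} (h : Dv U) : Dv (fun i => Lm (U i)) := by
  intro k
  have := h k
  simp only [HX.Lm]
  calc ∑ i, (k i : ℂ) * ((rr k : ℂ) * U i k) = (rr k : ℂ) * ∑ i, (k i : ℂ) * U i k := by
        rw [Finset.mul_sum]
        exact Finset.sum_congr rfl fun i _ => by ring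
    _ = 0 := by rw [this, mul_zero]

/-- The main identity: the form `∫ (W · ∇) W · |∇| W` for `W = a + b` with `a`, `b` helical of the
opposite helicities, written without derivatives of `b` alone. -/
theorem main_identity {s : ℂ} (hs : s ^ 2 = 1) {a b : Fin 3 → K3 → ℂ} (ha : RV a) (hb : RV b)
    (da : Dv a) (db : Dv b) (Ha : Hel s a) (Hb : Hel (-s) b) :
    TT (fun i => a i + b i) (fun i => a i + b i) (fun i => Lm (a i + b i))
      = 2 * TT (fun i => Lm (a i)) a b - GG a b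
        + 4 * Real.pi * s * X3 (fun i => Lm (b i)) (fun i => Lm (a i)) b := by
  have hW : RV (fun i => a i + b i) := fun i => rap_add (ha i) (hb i)
  have dW : Dv (fun i => a i + b i) := by
    intro k
    have h1 := da k
    have h2 := db k
    simp only [Pi.add_apply, mul_add, Finset.sum_add_distrib, h1, h2, add_zero]
  have hLa : RV (fun i => Lm (a i)) := fun i => rap_Lm (ha i)
  have hLb : RV (fun i => Lm (b i)) := fun i => rap_Lm (hb i)
  have eL : (fun i => Lm (a i + b i)) = fun i => Lm (a i) + Lm (b i) := by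
    funext i k
    simp only [Lm, Pi.add_apply]
    ring
  have h1 := lamb (W := fun i => a i + b i) (c := fun i => Lm (a i + b i)) hW
    (fun i => rap_Lm (hW i)) dW.Lm
  have ecurl : curl (fun i => a i + b i)
      = fun i k => (2 * Real.pi * s) * ((fun i => Lm (a i) - Lm (b i)) i k) := by
    rw [curl_add]
    funext i k
    rw [Pi.add_apply, Ha i k, Hb i k]
    simp only [Pi.sub_apply]
    ring
  rw [h1, ecurl, eL, X3_smul2, X3_sub2 (fun i => rap_add (hLa i) (hLb i)) hLa hLb hW,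
    X3_add1 hLa hLb hLa hW, X3_add1 hLa hLb hLb hW, X3_self12, X3_self12,
    X3_swap12 (fun i => Lm (a i)) (fun i => Lm (b i)),
    X3_add3 hLb hLa ha hb]
  -- the term `J`
  have j2 : TT a a (fun i => Lm (b i))
      = (2 * Real.pi * s) * X3 (fun i => Lm (b i)) (fun i => Lm (a i)) a := by
    rw [lamb ha hLb db.Lm, Ha.curl_eq, X3_smul2]
  have j1 := curl_cross hb hLa ha da.Lm da
  rw [Hb.curl_eq, X3_smul1] at j1
  have h3 := commut ha hb
  linear_combination h3 - j2 - j1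

end Pool.Agent.TH301.HX
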