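import Pool.Agent.TH301.HX.Emb

/-!
Bounds of the trilinear forms with one factor which is the sum of a bounded function and of a
function small in `L³`.
-/

set_option autoImplicit false

open MeasureTheory Set Filter Topology
open H459R3.NS Pool.Agent.TH305.FB
open scoped ENNReal

namespace Pool.Agent.TH301.HX

/-! ### Hölder -/

theorem holder_nat {f g h : V → ℝ} (cf : Continuous f) (cg : Continuous g) (ch : Continuous h)
    (f0 : ∀ x, 0 ≤ f x) (g0 : ∀ x, 0 ≤ g x) (h0 : ∀ x, 0 ≤ h x) {p q r : ℕ} (hp : p ≠ 0)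
    (hq : q ≠ 0) (hr : r ≠ 0) (hpqr : 1 / (p : ℝ) + 1 / q + 1 / r = 1) {F G H : ℝ} (F0 : 0 ≤ F)
    (G0 : 0 ≤ G) (H0 : 0 ≤ H) (hF : ∫ x in cube, f x ^ p ≤ F ^ p)
    (hG : ∫ x in cube, g x ^ q ≤ G ^ q) (hH : ∫ x in cube, h x ^ r ≤ H ^ r) :
    ∫ x in cube, f x * (g x * h x) ≤ F * (G * H) := by
  have hpos : ∀ {n : ℕ}, n ≠ 0 → (n : ℝ) ≠ 0 := fun h => by exact_mod_cast h
  have hk := ENNReal.lintegral_prod_norm_pow_le (μ := volume.restrict cube)
    (Finset.univ : Finset (Fin 3))
    (f := ![fun x => ENNReal.ofReal (f x ^ p), fun x => ENNReal.ofReal (g x ^ q),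
      fun x => ENNReal.ofReal (h x ^ r)])
    (p := ![1 / (p : ℝ), 1 / q, 1 / r])
    (by
      intro i _
      fin_cases i
      · exact (cf.pow p).measurable.ennreal_ofReal.aemeasurable
      · exact (cg.pow q).measurable.ennreal_ofReal.aemeasurable
      · exact (ch.pow r).measurable.ennreal_ofReal.aemeasurable)
    (by
      simp only [Fin.sum_univ_three, Matrix.cons_val]
      exact hpqr)
    (by
      intro i _
      fin_cases i
      · show 0 ≤ 1 / (p : ℝ)
        positivity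
      · show 0 ≤ 1 / (q : ℝ)
        positivity
      · show 0 ≤ 1 / (r : ℝ)
        positivity)
  simp only [Fin.prod_univ_three, Matrix.cons_val] at hk
  have e1 : ∀ {y : ℝ} {n : ℕ}, 0 ≤ y → n ≠ 0 →
      ENNReal.ofReal (y ^ n) ^ (1 / (n : ℝ)) = ENNReal.ofReal y := by
    intro y n hy hn
    rw [ENNReal.ofReal_rpow_of_nonneg (by positivity) (by positivity), one_div,
      Real.pow_rpow_inv_natCast hy hn]
  have e2 : ∀ x, ENNReal.ofReal (f x ^ p) ^ (1 / (p : ℝ)) * ENNReal.ofReal (g x ^ q) ^ (1 / (q : ℝ))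
      * ENNReal.ofReal (h x ^ r) ^ (1 / (r : ℝ)) = ENNReal.ofReal (f x * (g x * h x)) := by
    intro x
    rw [e1 (f0 x) hp, e1 (g0 x) hq, e1 (h0 x) hr, ← ENNReal.ofReal_mul (f0 x),
      ← ENNReal.ofReal_mul (mul_nonneg (f0 x) (g0 x)), mul_assoc]
  simp_rw [e2] at hk
  have e3 : ∀ {φ : V → ℝ} {n : ℕ} {Φ : ℝ}, Continuous φ → (∀ x, 0 ≤ φ x) → n ≠ 0 → 0 ≤ Φ →
      ∫ x in cube, φ x ^ n ≤ Φ ^ n →
      (∫⁻ x in cube, ENNReal.ofReal (φ x ^ n)) ^ (1 / (n : ℝ)) ≤ ENNReal.ofReal Φ := by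
    intro φ n Φ cφ φ0 hn Φ0 hφ
    rw [← ofReal_integral_eq_lintegral_ofReal (f := fun x => φ x ^ n) (integrableOn_cube (cφ.pow n))
      (Eventually.of_forall fun x => pow_nonneg (φ0 x) n), ← e1 Φ0 hn]
    exact ENNReal.rpow_le_rpow (ENNReal.ofReal_le_ofReal hφ) (by positivity)
  have h4 := hk.trans (mul_le_mul' (mul_le_mul' (e3 cf f0 hp F0 hF) (e3 cg g0 hq G0 hG))
    (e3 ch h0 hr H0 hH))
  rw [← ofReal_integral_eq_lintegral_ofReal (f := fun x => f x * (g x * h x))
    (integrableOn_cube (by fun_prop))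
    (Eventually.of_forall fun x => mul_nonneg (f0 x) (mul_nonneg (g0 x) (h0 x))),
    ← ENNReal.ofReal_mul F0, ← ENNReal.ofReal_mul (mul_nonneg F0 G0),
    ENNReal.ofReal_le_ofReal_iff (by positivity), mul_assoc] at h4
  exact h4

/-- The part of the function above the level `β`. -/
noncomputable def ex (β : ℝ) (c : K3 → ℂ) (x : V) : ℝ := max (‖S c x‖ - β) 0

theorem ex_nonneg (β : ℝ) (c : K3 → ℂ) (x : V) : 0 ≤ ex β c x := le_max_right _ _

theorem ex_continuous {β : ℝ} {c : K3 → ℂ} (hc : Summable c) : Continuous (ex β c) :=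
  ((S_continuous hc).norm.sub continuous_const).max continuous_const

theorem norm_S_le_ex (β : ℝ) (c : K3 → ℂ) (x : V) : ‖S c x‖ ≤ β + ex β c x := by
  have := le_max_left (‖S c x‖ - β) 0
  unfold ex
  linarith

theorem int_mul_le_n2 {a b : K3 → ℂ} (ha : Summable a) (hb : Summable b) :
    ∫ x in cube, ‖S a x‖ * ‖S b x‖ ≤ n2 a * n2 b := by
  have ca := S_continuous ha
  have cb := S_continuous hb
  have h2 := integral_mul_sq_le (μ := volume.restrict cube) (a := fun x => ‖S a x‖)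
    (b := fun x => ‖S b x‖) (integrableOn_cube (by fun_prop)) (integrableOn_cube (by fun_prop))
    (integrableOn_cube (by fun_prop))
  rw [integral_norm_sq ha, integral_norm_sq hb, ← mul_pow] at h2
  exact (abs_le_of_sq_le_sq' h2 (mul_nonneg (n2_nonneg _) (n2_nonneg _))).2

theorem norm_tri_split {a b c : K3 → ℂ} (ha : Rap a) (hb : Rap b) (hc : Rap c) {β : ℝ}
    (hβ : 0 ≤ β) : ‖Tri a b c‖ ≤ β * (n2 a * n2 b)
      + ∫ x in cube, ex β c x * (‖S a x‖ * ‖S b x‖) := by
  have ca := S_continuous ha.summable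
  have cb := S_continuous hb.summable
  have cc := S_continuous hc.summable
  have ce := ex_continuous (β := β) hc.summable
  rw [tri_eq ha.summable hb.summable hc.summable]
  have h1 : ‖∫ x in cube, S a x * (S b x * S c x)‖
      ≤ ∫ x in cube, (β * (‖S a x‖ * ‖S b x‖) + ex β c x * (‖S a x‖ * ‖S b x‖)) := by
    refine norm_integral_le_of_norm_le (integrableOn_cube (by fun_prop))
      (Eventually.of_forall fun x => ?_)
    rw [norm_mul, norm_mul, ← add_mul]
    have := norm_S_le_ex β c x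
    calc ‖S a x‖ * (‖S b x‖ * ‖S c x‖) = ‖S c x‖ * (‖S a x‖ * ‖S b x‖) := by ring
      _ ≤ _ := by gcongr
  refine h1.trans ?_
  rw [integral_add (integrableOn_cube (by fun_prop)) (integrableOn_cube (by fun_prop)),
    integral_const_mul]
  gcongr
  exact int_mul_le_n2 ha.summable hb.summable

/-- The constant of the embedding in `L³`. -/
noncomputable def c3 : ℝ := (24 * √26) ^ (1 / 3 : ℝ)

theorem c3_nonneg : 0 ≤ c3 := by unfold c3; positivity

theorem c3_cube : c3 ^ 3 = 24 * √26 := by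
  unfold c3
  rw [← Real.rpow_natCast, ← Real.rpow_mul (by positivity)]
  norm_num

/-- The constant of the embedding in `L⁶`. -/
noncomputable def c6 : ℝ := (64896 : ℝ) ^ (1 / 6 : ℝ)

theorem c6_nonneg : 0 ≤ c6 := by unfold c6; positivity

theorem c6_pow : c6 ^ 6 = 64896 := by
  unfold c6
  rw [← Real.rpow_natCast, ← Real.rpow_mul (by positivity)]
  norm_num

theorem tri_bound {a b c : K3 → ℂ} (ha : Rap a) (hb : Rap b) (hc : Rap c) (a0 : a 0 = 0)
    (b0 : b 0 = 0) {β δ : ℝ} (hβ : 0 ≤ β) (hδ : 0 ≤ δ) (h : ∫ x in cube, ex β c x ^ 3 ≤ δ ^ 3) :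
    ‖Tri a b c‖ ≤ β * (n2 a * n2 b) + δ * ((c3 * hn 1 a) * (c3 * hn 1 b)) := by
  refine (norm_tri_split ha hb hc hβ).trans ?_
  have h3 := c3_nonneg
  have ha1 := hn_nonneg 1 a
  have hb1 := hn_nonneg 1 b
  gcongr
  refine holder_nat (p := 3) (q := 3) (r := 3) (ex_continuous hc.summable)
    (S_continuous ha.summable).norm (S_continuous hb.summable).norm (ex_nonneg β c)
    (fun x => norm_nonneg _) (fun x => norm_nonneg _) (by norm_num) (by norm_num) (by norm_num)
    (by norm_num) hδ (by positivity) (by positivity) h ?_ ?_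
  · rw [mul_pow, c3_cube]
    exact emb3 ha a0
  · rw [mul_pow, c3_cube]
    exact emb3 hb b0

theorem tri_bound6 {a b c : K3 → ℂ} (ha : Rap a) (hb : Rap b) (hc : Rap c) (a0 : a 0 = 0)
    {β δ : ℝ} (hβ : 0 ≤ β) (hδ : 0 ≤ δ) (h : ∫ x in cube, ex β c x ^ 3 ≤ δ ^ 3) :
    ‖Tri a b c‖ ≤ β * (n2 a * n2 b) + δ * ((c6 * hn 2 a) * n2 b) := by
  refine (norm_tri_split ha hb hc hβ).trans ?_
  have h3 := c6_nonneg
  have ha1 := hn_nonneg 2 a
  have hb1 := n2_nonneg b
  gcongr
  refine holder_nat (p := 3) (q := 6) (r := 2) (ex_continuous hc.summable)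
    (S_continuous ha.summable).norm (S_continuous hb.summable).norm (ex_nonneg β c)
    (fun x => norm_nonneg _) (fun x => norm_nonneg _) (by norm_num) (by norm_num) (by norm_num)
    (by norm_num) hδ (by positivity) (by positivity) h ?_ ?_
  · rw [mul_pow, c6_pow]
    exact emb6 ha a0
  · rw [integral_norm_sq hb.summable]

/-! ### difference quotients -/

/-- The coefficients of `f (x + y) - f x`. -/
noncomputable def df (y : V) (a : K3 → ℂ) (k : K3) : ℂ := dl y k * a k

theorem rap_df (y : V) {a : K3 → ℂ} (ha : Rap a) : Rap (df y a) := by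
  refine rap_of_le (rap_smul ha 2) fun k => ?_
  rw [df, norm_mul, norm_mul]
  refine mul_le_mul_of_nonneg_right ((norm_dl_le y k).trans ?_) (norm_nonneg _)
  simp

theorem df_zero (y : V) {a : K3 → ℂ} (h : a 0 = 0) : df y a 0 = 0 := by rw [df, h, mul_zero]

theorem n2_eq_hn (a : K3 → ℂ) : n2 a = hn 0 a := by
  unfold n2 hn
  simp

/-- The integral of the weighted norms of the differences. -/
theorem int_hn (j : ℕ) {a : K3 → ℂ} (ha : Rap a) :
    Integrable (fun y : V => hn j (df y a) ^ 2 * wy y) ∧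
    ∫ y : V, hn j (df y a) ^ 2 * wy y = 2 * kap * hn (j + 1) a ^ 2 := by
  set F : K3 → V → ℝ := fun k y => rr k ^ j * ‖a k‖ ^ 2 * (‖dl y k‖ ^ 2 * wy y) with hF
  have hF0 : ∀ k y, 0 ≤ F k y := fun k y => by
    have := rr_nonneg k
    have := wy_nonneg y
    simp only [hF]
    positivity
  have hFm : ∀ k, Measurable (F k) := fun k => by
    have := (dl_continuous k).measurable
    have := wy_measurable
    simp only [hF]
    fun_prop
  have hFi : ∀ k, Integrable (F k) := fun k => (dl_integrable k).const_mul _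
  have hFint : ∀ k, ∫ y, F k y = 2 * kap * (rr k ^ (j + 1) * ‖a k‖ ^ 2) := by
    intro k
    simp only [hF]
    rw [integral_const_mul, dl_int]
    ring
  have hk := kap_pos
  have hs1 : Summable fun k => 2 * kap * (rr k ^ (j + 1) * ‖a k‖ ^ 2) :=
    (summable_hn (j + 1) ha).mul_left _
  have e : ∀ y, HasSum (fun k => F k y) (hn j (df y a) ^ 2 * wy y) := by
    intro y
    rw [hn_sq]
    have h1 := ((summable_hn j (rap_df y ha)).hasSum).mul_right (wy y)
    refine h1.congr_fun ?_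
    intro k
    simp only [hF, df, norm_mul]
    ring
  have e2 : ∀ y, ENNReal.ofReal (hn j (df y a) ^ 2 * wy y) = ∑' k, ENNReal.ofReal (F k y) := by
    intro y
    rw [← (e y).tsum_eq, ENNReal.ofReal_tsum_of_nonneg (fun k => hF0 k y) (e y).summable]
  have hm : Measurable fun y : V => hn j (df y a) ^ 2 * wy y := by
    have h1 : (fun y : V => hn j (df y a) ^ 2 * wy y)
        = fun y => (∑' k, ENNReal.ofReal (F k y)).toReal := by
      funext y
      rw [← e2, ENNReal.toReal_ofReal (mul_nonneg (sq_nonneg _) (wy_nonneg y))]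
    rw [h1]
    exact (Measurable.ennreal_tsum fun k => (hFm k).ennreal_ofReal).ennreal_toReal
  have hl : ∫⁻ y : V, ENNReal.ofReal (hn j (df y a) ^ 2 * wy y)
      = ENNReal.ofReal (2 * kap * hn (j + 1) a ^ 2) := by
    simp_rw [e2]
    rw [lintegral_tsum fun k => (hFm k).ennreal_ofReal.aemeasurable]
    have h1 : ∀ k, ∫⁻ y, ENNReal.ofReal (F k y)
        = ENNReal.ofReal (2 * kap * (rr k ^ (j + 1) * ‖a k‖ ^ 2)) := by
      intro k
      rw [← ofReal_integral_eq_lintegral_ofReal (hFi k) (Eventually.of_forall (hF0 k)), hFint]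
    simp_rw [h1]
    rw [hn_sq, ← tsum_mul_left, ENNReal.ofReal_tsum_of_nonneg (fun k => ?_) hs1]
    have := rr_nonneg k
    positivity
  have hnn : ∀ y : V, 0 ≤ hn j (df y a) ^ 2 * wy y := fun y =>
    mul_nonneg (sq_nonneg _) (wy_nonneg y)
  constructor
  · rw [← lintegral_ofReal_ne_top_iff_integrable hm.aestronglyMeasurable
      (Eventually.of_forall hnn), hl]
    exact ENNReal.ofReal_ne_top
  · rw [integral_eq_lintegral_of_nonneg_ae (Eventually.of_forall hnn) hm.aestronglyMeasurable, hl,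
      ENNReal.toReal_ofReal (by positivity)]

theorem hn_df_measurable (j : ℕ) {a : K3 → ℂ} (ha : Rap a) :
    Measurable fun y : V => hn j (df y a) := by
  have h1 : (fun y : V => hn j (df y a))
      = fun y => √((∑' k, ENNReal.ofReal (rr k ^ j * ‖df y a k‖ ^ 2)).toReal) := by
    funext y
    unfold hn
    congr 1
    rw [← ENNReal.ofReal_tsum_of_nonneg (fun k => mul_nonneg (pow_nonneg (rr_nonneg k) _)
      (sq_nonneg _)) (summable_hn j (rap_df y ha)), ENNReal.toReal_ofReal]
    exact tsum_nonneg fun k => mul_nonneg (pow_nonneg (rr_nonneg k) _) (sq_nonneg _)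
  rw [h1]
  refine (Measurable.ennreal_toReal (Measurable.ennreal_tsum fun k =>
    Measurable.ennreal_ofReal ?_)).sqrt
  have := (dl_continuous k).measurable
  unfold df
  fun_prop

/-- Cauchy-Schwarz for the differences. -/
theorem int_hn_mul (i j : ℕ) {a b : K3 → ℂ} (ha : Rap a) (hb : Rap b) :
    Integrable (fun y : V => hn i (df y a) * hn j (df y b) * wy y) ∧
    ∫ y : V, hn i (df y a) * hn j (df y b) * wy y ≤ 2 * kap * (hn (i + 1) a * hn (j + 1) b) := by
  obtain ⟨i1, e1⟩ := int_hn i ha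
  obtain ⟨i2, e2⟩ := int_hn j hb
  have m1 := hn_df_measurable i ha
  have m2 := hn_df_measurable j hb
  have hi : Integrable (fun y : V => hn i (df y a) * hn j (df y b) * wy y) := by
    refine (i1.add i2).mono' ((m1.mul m2).mul wy_measurable).aestronglyMeasurable
      (Eventually.of_forall fun y => ?_)
    have h1 := hn_nonneg i (df y a)
    have h2 := hn_nonneg j (df y b)
    have h3 := wy_nonneg y
    rw [Real.norm_eq_abs, abs_of_nonneg (by positivity)]
    show _ ≤ hn i (df y a) ^ 2 * wy y + hn j (df y b) ^ 2 * wy y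
    rw [← add_mul]
    refine mul_le_mul_of_nonneg_right ?_ h3
    nlinarith [sq_nonneg (hn i (df y a) - hn j (df y b)), sq_nonneg (hn i (df y a)),
      sq_nonneg (hn j (df y b))]
  refine ⟨hi, ?_⟩
  have hs : ∀ y, √(wy y) ^ 2 = wy y := fun y => Real.sq_sqrt (wy_nonneg y)
  have h := integral_mul_sq_le (μ := (volume : Measure V)) (a := fun y => hn i (df y a) * √(wy y))
    (b := fun y => hn j (df y b) * √(wy y))
    (by simp_rw [mul_pow, hs]; exact i1) (by simp_rw [mul_pow, hs]; exact i2)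
    (by
      have : (fun y => hn i (df y a) * √(wy y) * (hn j (df y b) * √(wy y)))
          = fun y => hn i (df y a) * hn j (df y b) * wy y := by
        funext y
        rw [← hs y]
        rw [Real.sqrt_sq (Real.sqrt_nonneg _)]
        ring
      rw [this]
      exact hi)
  simp_rw [mul_pow, hs] at h
  rw [e1, e2] at h
  have e3 : ∀ y, hn i (df y a) * √(wy y) * (hn j (df y b) * √(wy y))
      = hn i (df y a) * hn j (df y b) * wy y := by
    intro y
    have := hs y
    calc _ = hn i (df y a) * hn j (df y b) * √(wy y) ^ 2 := by ring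
      _ = _ := by rw [this]
  simp_rw [e3] at h
  have hk := kap_pos
  have h1 := hn_nonneg (i + 1) a
  have h2 := hn_nonneg (j + 1) b
  refine (abs_le_of_sq_le_sq' (h.trans (le_of_eq ?_)) (by positivity)).2
  ring

/-! ### the commutator form -/

theorem abs_gm (k l : K3) : ‖dl 0 k‖ = 0 ∧ gm k l = gm l k := by
  constructor
  · simp [dl, ee, ph]
  · unfold gm
    rw [add_comm k l]
    ring

theorem Gt_int {a b c : K3 → ℂ} (ha : Rap a) (hb : Rap b) (hc : Rap c) :
    (kap : ℂ) * Gt a b c = ∫ y : V, Tri (df y a) (df y b) c * (wy y : ℂ) := by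
  set F : K3 × K3 → V → ℂ := fun p y =>
    (dl y p.1 * dl y p.2 * (wy y : ℂ)) * (a p.1 * b p.2 * c (-p.1 - p.2)) with hF
  have hFi : ∀ p, Integrable (F p) := fun p => (dl_dl_integrable p.1 p.2).mul_const _
  have hFn : ∀ p, ∫ y, ‖F p y‖ ≤ 2 * kap * ((rr p.1 + rr p.2) *
      ‖a p.1 * b p.2 * c (-p.1 - p.2)‖) := by
    intro p
    have h1 : ∀ y, ‖F p y‖ ≤ (‖dl y p.1‖ ^ 2 * wy y + ‖dl y p.2‖ ^ 2 * wy y)
        * ‖a p.1 * b p.2 * c (-p.1 - p.2)‖ := by
      intro y
      simp only [hF]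
      rw [norm_mul]
      refine mul_le_mul_of_nonneg_right ?_ (norm_nonneg _)
      rw [norm_mul, norm_mul, Complex.norm_real, Real.norm_eq_abs, abs_of_nonneg (wy_nonneg y),
        ← add_mul]
      refine mul_le_mul_of_nonneg_right ?_ (wy_nonneg y)
      nlinarith [sq_nonneg (‖dl y p.1‖ - ‖dl y p.2‖), sq_nonneg ‖dl y p.1‖, sq_nonneg ‖dl y p.2‖]
    refine (integral_mono (hFi p).norm (((dl_integrable p.1).add
      (dl_integrable p.2)).mul_const _) h1).trans (le_of_eq ?_)
    rw [integral_mul_const]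
    have e := integral_add (dl_integrable p.1) (dl_integrable p.2)
    simp only [Pi.add_apply] at e ⊢
    rw [e, dl_int, dl_int]
    ring
  have hs : Summable fun p : K3 × K3 => 2 * kap * ((rr p.1 + rr p.2) *
      ‖a p.1 * b p.2 * c (-p.1 - p.2)‖) := by
    have h1 := summable_norm_tri (rap_Lm ha).summable hb.summable hc.summable
    have h2 := summable_norm_tri ha.summable (rap_Lm hb).summable hc.summable
    refine ((h1.add h2).mul_left (2 * kap)).congr fun p => ?_
    simp only [Lm, norm_mul, Complex.norm_real, Real.norm_eq_abs, abs_of_nonneg (rr_nonneg _)]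
    ring
  have hs' : Summable fun p => ∫ y, ‖F p y‖ :=
    Summable.of_nonneg_of_le (fun p => integral_nonneg fun y => norm_nonneg _) hFn hs
  have h := hasSum_integral_of_summable_integral_norm hFi hs'
  have e1 : ∀ p, ∫ y, F p y = (kap : ℂ) * ((gm p.1 p.2 : ℂ) * (a p.1 * b p.2 * c (-p.1 - p.2))) := by
    intro p
    simp only [hF]
    rw [integral_mul_const, dl_dl_int]
    unfold gm
    push_cast
    ring
  simp_rw [e1] at h
  have e2 : ∀ y, ∑' p, F p y = Tri (df y a) (df y b) c * (wy y : ℂ) := by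
    intro y
    unfold Tri
    rw [← tsum_mul_right]
    refine tsum_congr fun p => ?_
    simp only [hF, df]
    ring
  simp_rw [e2] at h
  rw [← h.tsum_eq, tsum_mul_left]
  rfl

theorem Gt_bound {a b c : K3 → ℂ} (ha : Rap a) (hb : Rap b) (hc : Rap c) (a0 : a 0 = 0)
    {β δ : ℝ} (hβ : 0 ≤ β) (hδ : 0 ≤ δ) (h : ∫ x in cube, ex β c x ^ 3 ≤ δ ^ 3) :
    ‖Gt a b c‖ ≤ 2 * (β * (hn 1 a * hn 1 b) + δ * (c6 * (hn 3 a * hn 1 b))) := by
  have hk := kap_pos
  obtain ⟨i1, e1⟩ := int_hn_mul 0 0 ha hb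
  obtain ⟨i2, e2⟩ := int_hn_mul 2 0 ha hb
  have h1 : kap * ‖Gt a b c‖ = ‖∫ y : V, Tri (df y a) (df y b) c * (wy y : ℂ)‖ := by
    rw [← Gt_int ha hb hc, norm_mul, Complex.norm_real, Real.norm_eq_abs, abs_of_pos hk]
  have h2 : ‖∫ y : V, Tri (df y a) (df y b) c * (wy y : ℂ)‖
      ≤ ∫ y : V, (β * (hn 0 (df y a) * hn 0 (df y b) * wy y)
        + δ * c6 * (hn 2 (df y a) * hn 0 (df y b) * wy y)) := by
    refine norm_integral_le_of_norm_le ((i1.const_mul β).add (i2.const_mul (δ * c6)))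
      (Eventually.of_forall fun y => ?_)
    rw [norm_mul, Complex.norm_real, Real.norm_eq_abs, abs_of_nonneg (wy_nonneg y)]
    refine (mul_le_mul_of_nonneg_right (tri_bound6 (rap_df y ha) (rap_df y hb) hc
      (df_zero y a0) hβ hδ h) (wy_nonneg y)).trans (le_of_eq ?_)
    rw [n2_eq_hn, n2_eq_hn]
    ring
  rw [integral_add (i1.const_mul β) (i2.const_mul (δ * c6)), integral_const_mul,
    integral_const_mul] at h2
  have h6 := c6_nonneg
  have h3 : kap * ‖Gt a b c‖ ≤ β * (2 * kap * (hn (0 + 1) a * hn (0 + 1) b))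
      + δ * c6 * (2 * kap * (hn (2 + 1) a * hn (0 + 1) b)) := by
    rw [h1]
    refine h2.trans ?_
    gcongr
  have h4 : kap * ‖Gt a b c‖ ≤ kap * (2 * (β * (hn 1 a * hn 1 b)
      + δ * (c6 * (hn 3 a * hn 1 b)))) := by
    refine h3.trans (le_of_eq ?_)
    norm_num
    ring
  exact le_of_mul_le_mul_left h4 hk

end Pool.Agent.TH301.HX
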