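import Pool.Agent.TH301.HX.Hel

/-!
The bound of the nonlinear term in `H^{1/2}` by one helical part.
-/

set_option autoImplicit false

open MeasureTheory Set Filter Topology
open H459R3.NS Pool.Agent.TH305.FB
open scoped ENNReal

namespace Pool.Agent.TH301.HX

/-- `∑ |k|^j |U k|²`. -/
noncomputable def EJ (j : ℕ) (U : Fin 3 → K3 → ℂ) : ℝ := ∑' k, rr k ^ j * TH305.FB.e2 U k

theorem EJ_nonneg (j : ℕ) (U : Fin 3 → K3 → ℂ) : 0 ≤ EJ j U :=
  tsum_nonneg fun k => mul_nonneg (pow_nonneg (rr_nonneg k) _) (TH305.FB.e2_nonneg U k)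

theorem summable_EJ (j : ℕ) {U : Fin 3 → K3 → ℂ} (hU : RV U) :
    Summable fun k => rr k ^ j * TH305.FB.e2 U k := by
  have h : Summable fun k => ∑ i, rr k ^ j * ‖U i k‖ ^ 2 :=
    summable_sum fun i _ => summable_hn j (hU i)
  refine h.congr fun k => ?_
  rw [TH305.FB.e2, Finset.mul_sum]

theorem hn_sq_le_EJ (j : ℕ) {U : Fin 3 → K3 → ℂ} (hU : RV U) (i : Fin 3) :
    hn j (U i) ^ 2 ≤ EJ j U := by
  rw [hn_sq]
  refine (summable_hn j (hU i)).tsum_le_tsum (fun k => ?_) (summable_EJ j hU)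
  refine mul_le_mul_of_nonneg_left ?_ (pow_nonneg (rr_nonneg k) _)
  exact Finset.single_le_sum (f := fun i => ‖U i k‖ ^ 2) (fun _ _ => sq_nonneg _)
    (Finset.mem_univ i)

theorem hn_le_EJ (j : ℕ) {U : Fin 3 → K3 → ℂ} (hU : RV U) (i : Fin 3) :
    hn j (U i) ≤ √(EJ j U) := Real.le_sqrt_of_sq_le (hn_sq_le_EJ j hU i)

theorem rap_norm {a : K3 → ℂ} (ha : Rap a) : Rap (fun k => (‖a k‖ : ℂ)) := by
  intro n
  refine (ha n).congr fun k => ?_
  rw [Complex.norm_real, norm_norm]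

theorem rv_hp {s : ℝ} (hs : s ^ 2 = 1) {U : Fin 3 → K3 → ℂ} (hU : RV U) (hd : Dv U) :
    RV (hp s U) := by
  intro i
  have hr : Rap (fun k => ((‖U 0 k‖ : ℂ) + (‖U 1 k‖ : ℂ)) + (‖U 2 k‖ : ℂ)) :=
    rap_add (rap_add (rap_norm (hU 0)) (rap_norm (hU 1))) (rap_norm (hU 2))
  refine rap_of_le hr fun k => ?_
  have h1 := sum_hp_le hs hd k
  have h2 : ‖hp s U i k‖ ^ 2 ≤ TH305.FB.e2 (hp s U) k :=
    Finset.single_le_sum (f := fun i => ‖hp s U i k‖ ^ 2) (fun _ _ => sq_nonneg _)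
      (Finset.mem_univ i)
  have h3 : ‖((‖U 0 k‖ : ℂ) + (‖U 1 k‖ : ℂ)) + (‖U 2 k‖ : ℂ)‖ = ‖U 0 k‖ + ‖U 1 k‖ + ‖U 2 k‖ := by
    rw [← Complex.ofReal_add, ← Complex.ofReal_add, Complex.norm_real, Real.norm_eq_abs,
      abs_of_nonneg (by positivity)]
  rw [h3]
  refine le_of_sq_le_sq' (h2.trans (h1.trans ?_)) (by positivity)
  unfold TH305.FB.e2
  rw [Fin.sum_univ_three]
  have a0 := norm_nonneg (U 0 k)
  have a1 := norm_nonneg (U 1 k)
  have a2 := norm_nonneg (U 2 k)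
  nlinarith [mul_nonneg a0 a1, mul_nonneg a0 a2, mul_nonneg a1 a2]
where
  le_of_sq_le_sq' {x y : ℝ} (h : x ^ 2 ≤ y ^ 2) (hy : 0 ≤ y) : x ≤ y :=
    (abs_le_of_sq_le_sq' h hy).2

theorem EJ_hp_le (j : ℕ) {s : ℝ} (hs : s ^ 2 = 1) {U : Fin 3 → K3 → ℂ} (hU : RV U) (hd : Dv U) :
    EJ j (hp s U) ≤ EJ j U := by
  unfold EJ
  refine (summable_EJ j (rv_hp hs hU hd)).tsum_le_tsum (fun k => ?_) (summable_EJ j hU)
  exact mul_le_mul_of_nonneg_left (sum_hp_le hs hd k) (pow_nonneg (rr_nonneg k) _)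

theorem hn_hp_le (j : ℕ) {s : ℝ} (hs : s ^ 2 = 1) {U : Fin 3 → K3 → ℂ} (hU : RV U) (hd : Dv U)
    (i : Fin 3) : hn j (hp s U i) ≤ √(EJ j U) :=
  (hn_le_EJ j (rv_hp hs hU hd) i).trans (Real.sqrt_le_sqrt (EJ_hp_le j hs hU hd))

/-- interpolation -/
theorem EJ_two {U : Fin 3 → K3 → ℂ} (hU : RV U) : EJ 2 U ≤ √(EJ 1 U) * √(EJ 3 U) := by
  have h := tsum_mul_le_sqrt (f := fun k => √(rr k ^ 1 * TH305.FB.e2 U k))
    (g := fun k => √(rr k ^ 3 * TH305.FB.e2 U k)) ?_ ?_ ?_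
  · have hnn : ∀ j k, 0 ≤ rr k ^ j * TH305.FB.e2 U k := fun j k =>
      mul_nonneg (pow_nonneg (rr_nonneg k) _) (TH305.FB.e2_nonneg U k)
    have e1 : ∀ k, √(rr k ^ 1 * TH305.FB.e2 U k) * √(rr k ^ 3 * TH305.FB.e2 U k)
        = rr k ^ 2 * TH305.FB.e2 U k := by
      intro k
      rw [← Real.sqrt_mul (hnn 1 k)]
      have : rr k ^ 1 * TH305.FB.e2 U k * (rr k ^ 3 * TH305.FB.e2 U k)
          = (rr k ^ 2 * TH305.FB.e2 U k) ^ 2 := by ring
      rw [this, Real.sqrt_sq (hnn 2 k)]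
    simp_rw [e1, Real.sq_sqrt (hnn 1 _), Real.sq_sqrt (hnn 3 _)] at h
    exact h
  · have hnn : ∀ j k, 0 ≤ rr k ^ j * TH305.FB.e2 U k := fun j k =>
      mul_nonneg (pow_nonneg (rr_nonneg k) _) (TH305.FB.e2_nonneg U k)
    refine (summable_EJ 2 hU).congr fun k => ?_
    rw [← Real.sqrt_mul (hnn 1 k)]
    have : rr k ^ 1 * TH305.FB.e2 U k * (rr k ^ 3 * TH305.FB.e2 U k)
        = (rr k ^ 2 * TH305.FB.e2 U k) ^ 2 := by ring
    rw [this, Real.sqrt_sq (hnn 2 k)]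
  · refine (summable_EJ 1 hU).congr fun k => ?_
    rw [Real.sq_sqrt (mul_nonneg (pow_nonneg (rr_nonneg k) _) (TH305.FB.e2_nonneg U k))]
  · refine (summable_EJ 3 hU).congr fun k => ?_
    rw [Real.sq_sqrt (mul_nonneg (pow_nonneg (rr_nonneg k) _) (TH305.FB.e2_nonneg U k))]

theorem hn_Lm (j : ℕ) (a : K3 → ℂ) : hn j (Lm a) = hn (j + 2) a := by
  unfold hn
  congr 1
  refine tsum_congr fun k => ?_
  rw [Lm, norm_mul, Complex.norm_real, Real.norm_eq_abs, abs_of_nonneg (rr_nonneg k)]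
  ring

theorem abs_k_le_rr (k : K3) (m : Fin 3) : ‖(k m : ℂ)‖ ≤ rr k := by
  rw [Complex.norm_intCast]
  refine Real.le_sqrt_of_sq_le ?_
  rw [sq_abs]
  exact Finset.single_le_sum (f := fun j => (k j : ℝ) ^ 2) (fun _ _ => sq_nonneg _)
    (Finset.mem_univ m)

theorem hn_D (j : ℕ) {a : K3 → ℂ} (ha : Rap a) (m : Fin 3) :
    hn j (D m a) ≤ 2 * Real.pi * hn (j + 2) a := by
  have hp0 := Real.pi_pos
  refine (abs_le_of_sq_le_sq' (b := 2 * Real.pi * hn (j + 2) a) (a := hn j (D m a)) ?_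
    (mul_nonneg (by positivity) (hn_nonneg _ _))).2
  rw [hn_sq, mul_pow, hn_sq, ← tsum_mul_left]
  refine (summable_hn j (ha.D m)).tsum_le_tsum (fun k => ?_) ((summable_hn (j + 2) ha).mul_left _)
  have h1 : ‖D m a k‖ ≤ 2 * Real.pi * (rr k * ‖a k‖) := by
    rw [D, norm_mul, norm_mul, norm_mul, norm_mul, Complex.norm_I, mul_one, Complex.norm_real,
      Real.norm_eq_abs, abs_of_pos hp0, Complex.norm_ofNat]
    have := abs_k_le_rr k m
    calc 2 * Real.pi * ‖(k m : ℂ)‖ * ‖a k‖ ≤ 2 * Real.pi * rr k * ‖a k‖ := by gcongr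
      _ = _ := by ring
  have h2 := pow_le_pow_left₀ (norm_nonneg _) h1 2
  have h3 := rr_nonneg k
  calc rr k ^ j * ‖D m a k‖ ^ 2 ≤ rr k ^ j * (2 * Real.pi * (rr k * ‖a k‖)) ^ 2 := by gcongr
    _ = _ := by ring

theorem D_zero (m : Fin 3) {a : K3 → ℂ} : D m a 0 = 0 := by simp [D]

theorem Lm_zero {a : K3 → ℂ} : Lm a 0 = 0 := by simp [Lm, rr_zero]

/-! ### the mean value does not contribute -/

theorem tri_mean_swap {m x y : K3 → ℂ} (hm : ∀ k, k ≠ 0 → m k = 0) :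
    Tri m x (Lm y) = Tri m (Lm x) y := by
  unfold Tri
  refine tsum_congr fun p => ?_
  by_cases h : p.1 = 0
  · have e : -p.1 - p.2 = -p.2 := by rw [h]; simp
    simp only [Lm, e, rr_neg]
    ring
  · rw [hm _ h]
    ring

theorem tri_mean_zero {m x : K3 → ℂ} (hm : ∀ k, k ≠ 0 → m k = 0) (rm : Rap m) (rx : Rap x)
    (j : Fin 3) : Tri m (D j x) (Lm x) = 0 := by
  have hD : D j m = 0 := by
    funext k
    by_cases hk : k = 0
    · rw [hk, D_zero]; rfl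
    · simp [D, hm k hk]
  have h1 := tri_D2 rm rx (rap_Lm rx) j
  have e : Tri m x (D j (Lm x)) = Tri m (D j x) (Lm x) := by
    rw [D_Lm, tri_mean_swap hm, tri_comm23]
  rw [hD, tri_zero1, e] at h1
  have h2 : 2 * Tri m (D j x) (Lm x) = 0 := by linear_combination h1
  simpa using h2

theorem TT_mean {U W : Fin 3 → K3 → ℂ} (hU : RV U) (hW : RV W) (h : ∀ i k, k ≠ 0 → W i k = U i k)
    (h0 : ∀ i, W i 0 = 0) :
    TT U U (fun i => Lm (U i)) = TT W W (fun i => Lm (W i)) := by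
  have eL : ∀ i, Lm (U i) = Lm (W i) := by
    intro i
    funext k
    by_cases hk : k = 0
    · rw [hk, Lm_zero, Lm_zero]
    · rw [Lm, Lm, h i k hk]
  have eD : ∀ j i, D j (U i) = D j (W i) := by
    intro j i
    funext k
    by_cases hk : k = 0
    · rw [hk, D_zero, D_zero]
    · rw [D, D, h i k hk]
  set m : Fin 3 → K3 → ℂ := fun j => U j - W j with hm
  have hm0 : ∀ j k, k ≠ 0 → m j k = 0 := by
    intro j k hk
    simp only [hm, Pi.sub_apply, h j k hk, sub_self]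
  have rm : ∀ j, Rap (m j) := fun j => rap_sub (hU j) (hW j)
  unfold TT
  refine Finset.sum_congr rfl fun i _ => Finset.sum_congr rfl fun j _ => ?_
  have e1 : U j = m j + W j := by simp [hm]
  show Tri (U j) (D j (U i)) (Lm (U i)) = Tri (W j) (D j (W i)) (Lm (W i))
  rw [eL, eD, e1, tri_add1 (rm j).summable (hW j).summable ((hW i).D j).summable
    (rap_Lm (hW i)).summable, tri_mean_zero (hm0 j) (rm j) (hW i) j, zero_add]

/-! ### the bound -/

/-- constants -/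
noncomputable def K1 : ℝ := 96 * Real.pi

/-- constants -/
noncomputable def K2 : ℝ := 60 * Real.pi * c3 ^ 2 + 72 * Real.pi * c6

theorem K1_nonneg : 0 ≤ K1 := by unfold K1; positivity

theorem K2_pos : 0 < K2 := by
  unfold K2
  have h1 : 0 < c3 := by unfold c3; positivity
  have h2 := c6_nonneg
  have := Real.pi_pos
  positivity

theorem norm_sum_sum_le {f : Fin 3 → Fin 3 → ℂ} {B : ℝ} (h : ∀ i j, ‖f i j‖ ≤ B) :
    ‖∑ i, ∑ j, f i j‖ ≤ 9 * B := by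
  refine (norm_sum_le _ _).trans ?_
  refine (Finset.sum_le_sum fun i _ => (norm_sum_le _ _).trans
    (Finset.sum_le_sum fun j _ => h i j)).trans (le_of_eq ?_)
  simp
  ring

theorem C_bound {s : ℝ} (hs : s ^ 2 = 1) {U : Fin 3 → K3 → ℂ} (hU : RV U) (hd : Dv U)
    {β δ r : ℝ} (hβ : 0 ≤ β) (hδ : 0 ≤ δ) (hr0 : 0 ≤ r) (hr1 : r ≤ 1)
    (hr : EJ 3 (hp (-s) U) ≤ r ^ 2 * EJ 3 U)
    (h : ∀ i, ∫ x in cube, ex β (hp s U i) x ^ 3 ≤ δ ^ 3) :
    ‖TT U U (fun i => Lm (U i))‖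
      ≤ K1 * (β * √r * (√(EJ 1 U) * √(EJ 3 U))) + K2 * (δ * r * EJ 3 U) := by
  have hs' : (-s) ^ 2 = 1 := by rw [neg_sq]; exact hs
  set a := hp (-s) U with ha
  set b := hp s U with hb
  have ra : RV a := rv_hp hs' hU hd
  have rb : RV b := rv_hp hs hU hd
  have h1 : TT U U (fun i => Lm (U i))
      = TT (fun i => a i + b i) (fun i => a i + b i) (fun i => Lm (a i + b i)) := by
    refine TT_mean hU (fun i => rap_add (ra i) (rb i)) (fun i k hk => ?_) (fun i => ?_)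
    · rw [Pi.add_apply, ha, hb, add_comm, hp_add i hk]
    · rw [Pi.add_apply, ha, hb, hp_zero, hp_zero, add_zero]
  have Ha : Hel ((-s : ℝ) : ℂ) a := hel_hp hs' hd
  have Hb : Hel (-((-s : ℝ) : ℂ)) b := by
    have := hel_hp hs hd
    have e : -((-s : ℝ) : ℂ) = (s : ℂ) := by push_cast; ring
    rw [e]
    exact this
  have hss : (((-s : ℝ) : ℂ)) ^ 2 = 1 := by exact_mod_cast congrArg (fun x : ℝ => (x : ℂ)) hs'
  rw [h1, main_identity hss ra rb (dv_hp _ hd) (dv_hp _ hd) Ha Hb]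
  have hp0 := Real.pi_pos
  have hc3 := c3_nonneg
  have hc6 := c6_nonneg
  set x := √(EJ 1 U) with hx
  set y := √(EJ 3 U) with hy
  have hx0 : 0 ≤ x := Real.sqrt_nonneg _
  have hy0 : 0 ≤ y := Real.sqrt_nonneg _
  have hy2 : y * y = EJ 3 U := Real.mul_self_sqrt (EJ_nonneg 3 U)
  have hz : √(EJ 2 U) * √(EJ 2 U) ≤ x * y := by
    rw [Real.mul_self_sqrt (EJ_nonneg 2 U)]
    exact EJ_two hU
  have hz0 : 0 ≤ √(EJ 2 U) := Real.sqrt_nonneg _
  -- the norms of `a`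
  have hxa : √(EJ 1 a) ≤ x := Real.sqrt_le_sqrt (EJ_hp_le 1 hs' hU hd)
  have hya : √(EJ 3 a) ≤ r * y := by
    refine (Real.sqrt_le_sqrt hr).trans (le_of_eq ?_)
    rw [Real.sqrt_mul (sq_nonneg r), Real.sqrt_sq hr0]
  have hza2 : √(EJ 2 a) * √(EJ 2 a) ≤ r * (x * y) := by
    rw [Real.mul_self_sqrt (EJ_nonneg 2 a)]
    refine (EJ_two ra).trans ?_
    calc √(EJ 1 a) * √(EJ 3 a) ≤ x * (r * y) := by gcongr
      _ = _ := by ring
  have hza0 : 0 ≤ √(EJ 2 a) := Real.sqrt_nonneg _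
  have hq0 : 0 ≤ √r := Real.sqrt_nonneg _
  have hqq : √r * √r = r := Real.mul_self_sqrt hr0
  have hrq : r ≤ √r := by
    have : √r ≤ 1 := Real.sqrt_le_iff.2 ⟨zero_le_one, by simpa using hr1⟩
    calc r = √r * √r := hqq.symm
      _ ≤ √r * 1 := by gcongr
      _ = √r := mul_one _
  have hza : √(EJ 2 U) * √(EJ 2 a) ≤ √r * (x * y) := by
    have e1 : (√(EJ 2 U) * √(EJ 2 a)) ^ 2 ≤ (√r * (x * y)) ^ 2 := by
      calc (√(EJ 2 U) * √(EJ 2 a)) ^ 2 = (√(EJ 2 U) * √(EJ 2 U)) * (√(EJ 2 a) * √(EJ 2 a)) := by ring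
        _ ≤ (x * y) * (r * (x * y)) := by gcongr
        _ = (√r * √r) * (x * y) ^ 2 := by rw [hqq]; ring
        _ = _ := by ring
    exact (abs_le_of_sq_le_sq' e1 (by positivity)).2
  have a0 : ∀ i, a i 0 = 0 := fun i => hp_zero _ _ _
  have b0 : ∀ i, b i 0 = 0 := fun i => hp_zero _ _ _
  have a1 : ∀ j i, hn j (a i) ≤ √(EJ j a) := fun j i => hn_le_EJ j ra i
  have a13 : ∀ i, hn 3 (a i) ≤ r * y := fun i => (a1 3 i).trans hya
  have a11 : ∀ i, hn 1 (a i) ≤ x := fun i => (a1 1 i).trans hxa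
  have b1 : ∀ j i, hn j (b i) ≤ √(EJ j U) := fun j i => hn_hp_le j hs hU hd i
  have aD : ∀ j i m, hn j (D m (a i)) ≤ 2 * Real.pi * √(EJ (j + 2) a) := fun j i m =>
    (hn_D j (ra i) m).trans (mul_le_mul_of_nonneg_left (a1 (j + 2) i) (by positivity))
  have aD1 : ∀ i m, hn 1 (D m (a i)) ≤ 2 * Real.pi * (r * y) := fun i m =>
    (aD 1 i m).trans (mul_le_mul_of_nonneg_left hya (by positivity))
  -- first term
  have t1 : ‖TT (fun i => Lm (a i)) a b‖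
      ≤ 9 * (2 * Real.pi * (β * (√r * (x * y)) + δ * (c3 ^ 2 * (r * (y * y))))) := by
    unfold TT
    refine norm_sum_sum_le fun i j => ?_
    refine (tri_bound (rap_Lm (ra j)) ((ra i).D j) (rb i) Lm_zero (D_zero j) hβ hδ (h i)).trans ?_
    have e1 : n2 (Lm (a j)) * n2 (D j (a i)) ≤ 2 * Real.pi * (√r * (x * y)) := by
      rw [n2_eq_hn, n2_eq_hn, hn_Lm]
      calc hn (0 + 2) (a j) * hn 0 (D j (a i))
          ≤ √(EJ 2 a) * (2 * Real.pi * √(EJ 2 a)) :=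
            mul_le_mul (a1 2 j) (aD 0 i j) (hn_nonneg _ _) hza0
        _ = 2 * Real.pi * (√(EJ 2 a) * √(EJ 2 a)) := by ring
        _ ≤ 2 * Real.pi * (r * (x * y)) := by gcongr
        _ ≤ _ := by gcongr
    have e2 : c3 * hn 1 (Lm (a j)) * (c3 * hn 1 (D j (a i)))
        ≤ 2 * Real.pi * (c3 ^ 2 * (r * (y * y))) := by
      rw [hn_Lm]
      calc c3 * hn (1 + 2) (a j) * (c3 * hn 1 (D j (a i)))
          ≤ (c3 * (1 * y)) * (c3 * (2 * Real.pi * (r * y))) := by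
            have q1 : hn (1 + 2) (a j) ≤ 1 * y :=
              (a13 j).trans (mul_le_mul_of_nonneg_right hr1 hy0)
            have q2 := aD1 i j
            have q3 := hn_nonneg 1 (D j (a i))
            gcongr
        _ = _ := by ring
    calc β * (n2 (Lm (a j)) * n2 (D j (a i))) + δ * (c3 * hn 1 (Lm (a j)) * (c3 * hn 1 (D j (a i))))
        ≤ β * (2 * Real.pi * (√r * (x * y))) + δ * (2 * Real.pi * (c3 ^ 2 * (r * (y * y)))) := by
          gcongr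
      _ = _ := by ring
  -- second term
  have t2 : ‖GG a b‖
      ≤ 9 * (4 * Real.pi * (β * (√r * (x * y)) + δ * (c6 * (r * (y * y))))) := by
    unfold GG
    refine norm_sum_sum_le fun i j => ?_
    refine (Gt_bound (ra j) ((ra i).D j) (rb i) (a0 j) hβ hδ (h i)).trans ?_
    have q1 : hn 1 (a j) ≤ x := a11 j
    have q2 := aD1 i j
    have q3 : hn 3 (a j) ≤ y :=
      (a13 j).trans (mul_le_of_le_one_left hy0 hr1)
    have q4 := hn_nonneg 1 (D j (a i))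
    calc 2 * (β * (hn 1 (a j) * hn 1 (D j (a i))) + δ * (c6 * (hn 3 (a j) * hn 1 (D j (a i)))))
        ≤ 2 * (β * (x * (2 * Real.pi * (r * y))) + δ * (c6 * (y * (2 * Real.pi * (r * y))))) := by
          gcongr
      _ = 4 * Real.pi * (β * (r * (x * y)) + δ * (c6 * (r * (y * y)))) := by ring
      _ ≤ _ := by gcongr
  -- third term
  have t3' : ∀ i j k, ‖Tri (Lm (b i)) (Lm (a j)) (b k)‖
      ≤ β * (√r * (x * y)) + δ * (c3 ^ 2 * (r * (y * y))) := by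
    intro i j k
    refine (tri_bound (rap_Lm (rb i)) (rap_Lm (ra j)) (rb k) Lm_zero Lm_zero hβ hδ (h k)).trans ?_
    have e1 : n2 (Lm (b i)) * n2 (Lm (a j)) ≤ √r * (x * y) := by
      rw [n2_eq_hn, n2_eq_hn, hn_Lm, hn_Lm]
      exact (mul_le_mul (b1 2 i) (a1 2 j) (hn_nonneg _ _) hz0).trans hza
    have e2 : c3 * hn 1 (Lm (b i)) * (c3 * hn 1 (Lm (a j))) ≤ c3 ^ 2 * (r * (y * y)) := by
      rw [hn_Lm, hn_Lm]
      calc c3 * hn (1 + 2) (b i) * (c3 * hn (1 + 2) (a j)) ≤ (c3 * y) * (c3 * (r * y)) := by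
            have q1 : hn (1 + 2) (b i) ≤ y := b1 3 i
            have q2 : hn (1 + 2) (a j) ≤ r * y := a13 j
            have q3 := hn_nonneg (1 + 2) (a j)
            gcongr
        _ = _ := by ring
    gcongr
  have t3 : ‖X3 (fun i => Lm (b i)) (fun i => Lm (a i)) b‖
      ≤ 6 * (β * (√r * (x * y)) + δ * (c3 ^ 2 * (r * (y * y)))) := by
    unfold X3
    refine (norm_sub_le _ _).trans ?_
    refine (add_le_add ((norm_add_le _ _).trans (add_le_add ((norm_sub_le _ _).trans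
      (add_le_add ((norm_add_le _ _).trans (add_le_add ((norm_sub_le _ _).trans
      (add_le_add (t3' _ _ _) (t3' _ _ _))) (t3' _ _ _))) (t3' _ _ _))) (t3' _ _ _)))
      (t3' _ _ _)).trans (le_of_eq ?_)
    ring
  have n1 : ‖(2 : ℂ) * TT (fun i => Lm (a i)) a b‖ = 2 * ‖TT (fun i => Lm (a i)) a b‖ := by
    rw [norm_mul, Complex.norm_ofNat]
  have n3 : ‖4 * (Real.pi : ℂ) * ((-s : ℝ) : ℂ) * X3 (fun i => Lm (b i)) (fun i => Lm (a i)) b‖
      = 4 * Real.pi * ‖X3 (fun i => Lm (b i)) (fun i => Lm (a i)) b‖ := by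
    rw [norm_mul, norm_mul, norm_mul, Complex.norm_ofNat, Complex.norm_real, Complex.norm_real,
      Real.norm_eq_abs, Real.norm_eq_abs, abs_of_pos hp0]
    have : |(-s)| = 1 := by
      rw [← sq_eq_sq₀ (abs_nonneg _) zero_le_one, sq_abs, hs', one_pow]
    rw [this, mul_one]
  refine (norm_add_le _ _).trans ((add_le_add (norm_sub_le _ _) le_rfl).trans ?_)
  rw [n1, n3]
  have e : K1 * (β * √r * (x * y)) + K2 * (δ * r * EJ 3 U)
      = 2 * (9 * (2 * Real.pi * (β * (√r * (x * y)) + δ * (c3 ^ 2 * (r * (y * y))))))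
        + 9 * (4 * Real.pi * (β * (√r * (x * y)) + δ * (c6 * (r * (y * y)))))
        + 4 * Real.pi * (6 * (β * (√r * (x * y)) + δ * (c3 ^ 2 * (r * (y * y)))))
        + 36 * Real.pi * (δ * (c6 * (r * (y * y)))) := by
    rw [← hy2]
    unfold K1 K2
    ring
  rw [e]
  have : 0 ≤ 36 * Real.pi * (δ * (c6 * (r * (y * y)))) := by positivity
  have t3'' := mul_le_mul_of_nonneg_left t3 (show 0 ≤ 4 * Real.pi by positivity)
  linarith

end Pool.Agent.TH301.HX
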