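import Pool.Agent.TH301.HX.Alg
import Pool.Agent.TH305.FB.Band

/-!
The embeddings of `H^{1/2}` in `L³` and of `H¹` in `L⁶` for functions on the torus with mean zero.
-/

set_option autoImplicit false

open MeasureTheory Set Filter Topology
open H459R3.NS Pool.Agent.TH305.FB
open scoped ENNReal

namespace Pool.Agent.TH301.HX

theorem S_add {a b : K3 → ℂ} (ha : Summable a) (hb : Summable b) (x : V) :
    S (a + b) x = S a x + S b x := by
  unfold S
  rw [← (summable_term ha x).tsum_add (summable_term hb x)]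
  exact tsum_congr fun k => by simp [add_mul]

theorem sq_S_integrable {a : K3 → ℂ} (ha : Summable a) :
    IntegrableOn (fun x => ‖S a x‖ ^ 2) cube :=
  integrableOn_cube ((S_continuous ha).norm.pow 2)

theorem lintegral_sq_S {a : K3 → ℂ} (ha : Summable a) :
    ∫⁻ x in cube, ENNReal.ofReal (‖S a x‖ ^ 2) = ENNReal.ofReal (∑' k, ‖a k‖ ^ 2) := by
  rw [← ofReal_integral_eq_lintegral_ofReal (sq_S_integrable ha)
    (Eventually.of_forall fun x => by positivity), integral_norm_sq ha, n2_sq]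

/-- The distribution function is estimated by cutting the frequencies. -/
theorem weak {a : K3 → ℂ} (ha : Rap a) {t : ℝ} (ht : 0 < t) (R : Set K3)
    (hlow : ∑' k, R.indicator (fun k => ‖a k‖) k ≤ t / 2) :
    (volume.restrict cube) {x | t < ‖S a x‖}
      ≤ ENNReal.ofReal (4 / t ^ 2) * ∑' k, ENNReal.ofReal (Rᶜ.indicator (fun k => ‖a k‖ ^ 2) k) := by
  have h1 := (ha.ind R).summable
  have h2 := (ha.ind Rᶜ).summable
  have hS : ∀ x, ‖S a x‖ ≤ t / 2 + ‖S (Rᶜ.indicator a) x‖ := by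
    intro x
    have e : S a x = S (R.indicator a) x + S (Rᶜ.indicator a) x := by
      rw [← S_add h1 h2, Set.indicator_self_add_compl]
    rw [e]
    refine (norm_add_le _ _).trans ?_
    gcongr
    refine (norm_S_le h1 x).trans (le_trans (le_of_eq (tsum_congr fun k => ?_)) hlow)
    by_cases hk : k ∈ R
    · rw [indicator_of_mem hk, indicator_of_mem hk]
    · rw [indicator_of_notMem hk, indicator_of_notMem hk, norm_zero]
  have hsub : {x | t < ‖S a x‖}
      ⊆ {x | ENNReal.ofReal (t ^ 2 / 4) ≤ ENNReal.ofReal (‖S (Rᶜ.indicator a) x‖ ^ 2)} := by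
    intro x hx
    have hx' : t < ‖S a x‖ := hx
    refine ENNReal.ofReal_le_ofReal ?_
    have h3 : t / 2 ≤ ‖S (Rᶜ.indicator a) x‖ := by
      have := hS x
      linarith
    calc t ^ 2 / 4 = (t / 2) ^ 2 := by ring
      _ ≤ _ := pow_le_pow_left₀ (by positivity) h3 2
  have hm := mul_meas_ge_le_lintegral (μ := volume.restrict cube)
    (f := fun x => ENNReal.ofReal (‖S (Rᶜ.indicator a) x‖ ^ 2))
    (((S_continuous h2).norm.pow 2).measurable.ennreal_ofReal) (ENNReal.ofReal (t ^ 2 / 4))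
  rw [lintegral_sq_S h2] at hm
  have e1 : ENNReal.ofReal (∑' k, ‖Rᶜ.indicator a k‖ ^ 2)
      = ∑' k, ENNReal.ofReal (Rᶜ.indicator (fun k => ‖a k‖ ^ 2) k) := by
    rw [ENNReal.ofReal_tsum_of_nonneg (fun k => by positivity) (summable_sq h2)]
    refine tsum_congr fun k => ?_
    by_cases hk : k ∈ Rᶜ
    · rw [indicator_of_mem hk, indicator_of_mem hk]
    · rw [indicator_of_notMem hk, indicator_of_notMem hk, norm_zero, zero_pow two_ne_zero]
  rw [e1] at hm
  refine (measure_mono hsub).trans ?_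
  have e2 : ENNReal.ofReal (4 / t ^ 2) * ENNReal.ofReal (t ^ 2 / 4) = 1 := by
    rw [← ENNReal.ofReal_mul (by positivity)]
    have : 4 / t ^ 2 * (t ^ 2 / 4) = 1 := by field_simp
    rw [this, ENNReal.ofReal_one]
  calc _ = ENNReal.ofReal (4 / t ^ 2) * ENNReal.ofReal (t ^ 2 / 4) *
        (volume.restrict cube) {x | ENNReal.ofReal (t ^ 2 / 4)
          ≤ ENNReal.ofReal (‖S (Rᶜ.indicator a) x‖ ^ 2)} := by rw [e2, one_mul]
    _ ≤ _ := by
      rw [mul_assoc]
      gcongr

theorem emb {p : ℝ} (hp : 2 < p) {a : K3 → ℂ} (ha : Rap a) {L : ℝ} (hL : 0 < L)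
    (hlow : ∀ A : ℝ, 0 < A → ∑' k, {k : K3 | rr k < A}.indicator (fun k => ‖a k‖) k
      ≤ L * A ^ (3 / p)) :
    ∫⁻ x in cube, ENNReal.ofReal (‖S a x‖ ^ p)
      ≤ ∑' k, ENNReal.ofReal (4 * p / (p - 2) * (‖a k‖ ^ 2 * (2 * L * rr k ^ (3 / p)) ^ (p - 2))) := by
  have hp0 : 0 < p := by linarith
  have hd : 0 < 3 / p := by positivity
  set b : K3 → ℝ := fun k => 2 * L * rr k ^ (3 / p) with hb
  have hb0 : ∀ k, 0 ≤ b k := fun k => mul_nonneg (by positivity) (Real.rpow_nonneg (rr_nonneg k) _)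
  rw [lintegral_rpow_eq_lintegral_meas_lt_mul (volume.restrict cube)
    (Eventually.of_forall fun x => norm_nonneg _)
    (S_continuous ha.summable).norm.measurable.aemeasurable hp0]
  have key : ∀ t ∈ Ioi (0 : ℝ), (volume.restrict cube) {x | t < ‖S a x‖}
      * ENNReal.ofReal (t ^ (p - 1))
      ≤ ∑' k, (Ioc 0 (b k)).indicator
        (fun t => ENNReal.ofReal (4 * ‖a k‖ ^ 2 * t ^ (p - 3))) t := by
    intro t ht
    have ht0 : (0 : ℝ) < t := ht
    set A : ℝ := (t / (2 * L)) ^ (p / 3) with hA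
    have htL : 0 < t / (2 * L) := by positivity
    have hA0 : 0 < A := Real.rpow_pos_of_pos htL _
    have hAp : A ^ (3 / p) = t / (2 * L) := by
      rw [hA, ← Real.rpow_mul htL.le]
      have : p / 3 * (3 / p) = 1 := by field_simp
      rw [this, Real.rpow_one]
    have h1 := weak ha ht0 {k : K3 | rr k < A} (by
      refine (hlow A hA0).trans (le_of_eq ?_)
      rw [hAp]
      field_simp)
    refine (mul_le_mul_left h1 _).trans ?_
    rw [← ENNReal.tsum_mul_left, ← ENNReal.tsum_mul_right]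
    refine ENNReal.tsum_le_tsum fun k => ?_
    by_cases hk : k ∈ {k : K3 | rr k < A}ᶜ
    · have hk' : A ≤ rr k := not_lt.1 hk
      have htb : t ≤ b k := by
        have h2 := Real.rpow_le_rpow hA0.le hk' hd.le
        rw [hAp, div_le_iff₀ (by positivity)] at h2
        simp only [hb]
        linarith
      rw [indicator_of_mem hk, indicator_of_mem (show t ∈ Ioc 0 (b k) from ⟨ht0, htb⟩),
        ← ENNReal.ofReal_mul (by positivity), ← ENNReal.ofReal_mul (by positivity)]
      refine ENNReal.ofReal_le_ofReal (le_of_eq ?_)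
      have e : t ^ (p - 1) = t ^ (p - 3) * t ^ 2 := by
        rw [← Real.rpow_natCast t 2, ← Real.rpow_add ht0]
        congr 1
        push_cast
        ring
      rw [e]
      field_simp
    · rw [indicator_of_notMem hk]
      simp
  have hmeas : ∀ k, Measurable ((Ioc 0 (b k)).indicator
      (fun t => ENNReal.ofReal (4 * ‖a k‖ ^ 2 * t ^ (p - 3)))) := fun k =>
    Measurable.indicator (by fun_prop) measurableSet_Ioc
  refine (mul_le_mul_right (setLIntegral_mono' measurableSet_Ioi key) _).trans ?_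
  rw [lintegral_tsum fun k => (hmeas k).aemeasurable, ← ENNReal.tsum_mul_left]
  refine ENNReal.tsum_le_tsum fun k => ?_
  have e1 : ∫⁻ t in Ioi 0, (Ioc 0 (b k)).indicator
      (fun t => ENNReal.ofReal (4 * ‖a k‖ ^ 2 * t ^ (p - 3))) t
      = ∫⁻ t in Ioc 0 (b k), ENNReal.ofReal (4 * ‖a k‖ ^ 2 * t ^ (p - 3)) := by
    rw [lintegral_indicator measurableSet_Ioc, Measure.restrict_restrict measurableSet_Ioc,
      inter_eq_left.2 Ioc_subset_Ioi_self]
  have hint : IntervalIntegrable (fun t : ℝ => 4 * ‖a k‖ ^ 2 * t ^ (p - 3)) volume 0 (b k) :=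
    (intervalIntegral.intervalIntegrable_rpow' (by linarith)).const_mul _
  rw [e1, ← ofReal_integral_eq_lintegral_ofReal
    ((intervalIntegrable_iff_integrableOn_Ioc_of_le (hb0 k)).1 hint) (by
      filter_upwards [ae_restrict_mem measurableSet_Ioc] with t ht
      have := ht.1
      positivity), ← intervalIntegral.integral_of_le (hb0 k), intervalIntegral.integral_const_mul,
    integral_rpow (Or.inl (by linarith)), ← ENNReal.ofReal_mul hp0.le]
  refine ENNReal.ofReal_le_ofReal (le_of_eq ?_)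
  have e2 : p - 3 + 1 = p - 2 := by ring
  rw [e2, Real.zero_rpow (by linarith), sub_zero]
  simp only [hb]
  ring

/-! ### sums over low frequencies -/

theorem box_zero : box 0 = {0} := by
  ext k
  rw [mem_box, Nat.le_zero, N_eq_zero, Finset.mem_singleton]

theorem sum_box (j : ℕ) (hj : j ≤ 2) (n : ℕ) :
    ∑ k ∈ box n, (if k = 0 then (0 : ℝ) else 1 / (N k : ℝ) ^ j) ≤ 26 * (n : ℝ) ^ (3 - j) := by
  induction n with
  | zero =>
    rw [box_zero, Finset.sum_singleton, if_pos rfl]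
    positivity
  | succ n ih =>
    have hsub : box n ⊆ box (n + 1) := fun k hk => by
      rw [mem_box] at hk ⊢
      omega
    rw [← Finset.sum_sdiff hsub]
    have h1 : ∑ k ∈ box (n + 1) \ box n, (if k = 0 then (0 : ℝ) else 1 / (N k : ℝ) ^ j)
        ≤ ∑ _k ∈ box (n + 1) \ box n, 1 / ((n + 1 : ℕ) : ℝ) ^ j := by
      refine Finset.sum_le_sum fun k hk => ?_
      rw [Finset.mem_sdiff, mem_box, mem_box] at hk
      have hN : N k = n + 1 := by omega
      have hk0 : k ≠ 0 := by
        rintro rfl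
        rw [show N (0 : K3) = 0 from N_eq_zero.2 rfl] at hN
        omega
      rw [if_neg hk0, hN]
    rw [Finset.sum_const, nsmul_eq_mul, Finset.card_sdiff_of_subset hsub, card_box, card_box] at h1
    have h2 : (((2 * (n + 1) + 1) ^ 3 - (2 * n + 1) ^ 3 : ℕ) : ℝ) ≤ 26 * ((n + 1 : ℕ) : ℝ) ^ 2 := by
      rw [Nat.cast_sub (Nat.pow_le_pow_left (by omega) 3)]
      push_cast
      have : (0 : ℝ) ≤ n := by positivity
      nlinarith
    have hn : (0 : ℝ) < ((n + 1 : ℕ) : ℝ) := by positivity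
    have h3 : (((2 * (n + 1) + 1) ^ 3 - (2 * n + 1) ^ 3 : ℕ) : ℝ) * (1 / ((n + 1 : ℕ) : ℝ) ^ j)
        ≤ 26 * ((n + 1 : ℕ) : ℝ) ^ 2 * (1 / ((n + 1 : ℕ) : ℝ) ^ j) := by gcongr
    refine (add_le_add (h1.trans h3) ih).trans ?_
    have hn0 : (0 : ℝ) ≤ n := by positivity
    have hn1 : ((n : ℝ) + 1) ≠ 0 := by positivity
    interval_cases j
    · push_cast
      norm_num
      nlinarith
    · push_cast
      have e : 26 * ((n : ℝ) + 1) ^ 2 * (1 / ((n : ℝ) + 1) ^ 1) = 26 * (n + 1) := by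
        field_simp
      rw [e]
      norm_num
      nlinarith
    · push_cast
      have e : 26 * ((n : ℝ) + 1) ^ 2 * (1 / ((n : ℝ) + 1) ^ 2) = 26 := by
        field_simp
      rw [e]
      norm_num
      linarith

/-- The weighted norm `(∑ |k|^j |a k|²)^{1/2}`. -/
noncomputable def hn (j : ℕ) (a : K3 → ℂ) : ℝ := √(∑' k, rr k ^ j * ‖a k‖ ^ 2)

theorem hn_nonneg (j : ℕ) (a : K3 → ℂ) : 0 ≤ hn j a := Real.sqrt_nonneg _

theorem hn_sq (j : ℕ) (a : K3 → ℂ) : hn j a ^ 2 = ∑' k, rr k ^ j * ‖a k‖ ^ 2 :=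
  Real.sq_sqrt (tsum_nonneg fun k => mul_nonneg (pow_nonneg (rr_nonneg k) _) (sq_nonneg _))

theorem summable_hn (j : ℕ) {a : K3 → ℂ} (ha : Rap a) :
    Summable fun k => rr k ^ j * ‖a k‖ ^ 2 := by
  have hM : ∀ k, ‖a k‖ ≤ ∑' m, ‖a m‖ := fun k =>
    ha.summable.norm.le_tsum k fun _ _ => norm_nonneg _
  refine Summable.of_nonneg_of_le
    (fun k => mul_nonneg (pow_nonneg (rr_nonneg k) _) (sq_nonneg _)) (fun k => ?_)
    (((ha j).mul_left (2 ^ j)).mul_left (∑' m, ‖a m‖))
  have h1 : rr k ^ j ≤ 2 ^ j * (N k : ℝ) ^ j := by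
    rw [← mul_pow]
    exact pow_le_pow_left₀ (rr_nonneg k) (rr_le k) j
  have h2 := hM k
  have h0 := norm_nonneg (a k)
  have h3 : 0 ≤ ∑' m, ‖a m‖ := tsum_nonneg fun _ => norm_nonneg _
  calc rr k ^ j * ‖a k‖ ^ 2 ≤ (2 ^ j * (N k : ℝ) ^ j) * ((∑' m, ‖a m‖) * ‖a k‖) := by
        rw [sq]
        gcongr
    _ = _ := by ring

theorem low_sum (j : ℕ) (hj : j ≤ 2) {a : K3 → ℂ} (ha : Rap a) (h0 : a 0 = 0) {A : ℝ}
    (hA : 0 < A) :
    ∑' k, {k : K3 | rr k < A}.indicator (fun k => ‖a k‖) k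
      ≤ √(26 * A ^ (3 - j)) * hn j a := by
  rcases lt_or_ge A 1 with h1 | h1
  · have e : ∀ k, {k : K3 | rr k < A}.indicator (fun k => ‖a k‖) k = 0 := by
      intro k
      by_cases hk : k = 0
      · subst hk
        by_cases h2 : (0 : K3) ∈ {k : K3 | rr k < A}
        · rw [indicator_of_mem h2, h0, norm_zero]
        · rw [indicator_of_notMem h2]
      · rw [indicator_of_notMem]
        have := one_le_rr hk
        simp only [mem_ofPred_eq, not_lt]
        linarith
    simp_rw [e]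
    rw [tsum_zero]
    exact mul_nonneg (Real.sqrt_nonneg _) (hn_nonneg _ _)
  · set n := ⌊A⌋₊ with hn'
    have hnA : (n : ℝ) ≤ A := Nat.floor_le hA.le
    set f : K3 → ℝ := fun k => if k = 0 then (0 : ℝ) else 1 / (N k : ℝ) ^ j with hf
    have hf0 : ∀ k, 0 ≤ f k := by
      intro k
      simp only [hf]
      split_ifs <;> positivity
    have hsum : ∑' k, {k : K3 | rr k < A}.indicator (fun k => ‖a k‖) k
        = ∑ k ∈ box n, {k : K3 | rr k < A}.indicator (fun k => ‖a k‖) k := by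
      refine tsum_eq_sum fun k hk => ?_
      rw [mem_box, not_le] at hk
      refine indicator_of_notMem ?_ _
      intro hk2
      have hk3 : rr k < A := hk2
      have h4 := N_le_rr k
      have h5 : A < n + 1 := Nat.lt_floor_add_one A
      have h6 : ((n : ℝ) + 1) ≤ N k := by exact_mod_cast hk
      linarith
    rw [hsum]
    have hle : ∀ k ∈ box n, {k : K3 | rr k < A}.indicator (fun k => ‖a k‖) k
        ≤ √(f k) * √(rr k ^ j * ‖a k‖ ^ 2) := by
      intro k _
      by_cases hk : k = 0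
      · subst hk
        have : {k : K3 | rr k < A}.indicator (fun k => ‖a k‖) (0 : K3) = 0 := by
          by_cases h2 : (0 : K3) ∈ {k : K3 | rr k < A}
          · rw [indicator_of_mem h2, h0, norm_zero]
          · rw [indicator_of_notMem h2]
        rw [this]
        positivity
      · refine (indicator_le_self' (fun _ _ => norm_nonneg _) k).trans ?_
        rw [← Real.sqrt_mul (hf0 k)]
        refine Real.le_sqrt_of_sq_le ?_
        simp only [hf, if_neg hk]
        have hN : (0 : ℝ) < N k := by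
          have : N k ≠ 0 := fun h => hk (N_eq_zero.1 h)
          positivity
        have h2 : (N k : ℝ) ^ j ≤ rr k ^ j := pow_le_pow_left₀ hN.le (N_le_rr k) j
        rw [← mul_assoc, one_div, inv_mul_eq_div]
        refine le_mul_of_one_le_left (sq_nonneg _) ?_
        rw [one_le_div (by positivity)]
        exact h2
    refine (Finset.sum_le_sum hle).trans ?_
    refine (Real.sum_sqrt_mul_sqrt_le _ hf0 fun k => ?_).trans ?_
    · exact mul_nonneg (pow_nonneg (rr_nonneg k) _) (sq_nonneg _)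
    refine mul_le_mul (Real.sqrt_le_sqrt ?_) (Real.sqrt_le_sqrt ?_) (Real.sqrt_nonneg _)
      (Real.sqrt_nonneg _)
    · refine (sum_box j hj n).trans ?_
      gcongr
    · exact (summable_hn j ha).sum_le_tsum _ fun k _ =>
        mul_nonneg (pow_nonneg (rr_nonneg k) _) (sq_nonneg _)

theorem zero_of_hn {j : ℕ} {a : K3 → ℂ} (ha : Rap a) (h0 : a 0 = 0) (h : hn j a = 0) : a = 0 := by
  funext k
  by_cases hk : k = 0
  · rw [hk, h0]; rfl
  · have h1 : ∑' k, rr k ^ j * ‖a k‖ ^ 2 = 0 := by rw [← hn_sq, h, zero_pow two_ne_zero]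
    have h2 := (summable_hn j ha).le_tsum k fun k _ =>
      mul_nonneg (pow_nonneg (rr_nonneg k) _) (sq_nonneg _)
    rw [h1] at h2
    have h3 : 0 < rr k ^ j := pow_pos (rr_pos hk) j
    have h4 : ‖a k‖ ^ 2 ≤ 0 := by
      by_contra hc
      push Not at hc
      nlinarith [mul_pos h3 hc]
    have h5 : ‖a k‖ = 0 := by nlinarith [norm_nonneg (a k)]
    simpa using h5

theorem S_zero (x : V) : S 0 x = 0 := by simp [S]

/-- `H^{1/2}` is contained in `L³`. -/
theorem emb3 {a : K3 → ℂ} (ha : Rap a) (h0 : a 0 = 0) :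
    ∫ x in cube, ‖S a x‖ ^ 3 ≤ 24 * √26 * hn 1 a ^ 3 := by
  rcases (hn_nonneg 1 a).eq_or_lt with h | h
  · have := zero_of_hn ha h0 h.symm
    subst this
    simp only [S_zero, norm_zero]
    rw [← h]
    simp
  · set L := √26 * hn 1 a with hL
    have hL0 : 0 < L := by positivity
    have h1 := emb (p := 3) (by norm_num) ha hL0 (fun A hA => by
      refine (low_sum 1 (by norm_num) ha h0 hA).trans (le_of_eq ?_)
      have e : (3 : ℝ) / 3 = 1 := by norm_num
      rw [e, Real.rpow_one, show 3 - 1 = 2 from rfl, Real.sqrt_mul (by norm_num),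
        Real.sqrt_sq hA.le, hL]
      ring)
    have e1 : ∀ k, 4 * 3 / (3 - 2) * (‖a k‖ ^ 2 * (2 * L * rr k ^ ((3 : ℝ) / 3)) ^ ((3 : ℝ) - 2))
        = 24 * L * (rr k ^ 1 * ‖a k‖ ^ 2) := by
      intro k
      have e2 : (3 : ℝ) - 2 = 1 := by norm_num
      have e3 : (3 : ℝ) / 3 = 1 := by norm_num
      rw [e2, e3, Real.rpow_one, Real.rpow_one]
      ring
    simp_rw [e1] at h1
    rw [← ENNReal.ofReal_tsum_of_nonneg (fun k => mul_nonneg (by positivity)
      (mul_nonneg (pow_nonneg (rr_nonneg k) _) (sq_nonneg _))) ((summable_hn 1 ha).mul_left _),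
      tsum_mul_left, ← hn_sq] at h1
    have e4 : ∀ x, ‖S a x‖ ^ (3 : ℝ) = ‖S a x‖ ^ 3 := fun x => by norm_cast
    simp_rw [e4] at h1
    rw [← ofReal_integral_eq_lintegral_ofReal (f := fun x => ‖S a x‖ ^ 3)
      (integrableOn_cube ((S_continuous ha.summable).norm.pow 3))
      (Eventually.of_forall fun x => by positivity),
      ENNReal.ofReal_le_ofReal_iff (by positivity)] at h1
    refine h1.trans (le_of_eq ?_)
    rw [hL]
    ring

/-- `H¹` is contained in `L⁶`. -/
theorem emb6 {a : K3 → ℂ} (ha : Rap a) (h0 : a 0 = 0) :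
    ∫ x in cube, ‖S a x‖ ^ 6 ≤ 64896 * hn 2 a ^ 6 := by
  rcases (hn_nonneg 2 a).eq_or_lt with h | h
  · have := zero_of_hn ha h0 h.symm
    subst this
    simp only [S_zero, norm_zero]
    rw [← h]
    simp
  · set L := √26 * hn 2 a with hL
    have hL0 : 0 < L := by positivity
    have h1 := emb (p := 6) (by norm_num) ha hL0 (fun A hA => by
      refine (low_sum 2 (by norm_num) ha h0 hA).trans (le_of_eq ?_)
      have e : (3 : ℝ) / 6 = 1 / 2 := by norm_num
      rw [e, ← Real.sqrt_eq_rpow, show 3 - 2 = 1 from rfl, pow_one,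
        Real.sqrt_mul (by norm_num), hL]
      ring)
    have e1 : ∀ k, 4 * 6 / (6 - 2) * (‖a k‖ ^ 2 * (2 * L * rr k ^ ((3 : ℝ) / 6)) ^ ((6 : ℝ) - 2))
        = 96 * L ^ 4 * (rr k ^ 2 * ‖a k‖ ^ 2) := by
      intro k
      have e2 : (6 : ℝ) - 2 = (4 : ℕ) := by norm_num
      have e3 : (3 : ℝ) / 6 = 1 / 2 := by norm_num
      have e5 : √(rr k) ^ 4 = rr k ^ 2 := by
        rw [show 4 = 2 * 2 from rfl, pow_mul, Real.sq_sqrt (rr_nonneg k)]
      rw [e2, e3, Real.rpow_natCast, ← Real.sqrt_eq_rpow, mul_pow, e5]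
      ring
    simp_rw [e1] at h1
    rw [← ENNReal.ofReal_tsum_of_nonneg (fun k => mul_nonneg (by positivity)
      (mul_nonneg (pow_nonneg (rr_nonneg k) _) (sq_nonneg _))) ((summable_hn 2 ha).mul_left _),
      tsum_mul_left, ← hn_sq] at h1
    have e4 : ∀ x, ‖S a x‖ ^ (6 : ℝ) = ‖S a x‖ ^ 6 := fun x => by norm_cast
    simp_rw [e4] at h1
    rw [← ofReal_integral_eq_lintegral_ofReal (f := fun x => ‖S a x‖ ^ 6)
      (integrableOn_cube ((S_continuous ha.summable).norm.pow 6))
      (Eventually.of_forall fun x => by positivity),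
      ENNReal.ofReal_le_ofReal_iff (by positivity)] at h1
    refine h1.trans (le_of_eq ?_)
    have e5 : √26 ^ 4 = 676 := by
      rw [show 4 = 2 * 2 from rfl, pow_mul, Real.sq_sqrt (by norm_num)]
      norm_num
    rw [hL, mul_pow, e5]
    ring

end Pool.Agent.TH301.HX
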