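import Pool.Agent.TH301.HX.Reg

/-!
Boundedness of the velocity.
-/

set_option autoImplicit false

open MeasureTheory Set Filter Topology
open scoped ContDiff ENNReal
open H459R3.NS Pool.Agent.TH305.FB

namespace Pool.Agent.TH301.HX

theorem norm_D_sq (m : Fin 3) (a : K3 → ℂ) (k : K3) :
    ‖D m a k‖ ^ 2 = 4 * Real.pi ^ 2 * ((k m : ℝ) ^ 2 * ‖a k‖ ^ 2) := by
  rw [D, norm_mul, norm_mul, norm_mul, norm_mul, Complex.norm_I, mul_one, Complex.norm_real,
    Real.norm_eq_abs, abs_of_pos Real.pi_pos, Complex.norm_ofNat, Complex.norm_intCast, mul_pow,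
    mul_pow, sq_abs]
  ring

section

variable {ν T : ℝ} {u : ℝ → V → V} {p : ℝ → V → ℝ}

theorem enstrophy_eq (h : IsSol ν T u p) {t : ℝ} (ht : t ∈ Ico 0 T) :
    enstrophy (u t) = 4 * Real.pi ^ 2 * EJ 2 (uh u t) := by
  have hv : ∀ i, SP (fun y => u t y i) := fun i => h.sp ht i
  have h1 := sum_grad (v := fun i y => u t y i) hv
  have hR := rap_uh h ht
  have e0 : enstrophy (u t) = ∑ i, ∑ m, n2 (D m (uh u t i)) ^ 2 := h1.symm
  rw [e0]
  simp_rw [n2_sq]
  have hs : ∀ i m, Summable fun k => ‖D m (uh u t i) k‖ ^ 2 := fun i m =>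
    summable_sq ((hR i).D m).summable
  have e1 : ∀ i, ∑ m, ∑' k, ‖D m (uh u t i) k‖ ^ 2 = ∑' k, ∑ m, ‖D m (uh u t i) k‖ ^ 2 :=
    fun i => (Summable.tsum_finsetSum fun m _ => hs i m).symm
  simp_rw [e1]
  rw [← Summable.tsum_finsetSum fun i _ => summable_sum fun m _ => hs i m, EJ, ← tsum_mul_left]
  refine tsum_congr fun k => ?_
  simp_rw [norm_D_sq]
  rw [rr_sq, nk2, TH305.FB.e2, Finset.mul_sum, Finset.mul_sum]
  refine Finset.sum_congr rfl fun i _ => ?_
  rw [Finset.sum_mul, Finset.mul_sum]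

theorem enstrophy_sq_le (h : IsSol ν T u p) {t : ℝ} (ht : t ∈ Ico 0 T) :
    enstrophy (u t) ^ 2 ≤ 16 * Real.pi ^ 4 * (EJ 1 (uh u t) * EJ 3 (uh u t)) := by
  have h1 := EJ_two (rv_uh h ht)
  have h2 : EJ 2 (uh u t) ^ 2 ≤ (√(EJ 1 (uh u t)) * √(EJ 3 (uh u t))) ^ 2 :=
    pow_le_pow_left₀ (EJ_nonneg _ _) h1 2
  rw [mul_pow, Real.sq_sqrt (EJ_nonneg _ _), Real.sq_sqrt (EJ_nonneg _ _)] at h2
  rw [enstrophy_eq h ht]
  calc (4 * Real.pi ^ 2 * EJ 2 (uh u t)) ^ 2 = 16 * Real.pi ^ 4 * EJ 2 (uh u t) ^ 2 := by ring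
    _ ≤ _ := mul_le_mul_of_nonneg_left h2 (by positivity)

theorem int_sq (h : IsSol ν T u p) {T0 : ℝ} (hT0 : 0 ≤ T0) (hT : T0 < T) {Y Z : ℝ}
    (hY : ∀ t ∈ Ico T0 T, EJ 1 (uh u t) ≤ Y)
    (hZ : ∀ t ∈ Ico T0 T, ∫ s in T0..t, EJ 3 (uh u s) ≤ Z) :
    IntegrableOn (fun t => enstrophy (u t) ^ 2) (Ioo 0 T) := by
  have hY0 : 0 ≤ Y := (EJ_nonneg _ _).trans (hY T0 ⟨le_rfl, hT⟩)
  have hc : ContinuousOn (fun s => enstrophy (u s) ^ 2) (Ico 0 T) :=
    h.enstrophy_continuousOn.pow 2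
  have hG : ContinuousOn (fun s => EJ 3 (uh u s)) (Ico 0 T) :=
    EJ_continuousOn h (j := 3) (by norm_num) (by norm_num)
  have h1 : IntegrableOn (fun s => enstrophy (u s) ^ 2) (Icc 0 T0) :=
    (hc.mono fun s hs => ⟨hs.1, hs.2.trans_lt hT⟩).integrableOn_Icc
  have h2 : IntegrableOn (fun s => enstrophy (u s) ^ 2) (Ioc T0 T) := by
    set b : ℕ → ℝ := fun n => T - (T - T0) / (n + 2) with hb
    have hd : 0 < T - T0 := by linarith
    have hbT : ∀ n, b n < T := fun n => by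
      have : 0 < (T - T0) / ((n : ℝ) + 2) := by positivity
      simp only [hb]
      linarith
    have hbT0 : ∀ n, T0 ≤ b n := fun n => by
      have : (T - T0) / ((n : ℝ) + 2) ≤ T - T0 := by
        rw [div_le_iff₀ (by positivity)]
        have : (0 : ℝ) ≤ n := Nat.cast_nonneg n
        nlinarith
      simp only [hb]
      linarith
    have hlim : Tendsto b atTop (𝓝 T) := by
      have h3 : Tendsto (fun n : ℕ => (T - T0) / ((n : ℝ) + 2)) atTop (𝓝 0) :=
        tendsto_const_nhds.div_atTop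
          (tendsto_atTop_add_const_right _ _ tendsto_natCast_atTop_atTop)
      have h4 := (tendsto_const_nhds (x := T) (f := (atTop : Filter ℕ))).sub h3
      rw [sub_zero] at h4
      exact h4
    refine integrableOn_Ioc_of_intervalIntegral_norm_bounded_right
      (I := 16 * Real.pi ^ 4 * (Y * Z)) (b := b) (l := atTop) (fun n => ?_) hlim
      (Eventually.of_forall fun n => ?_)
    · exact ((hc.mono fun s hs => ⟨hT0.trans hs.1, hs.2.trans_lt (hbT n)⟩).integrableOn_Icc).mono_set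
        Ioc_subset_Icc_self
    · have hm : b n ∈ Ico T0 T := ⟨hbT0 n, hbT n⟩
      have hGi : IntegrableOn (fun s => EJ 3 (uh u s)) (Ioc T0 (b n)) :=
        ((hG.mono fun s hs => ⟨hT0.trans hs.1, hs.2.trans_lt (hbT n)⟩).integrableOn_Icc).mono_set
          Ioc_subset_Icc_self
      have h5 : ∫ s in Ioc T0 (b n), ‖enstrophy (u s) ^ 2‖
          ≤ ∫ s in Ioc T0 (b n), 16 * Real.pi ^ 4 * Y * EJ 3 (uh u s) := by
        refine setIntegral_mono_on ?_ (hGi.const_mul _) measurableSet_Ioc fun s hs => ?_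
        · exact (((hc.mono fun s hs =>
            ⟨hT0.trans hs.1, hs.2.trans_lt (hbT n)⟩).integrableOn_Icc).mono_set
            Ioc_subset_Icc_self).norm
        · have hs' : s ∈ Ico T0 T := ⟨hs.1.le, hs.2.trans_lt (hbT n)⟩
          rw [Real.norm_eq_abs, abs_of_nonneg (sq_nonneg _)]
          refine (enstrophy_sq_le h ⟨hT0.trans hs'.1, hs'.2⟩).trans ?_
          rw [mul_assoc (16 * Real.pi ^ 4)]
          gcongr
          · exact EJ_nonneg _ _
          · exact hY s hs'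
      refine h5.trans ?_
      rw [integral_const_mul, mul_assoc (16 * Real.pi ^ 4)]
      gcongr
      rw [← intervalIntegral.integral_of_le (hbT0 n)]
      exact hZ _ hm
  refine (h1.union h2).mono_set fun s hs => ?_
  rcases le_or_gt s T0 with h3 | h3
  · exact Or.inl ⟨hs.1.le, h3⟩
  · exact Or.inr ⟨h3, hs.2.le⟩

theorem pd_zero' (j : Fin 3) (x : V) : pd j (fun _ : V => (0 : ℝ)) x = 0 := by simp [pd]

theorem palin_zero : palin (fun _ => (0 : V)) = 0 := by
  have : ∀ x, lap (fun _ : V => (0 : ℝ)) x = 0 := by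
    intro x
    unfold lap
    refine Finset.sum_eq_zero fun j _ => ?_
    have : pd j (fun _ : V => (0 : ℝ)) = fun _ => 0 := funext (pd_zero' j)
    rw [this, pd_zero']
  simp [palin, this]

theorem stretch_zero : stretch (fun _ => (0 : V)) = 0 := by
  simp [stretch, pd_zero']

theorem bounded (h : IsSol ν T u p) (hν : 0 < ν) {T0 : ℝ} (hT0 : 0 ≤ T0) (hT : T0 < T) {Y Z : ℝ}
    (hY : ∀ t ∈ Ico T0 T, EJ 1 (uh u t) ≤ Y)
    (hZ : ∀ t ∈ Ico T0 T, ∫ s in T0..t, EJ 3 (uh u s) ≤ Z) :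
    ∃ M, ∀ t ∈ Ico 0 T, ∀ x i, |u t x i| ≤ M := by
  have hsq := int_sq h hT0 hT hY hZ
  obtain ⟨C, hC0, hC⟩ := sobolev
  set β : ℝ → ℝ := fun t => C * √(enstrophy (u t) + energy (u 0)) with hβ
  have hE0 : 0 ≤ energy (u 0) := energy_nonneg _
  have hpq : 3 * ((6 : ℝ≥0∞)⁻¹).toReal + 2 / 4 = 1 := by
    rw [ENNReal.toReal_inv, ENNReal.toReal_ofNat]
    norm_num
  have hp3 : (3 : ℝ≥0∞) < 6 := by norm_num
  obtain ⟨D, -, hD⟩ := serrin hp3 hpq (ν := ν) (K := 0) (lam := 0) (κ := 0) hν le_rfl le_rfl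
    (by norm_num)
  refine (hD T 0 u p β (fun _ => 0) h le_rfl (fun t ht => ⟨by positivity, le_rfl⟩) ?_
    integrableOn_zero fun t ht => ?_).2
  · have hcy : ContinuousOn (fun s => enstrophy (u s)) (Ioo 0 T) :=
      h.enstrophy_continuousOn.mono fun s hs => ⟨hs.1.le, hs.2⟩
    have e : ∀ t, β t ^ (4 : ℝ) = C ^ 4 * (enstrophy (u t) + energy (u 0)) ^ 2 := by
      intro t
      have h0 : 0 ≤ enstrophy (u t) + energy (u 0) := add_nonneg (enstrophy_nonneg _) hE0
      have h1 : β t ^ (4 : ℝ) = β t ^ 4 := by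
        rw [← Real.rpow_natCast]
        norm_num
      rw [h1, hβ]
      simp only
      rw [mul_pow, show √(enstrophy (u t) + energy (u 0)) ^ 4
        = (√(enstrophy (u t) + energy (u 0)) ^ 2) ^ 2 by ring, Real.sq_sqrt h0]
    simp_rw [e]
    refine Integrable.const_mul ?_ _
    have hi : Integrable (fun t => 2 * (enstrophy (u t) ^ 2 + energy (u 0) ^ 2))
        (volume.restrict (Ioo 0 T)) := by
      refine Integrable.const_mul (Integrable.add hsq ?_) _
      exact integrable_const _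
    refine hi.mono' ((hcy.add continuousOn_const).pow 2 |>.aestronglyMeasurable
      measurableSet_Ioo) (Eventually.of_forall fun t => ?_)
    rw [Real.norm_eq_abs, abs_of_nonneg (sq_nonneg _)]
    nlinarith [sq_nonneg (enstrophy (u t) - energy (u 0))]
  · have hI : t ∈ Ico 0 T := ⟨ht.1.le, ht.2⟩
    refine ⟨fun _ => 0, fun _ => 0, ∅, SPV.zero, SPV.zero, dimTwo_empty,
      fun i k _ => fr_zero k, ?_, ?_, ?_, ?_, fun i => ?_⟩
    · rw [enstrophy_zero]; simp
    · rw [palin_zero]; simp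
    · rw [enstrophy_zero]; simp
    · rw [stretch_zero]; simp
    · have e : (fun x => u t x i - (0 : V) i - (0 : V) i) = fun x => u t x i := by
        funext x
        simp
      show eLpNorm (fun x => u t x i - (0 : V) i - (0 : V) i) 6 _ ≤ _
      rw [e]
      refine (hC _ (h.sp hI i)).trans (ENNReal.ofReal_le_ofReal ?_)
      refine mul_le_mul_of_nonneg_left (Real.sqrt_le_sqrt (add_le_add ?_ ?_)) hC0
      · exact Finset.single_le_sum
          (f := fun i => ∑ j, ∫ x in cube, pd j (fun y => u t y i) x ^ 2)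
          (fun _ _ => Finset.sum_nonneg fun _ _ => integral_nonneg fun _ => sq_nonneg _)
          (Finset.mem_univ i)
      · refine le_trans ?_ (h.energy_le hν hI)
        exact Finset.single_le_sum (f := fun i => ∫ x in cube, u t x i ^ 2)
          (fun _ _ => integral_nonneg fun _ => sq_nonneg _) (Finset.mem_univ i)

end

end Pool.Agent.TH301.HX
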