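import Pool.Agent.TH301.HX.Bd

/-!
The helical parts of a divergence-free vector field.
-/

set_option autoImplicit false

open MeasureTheory Set Filter Topology
open H459R3.NS Pool.Agent.TH305.FB
open scoped ENNReal

namespace Pool.Agent.TH301.HX

/-- The helical part of sign `s` (for `s = 1` or `s = -1`). -/
noncomputable def hp (s : ℝ) (U : Fin 3 → K3 → ℂ) (i : Fin 3) (k : K3) : ℂ :=
  if k = 0 then 0 else (U i k + (s : ℂ) * curl U i k / (2 * Real.pi * rr k)) / 2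

theorem hp_zero (s : ℝ) (U : Fin 3 → K3 → ℂ) (i : Fin 3) : hp s U i 0 = 0 := by simp [hp]

theorem curl_0 (U : Fin 3 → K3 → ℂ) (k : K3) :
    curl U 0 k = 2 * Real.pi * Complex.I * ((k 1 : ℂ) * U 2 k - (k 2 : ℂ) * U 1 k) := by
  simp only [curl, Matrix.cons_val_zero, Pi.sub_apply, D]
  ring

theorem curl_1 (U : Fin 3 → K3 → ℂ) (k : K3) :
    curl U 1 k = 2 * Real.pi * Complex.I * ((k 2 : ℂ) * U 0 k - (k 0 : ℂ) * U 2 k) := by
  simp only [curl, Matrix.cons_val_one, Matrix.cons_val, Pi.sub_apply, D]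
  ring

theorem curl_2 (U : Fin 3 → K3 → ℂ) (k : K3) :
    curl U 2 k = 2 * Real.pi * Complex.I * ((k 0 : ℂ) * U 1 k - (k 1 : ℂ) * U 0 k) := by
  simp only [curl, Matrix.cons_val, Pi.sub_apply, D]
  ring

theorem Dv.eq {U : Fin 3 → K3 → ℂ} (h : Dv U) (k : K3) :
    (k 0 : ℂ) * U 0 k + (k 1 : ℂ) * U 1 k + (k 2 : ℂ) * U 2 k = 0 := by
  have := h k
  rwa [Fin.sum_univ_three] at this

theorem rr_sq3 (k : K3) : (rr k : ℂ) ^ 2 = (k 0 : ℂ) ^ 2 + (k 1 : ℂ) ^ 2 + (k 2 : ℂ) ^ 2 := by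
  have h := rr_sq k
  rw [nk2, Fin.sum_univ_three] at h
  exact_mod_cast congrArg (fun x : ℝ => (x : ℂ)) h

theorem curl_curl {U : Fin 3 → K3 → ℂ} (h : Dv U) (i : Fin 3) (k : K3) :
    curl (curl U) i k = (2 * Real.pi) ^ 2 * (rr k : ℂ) ^ 2 * U i k := by
  have h1 := h.eq k
  have hI : Complex.I ^ 2 = -1 := Complex.I_sq
  rw [rr_sq3]
  fin_cases i
  · show curl (curl U) 0 k = _ * U 0 k
    rw [curl_0, curl_1, curl_2]
    linear_combination (2 * Real.pi) ^ 2 * Complex.I ^ 2 * (k 0 : ℂ) * h1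
      - (2 * Real.pi) ^ 2 * ((k 0 : ℂ) ^ 2 + (k 1 : ℂ) ^ 2 + (k 2 : ℂ) ^ 2) * U 0 k * hI
  · show curl (curl U) 1 k = _ * U 1 k
    rw [curl_1, curl_0, curl_2]
    linear_combination (2 * Real.pi) ^ 2 * Complex.I ^ 2 * (k 1 : ℂ) * h1
      - (2 * Real.pi) ^ 2 * ((k 0 : ℂ) ^ 2 + (k 1 : ℂ) ^ 2 + (k 2 : ℂ) ^ 2) * U 1 k * hI
  · show curl (curl U) 2 k = _ * U 2 k
    rw [curl_2, curl_0, curl_1]
    linear_combination (2 * Real.pi) ^ 2 * Complex.I ^ 2 * (k 2 : ℂ) * h1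
      - (2 * Real.pi) ^ 2 * ((k 0 : ℂ) ^ 2 + (k 1 : ℂ) ^ 2 + (k 2 : ℂ) ^ 2) * U 2 k * hI

theorem curl_hp {s : ℝ} {U : Fin 3 → K3 → ℂ} (i : Fin 3) {k : K3} (hk : k ≠ 0) :
    curl (hp s U) i k = (curl U i k + (s : ℂ) * curl (curl U) i k / (2 * Real.pi * rr k)) / 2 := by
  have h : ∀ j, hp s U j k = (U j k + (s : ℂ) * curl U j k / (2 * Real.pi * rr k)) / 2 := fun j => by
    rw [hp, if_neg hk]
  fin_cases i
  · show curl (hp s U) 0 k = (curl U 0 k + (s : ℂ) * curl (curl U) 0 k / _) / 2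
    rw [curl_0, curl_0, curl_0 (curl U), h, h]
    ring
  · show curl (hp s U) 1 k = (curl U 1 k + (s : ℂ) * curl (curl U) 1 k / _) / 2
    rw [curl_1, curl_1, curl_1 (curl U), h, h]
    ring
  · show curl (hp s U) 2 k = (curl U 2 k + (s : ℂ) * curl (curl U) 2 k / _) / 2
    rw [curl_2, curl_2, curl_2 (curl U), h, h]
    ring

theorem hel_hp {s : ℝ} (hs : s ^ 2 = 1) {U : Fin 3 → K3 → ℂ} (h : Dv U) : Hel s (hp s U) := by
  intro i k
  by_cases hk : k = 0
  · subst hk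
    have e : ∀ i, curl (hp s U) i 0 = 0 := by
      intro i
      fin_cases i
      · show curl (hp s U) 0 0 = 0
        rw [curl_0, hp_zero, hp_zero]; ring
      · show curl (hp s U) 1 0 = 0
        rw [curl_1, hp_zero, hp_zero]; ring
      · show curl (hp s U) 2 0 = 0
        rw [curl_2, hp_zero, hp_zero]; ring
    rw [e, Lm, hp_zero]
    ring
  · have hr : (rr k : ℂ) ≠ 0 := by
      exact_mod_cast (rr_pos hk).ne'
    have hpi : (Real.pi : ℂ) ≠ 0 := by exact_mod_cast Real.pi_ne_zero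
    have hs' : (s : ℂ) ^ 2 = 1 := by exact_mod_cast congrArg (fun x : ℝ => (x : ℂ)) hs
    rw [curl_hp i hk, curl_curl h, Lm, hp, if_neg hk]
    field_simp
    linear_combination (-(curl U i k)) * hs'

theorem hp_add {U : Fin 3 → K3 → ℂ} (i : Fin 3) {k : K3} (hk : k ≠ 0) (s : ℝ) :
    hp s U i k + hp (-s) U i k = U i k := by
  rw [hp, hp, if_neg hk, if_neg hk]
  push_cast
  ring

theorem div_curl (U : Fin 3 → K3 → ℂ) : Dv (curl U) := by
  intro k
  rw [Fin.sum_univ_three, curl_0, curl_1, curl_2]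
  ring

theorem dv_hp (s : ℝ) {U : Fin 3 → K3 → ℂ} (h : Dv U) : Dv (hp s U) := by
  intro k
  by_cases hk : k = 0
  · subst hk
    simp [hp_zero]
  · have h1 := h k
    have h2 := div_curl U k
    have e : ∀ i, (k i : ℂ) * hp s U i k = ((k i : ℂ) * U i k) / 2
        + ((k i : ℂ) * curl U i k) * ((s : ℂ) / (2 * Real.pi * rr k) / 2) := by
      intro i
      rw [hp, if_neg hk]
      ring
    simp_rw [e]
    rw [Finset.sum_add_distrib, ← Finset.sum_div, ← Finset.sum_mul, h1, h2]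
    ring

/-- Lagrange's identity. -/
theorem norm_curl {U : Fin 3 → K3 → ℂ} (h : Dv U) (k : K3) :
    ∑ i, ‖curl U i k‖ ^ 2 = (2 * Real.pi * rr k) ^ 2 * TH305.FB.e2 U k := by
  have h1 := h.eq k
  have hre := congrArg Complex.re h1
  have him := congrArg Complex.im h1
  unfold TH305.FB.e2
  rw [Fin.sum_univ_three, Fin.sum_univ_three, curl_0, curl_1, curl_2, mul_pow, rr_sq, nk2,
    Fin.sum_univ_three]
  simp only [← Complex.normSq_eq_norm_sq, Complex.normSq_apply, Complex.mul_re, Complex.mul_im,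
    Complex.sub_re, Complex.sub_im, Complex.I_re, Complex.I_im, Complex.ofReal_re,
    Complex.ofReal_im, Complex.intCast_re, Complex.intCast_im, Complex.add_re, Complex.add_im,
    Complex.zero_re, Complex.zero_im, Complex.re_ofNat, Complex.im_ofNat, zero_mul, mul_zero,
    sub_zero, add_zero, zero_add, mul_one, zero_sub, neg_mul, mul_neg, neg_neg] at hre him ⊢
  linear_combination (-(4 * Real.pi ^ 2)) * ((k 0 : ℝ) * (U 0 k).re + (k 1 : ℝ) * (U 1 k).re
    + (k 2 : ℝ) * (U 2 k).re) * hre - (4 * Real.pi ^ 2) * ((k 0 : ℝ) * (U 0 k).im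
    + (k 1 : ℝ) * (U 1 k).im + (k 2 : ℝ) * (U 2 k).im) * him

theorem sum_hp_le {s : ℝ} (hs : s ^ 2 = 1) {U : Fin 3 → K3 → ℂ} (h : Dv U) (k : K3) :
    TH305.FB.e2 (hp s U) k ≤ TH305.FB.e2 U k := by
  by_cases hk : k = 0
  · subst hk
    unfold TH305.FB.e2
    simp only [hp_zero, norm_zero]
    refine (le_of_eq (by simp)).trans (Finset.sum_nonneg fun i _ => sq_nonneg ‖U i 0‖)
  · have hr := rr_pos hk
    have hp0 := Real.pi_pos
    have e : ∀ i, ‖hp s U i k‖ ^ 2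
        ≤ (‖U i k‖ ^ 2 + ‖curl U i k‖ ^ 2 / (2 * Real.pi * rr k) ^ 2) / 2 := by
      intro i
      rw [hp, if_neg hk, norm_div, Complex.norm_ofNat, div_pow]
      have h1 := norm_add_le (U i k) ((s : ℂ) * curl U i k / (2 * Real.pi * rr k))
      have h2 : ‖(s : ℂ) * curl U i k / (2 * Real.pi * rr k)‖
          = ‖curl U i k‖ / (2 * Real.pi * rr k) := by
        rw [norm_div, norm_mul, Complex.norm_real, Real.norm_eq_abs]
        have : |s| = 1 := by
          rcases sq_eq_one_iff_of_side_conditions hs with h | h <;> simp [h]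
        rw [this, one_mul]
        congr 1
        rw [norm_mul, norm_mul, Complex.norm_ofNat, Complex.norm_real, Complex.norm_real,
          Real.norm_eq_abs, Real.norm_eq_abs, abs_of_pos hp0, abs_of_pos hr]
      rw [h2] at h1
      have h3 := norm_nonneg (U i k + (s : ℂ) * curl U i k / (2 * Real.pi * rr k))
      have h4 : ‖U i k + (s : ℂ) * curl U i k / (2 * Real.pi * rr k)‖ ^ 2
          ≤ (‖U i k‖ + ‖curl U i k‖ / (2 * Real.pi * rr k)) ^ 2 := pow_le_pow_left₀ h3 h1 2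
      have e5 : ‖curl U i k‖ ^ 2 / (2 * Real.pi * rr k) ^ 2
          = (‖curl U i k‖ / (2 * Real.pi * rr k)) ^ 2 := (div_pow _ _ _).symm
      rw [e5]
      nlinarith [sq_nonneg (‖U i k‖ - ‖curl U i k‖ / (2 * Real.pi * rr k))]
    unfold TH305.FB.e2
    refine (Finset.sum_le_sum fun i _ => e i).trans (le_of_eq ?_)
    rw [← Finset.sum_div, Finset.sum_add_distrib, ← Finset.sum_div, norm_curl h]
    unfold TH305.FB.e2
    field_simp
    ring
where
  sq_eq_one_iff_of_side_conditions {s : ℝ} (hs : s ^ 2 = 1) : s = 1 ∨ s = -1 := by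
    have : (s - 1) * (s + 1) = 0 := by nlinarith
    rcases mul_eq_zero.1 this with h | h
    · exact Or.inl (by linarith)
    · exact Or.inr (by linarith)

end Pool.Agent.TH301.HX
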