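import Mathlib

/-!
The function `∫ (1 - cos (2 π ξ · y)) / |y|⁴ dy` on Euclidean three-space is a multiple of `|ξ|`.
-/

set_option autoImplicit false

open MeasureTheory Set Filter Topology
open scoped RealInnerProductSpace

namespace Pool.Agent.TH301.HX

/-- Euclidean three-space. -/
abbrev E3 := EuclideanSpace ℝ (Fin 3)

/-- The integrand. -/
noncomputable def ker (ξ y : E3) : ℝ := (1 - Real.cos (2 * Real.pi * ⟪ξ, y⟫)) / ‖y‖ ^ 4

theorem ker_nonneg (ξ y : E3) : 0 ≤ ker ξ y := by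
  unfold ker
  have := Real.cos_le_one (2 * Real.pi * ⟪ξ, y⟫)
  have h : 0 ≤ 1 - Real.cos (2 * Real.pi * ⟪ξ, y⟫) := by linarith
  positivity

theorem one_sub_cos_le (x : ℝ) : 1 - Real.cos x ≤ x ^ 2 / 2 := by
  have := Real.one_sub_sq_div_two_le_cos (x := x)
  linarith

/-- The dominating function. -/
noncomputable def dom (a r : ℝ) : ℝ := min 2 (a * r ^ 2) / r ^ 4

theorem ker_le (ξ y : E3) : ker ξ y ≤ dom (2 * Real.pi ^ 2 * ‖ξ‖ ^ 2) ‖y‖ := by
  unfold ker dom
  have h1 : 1 - Real.cos (2 * Real.pi * ⟪ξ, y⟫) ≤ 2 := by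
    have := Real.neg_one_le_cos (2 * Real.pi * ⟪ξ, y⟫)
    linarith
  have h2 : 1 - Real.cos (2 * Real.pi * ⟪ξ, y⟫) ≤ 2 * Real.pi ^ 2 * ‖ξ‖ ^ 2 * ‖y‖ ^ 2 := by
    refine (one_sub_cos_le _).trans ?_
    have h3 : ⟪ξ, y⟫ ^ 2 ≤ (‖ξ‖ * ‖y‖) ^ 2 := by
      rw [← sq_abs ⟪ξ, y⟫]
      exact pow_le_pow_left₀ (abs_nonneg _) (abs_real_inner_le_norm ξ y) 2
    have hp := sq_nonneg Real.pi
    nlinarith
  have h3 := le_min h1 h2
  gcongr

theorem dom_integrable {a : ℝ} (ha : 0 ≤ a) : Integrable fun y : E3 => dom a ‖y‖ := by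
  rw [integrable_fun_norm_addHaar]
  have hd : Module.finrank ℝ E3 - 1 = 2 := by simp
  rw [hd]
  have hm : Measurable fun r : ℝ => r ^ 2 • dom a r := by
    unfold dom
    fun_prop
  have h1 : IntegrableOn (fun r : ℝ => r ^ 2 • dom a r) (Ioc 0 1) := by
    have hfin : IntegrableOn (fun _ : ℝ => a) (Ioc (0 : ℝ) 1) := by
      simp
    refine hfin.mono' hm.aestronglyMeasurable ?_
    filter_upwards [ae_restrict_mem measurableSet_Ioc] with r hr
    have hr0 : 0 < r := hr.1
    rw [smul_eq_mul, Real.norm_eq_abs, dom]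
    have h2 : 0 ≤ min 2 (a * r ^ 2) := le_min (by norm_num) (by positivity)
    rw [abs_of_nonneg (by positivity)]
    have h3 : min 2 (a * r ^ 2) ≤ a * r ^ 2 := min_le_right _ _
    have e : a = r ^ 2 * (a * r ^ 2 / r ^ 4) := by field_simp
    rw [e]
    gcongr
    rw [← e]
    exact h3
  have h2 : IntegrableOn (fun r : ℝ => r ^ 2 • dom a r) (Ioi 1) := by
    have hfin : IntegrableOn (fun r : ℝ => 2 * r ^ (-2 : ℝ)) (Ioi (1 : ℝ)) :=
      (integrableOn_Ioi_rpow_of_lt (by norm_num) one_pos).const_mul 2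
    refine hfin.mono' hm.aestronglyMeasurable ?_
    filter_upwards [ae_restrict_mem measurableSet_Ioi] with r hr
    have hr0 : (0 : ℝ) < r := one_pos.trans hr
    rw [smul_eq_mul, Real.norm_eq_abs, dom]
    have h2 : 0 ≤ min 2 (a * r ^ 2) := le_min (by norm_num) (by positivity)
    rw [abs_of_nonneg (by positivity)]
    have h3 : min 2 (a * r ^ 2) ≤ 2 := min_le_left _ _
    have e : r ^ (-2 : ℝ) = r ^ 2 * (1 / r ^ 4) := by
      rw [Real.rpow_neg hr0.le]
      norm_cast
      field_simp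
    rw [e]
    have : r ^ 2 * (min 2 (a * r ^ 2) / r ^ 4) ≤ r ^ 2 * (2 / r ^ 4) := by gcongr
    refine this.trans (le_of_eq ?_)
    ring
  have : Ioi (0 : ℝ) = Ioc 0 1 ∪ Ioi 1 := (Ioc_union_Ioi_eq_Ioi (by norm_num)).symm
  rw [this]
  exact h1.union h2

theorem ker_measurable (ξ : E3) : Measurable (ker ξ) := by
  unfold ker
  fun_prop

theorem ker_integrable (ξ : E3) : Integrable (ker ξ) := by
  refine (dom_integrable (a := 2 * Real.pi ^ 2 * ‖ξ‖ ^ 2) (by positivity)).mono'
    (ker_measurable ξ).aestronglyMeasurable (Eventually.of_forall fun y => ?_)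
  rw [Real.norm_eq_abs, abs_of_nonneg (ker_nonneg ξ y)]
  exact ker_le ξ y

/-- The unit vector. -/
noncomputable def e0 : E3 := EuclideanSpace.single 0 1

theorem norm_e0 : ‖e0‖ = 1 := by
  unfold e0
  simp

/-- The constant. -/
noncomputable def kap : ℝ := ∫ y : E3, ker e0 y

theorem ker_rot {v w : E3} (h : ‖v‖ = ‖w‖) : ∫ y : E3, ker v y = ∫ y : E3, ker w y := by
  set R : E3 ≃ₗᵢ[ℝ] E3 := Submodule.reflection (ℝ ∙ (v - w))ᗮ with hR
  have hRv : R v = w := Submodule.reflection_sub h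
  have h1 := (R.measurePreserving).integral_comp' (f := R.toMeasurableEquiv) (g := fun y => ker w y)
  rw [← h1]
  congr 1
  funext y
  show ker v y = ker w (R y)
  unfold ker
  rw [← hRv, R.inner_map_map, R.norm_map]

theorem ker_scale {c : ℝ} (hc : 0 < c) (v : E3) : ∫ y : E3, ker (c • v) y = c * ∫ y, ker v y := by
  have h1 := MeasureTheory.Measure.integral_comp_smul (volume : Measure E3) (ker v) c
  have hd : Module.finrank ℝ E3 = 3 := by simp
  rw [hd] at h1
  have e : ∀ y, ker (c • v) y = c ^ 4 * ker v (c • y) := by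
    intro y
    unfold ker
    rw [real_inner_smul_left, real_inner_smul_right, norm_smul, Real.norm_eq_abs,
      abs_of_pos hc, mul_pow]
    rw [mul_div_assoc', mul_comm (c ^ 4) (1 - _), mul_comm (c ^ 4) (‖y‖ ^ 4),
      mul_div_mul_right _ _ (by positivity)]
  simp_rw [e]
  rw [integral_const_mul, h1, abs_of_pos (by positivity), smul_eq_mul]
  field_simp

theorem ker_int (ξ : E3) : ∫ y : E3, ker ξ y = ‖ξ‖ * kap := by
  rcases eq_or_ne ξ 0 with rfl | hξ
  · have : ∀ y : E3, ker 0 y = 0 := by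
      intro y
      simp [ker]
    simp [this]
  · have hn : 0 < ‖ξ‖ := norm_pos_iff.2 hξ
    have h1 : ∫ y : E3, ker ξ y = ∫ y : E3, ker (‖ξ‖ • e0) y := by
      refine ker_rot ?_
      rw [norm_smul, norm_e0, mul_one, norm_norm]
    rw [h1, ker_scale hn]
    rfl

theorem kap_pos : 0 < kap := by
  have h0 : 0 ≤ kap := integral_nonneg fun y => ker_nonneg e0 y
  refine lt_of_le_of_ne h0 fun h => ?_
  have h1 : ker e0 =ᵐ[volume] 0 :=
    (integral_eq_zero_iff_of_nonneg (fun y => ker_nonneg e0 y) (ker_integrable e0)).1 h.symm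
  -- continuity away from the origin
  have h2 : ∀ᵐ y : E3, y ∉ Metric.ball ((1 / 2 : ℝ) • e0) (1 / 4) := by
    filter_upwards [h1] with y hy hy2
    have hy3 : ‖y - (1 / 2 : ℝ) • e0‖ < 1 / 4 := by
      simpa [dist_eq_norm] using hy2
    have hin : |⟪e0, y⟫ - 1 / 2| < 1 / 4 := by
      have e : ⟪e0, y⟫ - 1 / 2 = ⟪e0, y - (1 / 2 : ℝ) • e0⟫ := by
        rw [inner_sub_right, real_inner_smul_right, real_inner_self_eq_norm_sq, norm_e0]
        norm_num
      rw [e]
      refine (abs_real_inner_le_norm _ _).trans_lt ?_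
      rw [norm_e0, one_mul]
      exact hy3
    rw [abs_lt] at hin
    have hyn : y ≠ 0 := by
      rintro rfl
      rw [inner_zero_right] at hin
      linarith [hin.1]
    have hpos : 0 < ‖y‖ := norm_pos_iff.2 hyn
    have hz : ker e0 y = 0 := hy
    unfold ker at hz
    rw [div_eq_zero_iff] at hz
    rcases hz with hz | hz
    · have hc : Real.cos (2 * Real.pi * ⟪e0, y⟫) = 1 := by linarith
      have hcn : Real.cos (2 * Real.pi * ⟪e0, y⟫) < 0 := by
        refine Real.cos_neg_of_pi_div_two_lt_of_lt ?_ ?_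
        · have := Real.pi_pos
          nlinarith [hin.1]
        · have := Real.pi_pos
          nlinarith [hin.2]
      linarith
    · exact absurd hz (by positivity)
  have h3 : volume (Metric.ball ((1 / 2 : ℝ) • e0) (1 / 4)) = 0 := by
    have := measure_eq_zero_iff_ae_notMem (μ := (volume : Measure E3))
      (s := Metric.ball ((1 / 2 : ℝ) • e0) (1 / 4))
    exact this.2 h2
  have h4 := Metric.measure_ball_pos (volume : Measure E3) ((1 / 2 : ℝ) • e0)
    (r := 1 / 4) (by norm_num)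
  exact h4.ne' h3

end Pool.Agent.TH301.HX
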