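import Pool.Agent.TH301.HX.Trunc

/-!
The part of high frequency of a helical part.
-/

set_option autoImplicit false

open MeasureTheory Set Filter Topology
open scoped ENNReal
open H459R3.NS Pool.Agent.TH305.FB

namespace Pool.Agent.TH301.HX

/-- The part with frequencies `|k| ≥ R` of the helical part of sign `s` of `v`. -/
noncomputable def helHigh (s R : ℝ) (v : V → V) (x : V) (i : Fin 3) : ℝ :=
  (∑' k, if R ≤ euc k then helCoeff s v k i * ee k x else 0).re

/-- The coefficients of high frequency. -/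
noncomputable def hi (R : ℝ) (a : K3 → ℂ) (k : K3) : ℂ := if R ≤ rr k then a k else 0

theorem norm_hi_le (R : ℝ) (a : K3 → ℂ) (k : K3) : ‖hi R a k‖ ≤ ‖a k‖ := by
  unfold hi
  split_ifs
  · exact le_rfl
  · rw [norm_zero]
    exact norm_nonneg _

theorem rap_hi (R : ℝ) {a : K3 → ℂ} (ha : Rap a) : Rap (hi R a) := rap_of_le ha (norm_hi_le R a)

theorem hi_neg (R : ℝ) {a : K3 → ℂ} (h : ∀ k, a (-k) = (starRingEnd ℂ) (a k)) (k : K3) :
    hi R a (-k) = (starRingEnd ℂ) (hi R a k) := by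
  unfold hi
  rw [rr_neg, h]
  split_ifs
  · rfl
  · rw [map_zero]

theorem helHigh_eq (s R : ℝ) (v : V → V) (x : V) (i : Fin 3) :
    helHigh s R v x i = (S (hi R (hp s (cu v) i)) x).re := by
  unfold helHigh S hi
  congr 2
  funext k
  rw [euc_eq, helCoeff_eq]
  split_ifs
  · rfl
  · rw [zero_mul]

theorem norm_S_hi (s R : ℝ) (v : V → V) (x : V) (i : Fin 3) :
    ‖S (hi R (hp s (cu v) i)) x‖ = |helHigh s R v x i| := by
  have h := S_real (hi_neg R (conj_hp (cu_conj v) s i)) x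
  have h2 := Complex.conj_eq_iff_real.1 h
  obtain ⟨r, hr⟩ := h2
  rw [helHigh_eq, hr, Complex.norm_real, Complex.ofReal_re, Real.norm_eq_abs]

theorem low_bound {a : K3 → ℂ} (ha : Rap a) (h0 : a 0 = 0) {R : ℝ} (hR : 0 ≤ R) (x : V) :
    ‖S a x‖ ≤ ‖S (hi R a) x‖ + √(26 * R ^ 3) * hn 0 a := by
  have hs1 := summable_term ha.summable x
  have hs2 := summable_term (rap_hi R ha).summable x
  have e : S a x = S (hi R a) x + ∑' k, (a k * ee k x - hi R a k * ee k x) := by
    rw [hs1.tsum_sub hs2]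
    unfold S
    ring
  have hb : ∀ k, ‖a k * ee k x - hi R a k * ee k x‖
      = {k : K3 | rr k < R}.indicator (fun k => ‖a k‖) k := by
    intro k
    rw [← sub_mul, norm_mul, norm_ee, mul_one]
    unfold hi
    by_cases hk : R ≤ rr k
    · rw [if_pos hk, sub_self, norm_zero, indicator_of_notMem]
      exact not_lt.2 hk
    · rw [if_neg hk, sub_zero, indicator_of_mem]
      exact not_le.1 hk
  have hs3 : Summable fun k => ‖a k * ee k x - hi R a k * ee k x‖ := (hs1.sub hs2).norm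
  have h1 : ‖∑' k, (a k * ee k x - hi R a k * ee k x)‖ ≤ √(26 * R ^ 3) * hn 0 a := by
    refine (norm_tsum_le_tsum_norm hs3).trans ?_
    simp_rw [hb]
    rcases hR.eq_or_lt with h | h
    · have e2 : ∀ k, {k : K3 | rr k < R}.indicator (fun k => ‖a k‖) k = 0 := by
        intro k
        rw [indicator_of_notMem]
        rw [← h]
        exact not_lt.2 (rr_nonneg k)
      simp_rw [e2]
      rw [tsum_zero]
      exact mul_nonneg (Real.sqrt_nonneg _) (hn_nonneg _ _)
    · exact low_sum 0 (by norm_num) ha h0 h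
  rw [e]
  exact (norm_add_le _ _).trans (add_le_add le_rfl h1)

variable {ν T : ℝ} {u : ℝ → V → V} {P : ℝ → V → ℝ}

theorem EJ_zero_le (h : IsSol ν T u P) (hν : 0 < ν) {t : ℝ} (ht : t ∈ Ico 0 T) :
    EJ 0 (uh u t) ≤ energy (u 0) := by
  refine le_trans (le_of_eq ?_) (h.energy_le hν ht)
  unfold EJ TH305.FB.e2 energy
  simp_rw [pow_zero, one_mul]
  rw [Summable.tsum_finsetSum fun i _ => summable_sq (rap_uh h ht i).summable]
  refine Finset.sum_congr rfl fun i _ => ?_
  rw [← n2_sq, uh, n2_fr (h.sp ht i)]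

theorem low_bound' (h : IsSol ν T u P) (hν : 0 < ν) {t : ℝ} (ht : t ∈ Ico 0 T) {s R : ℝ}
    (hs : s = 1 ∨ s = -1) (hR : 0 ≤ R) (x : V) (i : Fin 3) :
    |helPart s (u t) x i| ≤ |helHigh s R (u t) x i| + √(26 * R ^ 3) * √(energy (u 0)) := by
  have hs2 : s ^ 2 = 1 := by rcases hs with h | h <;> rw [h] <;> norm_num
  rw [← norm_S_hp, ← norm_S_hi]
  refine (low_bound (rv_hp hs2 (rv_uh h ht) (dv_uh h ht) i) (hp_zero _ _ _) hR x).trans ?_
  refine add_le_add le_rfl (mul_le_mul_of_nonneg_left ?_ (Real.sqrt_nonneg _))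
  exact (hn_hp_le 0 hs2 (rv_uh h ht) (dv_uh h ht) i).trans
    (Real.sqrt_le_sqrt (EJ_zero_le h hν ht))

theorem continuous_helHigh (h : IsSol ν T u P) {t : ℝ} (ht : t ∈ Ico 0 T) {s : ℝ} (R : ℝ)
    (hs : s = 1 ∨ s = -1) (i : Fin 3) : Continuous fun x => helHigh s R (u t) x i := by
  have hs2 : s ^ 2 = 1 := by rcases hs with h | h <;> rw [h] <;> norm_num
  have h1 := S_continuous (rap_hi R (rv_hp hs2 (rv_uh h ht) (dv_uh h ht) i)).summable
  have h2 := Complex.continuous_re.comp h1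
  refine h2.congr fun x => ?_
  rw [helHigh_eq]
  rfl

end Pool.Agent.TH301.HX
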