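import Pool.Agent.TH301.HX.Low

/-!
The criterion for one helical part.
-/

set_option autoImplicit false

open MeasureTheory Set Filter Topology
open scoped ENNReal
open H459R3.NS Pool.Agent.TH305.FB

namespace Pool.Agent.TH301.HX

/-- In each component, the part with frequencies `|k| ≥ R` of the helical part of sign `s` of `v`
is bounded by the sum of a function whose `L³` norm is at most `δ` and a function whose `L^p` norm
is at most `B` (norms over the period cell). -/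
def PartBound (p : ℝ≥0∞) (s R δ B : ℝ) (v : V → V) : Prop :=
  ∀ i, ∃ f g : V → ℝ, AEStronglyMeasurable f (volume.restrict cube) ∧
    AEStronglyMeasurable g (volume.restrict cube) ∧
    (∀ x ∈ cube, |helHigh s R v x i| ≤ |f x| + |g x|) ∧
    eLpNorm f 3 (volume.restrict cube) ≤ ENNReal.ofReal δ ∧
    eLpNorm g p (volume.restrict cube) ≤ ENNReal.ofReal B

variable {ν T : ℝ} {u : ℝ → V → V} {P : ℝ → V → ℝ}

theorem share_nonneg (s : ℝ) (v : V → V) : 0 ≤ share s v := Real.sqrt_nonneg _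

theorem share_le_one (h : IsSol ν T u P) {t : ℝ} (ht : t ∈ Ico 0 T) {s : ℝ}
    (hs : s = 1 ∨ s = -1) : share s (u t) ≤ 1 := by
  have hs2 : s ^ 2 = 1 := by rcases hs with h | h <;> rw [h] <;> norm_num
  rw [share, sob_hel, sob_eq]
  have h1 : EJ 3 (hp s (cu (u t))) ≤ EJ 3 (cu (u t)) := EJ_hp_le 3 hs2 (rv_uh h ht) (dv_uh h ht)
  refine Real.sqrt_le_one.2 ?_
  exact div_le_one_of_le₀ h1 (EJ_nonneg _ _)

theorem hyp_of (h : IsSol ν T u P) {t : ℝ} (ht : t ∈ Ico 0 T) {s β δ r w : ℝ}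
    (hw : β ^ 2 * r ≤ w) (hs : s = 1 ∨ s = -1) (hβ : 0 ≤ β) (hδ : 0 ≤ δ) (hr : share (-s) (u t) ≤ r) (hr1 : r ≤ 1)
    (hδr : δ * r ≤ c0 * ν)
    (hx : ∀ i, ∫ x in cube, max (|helPart s (u t) x i| - β) 0 ^ 3 ≤ δ ^ 3) :
    Hyp ν (uh u t) s β δ r w := by
  have hs2 : s ^ 2 = 1 := by rcases hs with h | h <;> rw [h] <;> norm_num
  have hs2' : (-s) ^ 2 = 1 := by rw [neg_sq]; exact hs2
  have hr0 : 0 ≤ r := (share_nonneg _ _).trans hr
  refine ⟨hw, hs2, hβ, hδ, hr0, hr1, ?_, hδr, fun i => ?_⟩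
  · have h1 : EJ 3 (hp (-s) (uh u t)) ≤ EJ 3 (uh u t) := EJ_hp_le 3 hs2' (rv_uh h ht) (dv_uh h ht)
    have h0 : 0 ≤ EJ 3 (hp (-s) (uh u t)) := EJ_nonneg _ _
    have h2 : √(EJ 3 (hp (-s) (uh u t)) / EJ 3 (uh u t)) ≤ r := by
      have : share (-s) (u t) = √(EJ 3 (hp (-s) (uh u t)) / EJ 3 (uh u t)) := by
        rw [share, sob_hel, sob_eq]
        rfl
      rw [← this]
      exact hr
    rcases (EJ_nonneg 3 (uh u t)).eq_or_lt with h3 | h3
    · rw [← h3] at h1 ⊢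
      rw [mul_zero]
      exact h1
    · have h4 := (Real.sqrt_le_left hr0).1 h2
      rwa [div_le_iff₀ h3] at h4
  · have e : ∀ x, ex β (hp s (uh u t) i) x = max (|helPart s (u t) x i| - β) 0 := by
      intro x
      have h3 := norm_S_hp s (u t) x i
      have h4 : ‖S (hp s (uh u t) i) x‖ = |helPart s (u t) x i| := h3
      rw [ex, h4]
    simp_rw [e]
    exact hx i

/-- The criterion with truncated functions. -/
theorem mainA (h : IsSol ν T u P) (hν : 0 < ν) {T0 : ℝ} (hT0 : 0 ≤ T0) (hT : T0 < T)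
    {σ β δ r w : ℝ → ℝ}
    (H : ∀ t ∈ Ioo T0 T, β t ^ 2 * r t ≤ w t ∧ (σ t = 1 ∨ σ t = -1) ∧ 0 ≤ β t ∧ 0 ≤ δ t ∧
      share (-σ t) (u t) ≤ r t ∧ r t ≤ 1 ∧ δ t * r t ≤ c0 * ν ∧
      ∀ i, ∫ x in cube, max (|helPart (σ t) (u t) x i| - β t) 0 ^ 3 ≤ δ t ^ 3)
    (hi : IntegrableOn w (Ioo T0 T)) :
    (∀ t ∈ Ico T0 T, sob 1 (cf (u t))
      ≤ sob 1 (cf (u T0)) * Real.exp (K3' / ν * ∫ s in Ioo T0 T, w s)) ∧
    ∃ M, ∀ t ∈ Ico 0 T, ∀ x i, |u t x i| ≤ M := by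
  have H' : ∀ t ∈ Ioo T0 T, Hyp ν (uh u t) (σ t) (β t) (δ t) (r t) (w t) := by
    intro t ht
    obtain ⟨h0, h1, h2, h3, h4, h5, h6, h7⟩ := H t ht
    exact hyp_of h ⟨hT0.trans ht.1.le, ht.2⟩ h0 h1 h2 h3 h4 h5 h6 h7
  have hb := fun t (ht : t ∈ Ico T0 T) => reg_bound h hν hT0 H' hi ht
  refine ⟨fun t ht => (hb t ht).1, ?_⟩
  exact bounded h hν hT0 hT (fun t ht => (hb t ht).1)
    (fun t ht => (le_div_iff₀' (by positivity)).2 (hb t ht).2)

theorem continuous_helPart (h : IsSol ν T u P) {t : ℝ} (ht : t ∈ Ico 0 T) {s : ℝ}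
    (hs : s = 1 ∨ s = -1) (i : Fin 3) : Continuous fun x => helPart s (u t) x i := by
  have hs2 : s ^ 2 = 1 := by rcases hs with h | h <;> rw [h] <;> norm_num
  have h1 := S_continuous (rv_hp hs2 (rv_uh h ht) (dv_uh h ht) i).summable
  have h2 := Complex.continuous_re.comp h1
  refine h2.congr fun x => ?_
  rw [helPart_eq]
  rfl

/-- The criterion in the Prodi-Serrin classes. -/
theorem mainB {p : ℝ≥0∞} (hp : 3 < p) {q : ℝ} (hpq : 3 * (p⁻¹).toReal + 2 / q = 1)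
    {ν : ℝ} (hν : 0 < ν) : ∃ C : ℝ, ∀ (T T0 : ℝ) (u : ℝ → V → V) (P : ℝ → V → ℝ),
    IsSol ν T u P → 0 ≤ T0 → T0 < T → ∀ σ R δ B r : ℝ → ℝ,
    (∀ t ∈ Ioo T0 T, (σ t = 1 ∨ σ t = -1) ∧ 0 ≤ R t ∧ 0 ≤ B t ∧ 0 ≤ δ t ∧
      share (-σ t) (u t) ≤ r t ∧ r t ≤ 1 ∧ δ t * r t ≤ c0 / 2 * ν ∧
      PartBound p (σ t) (R t) (δ t) (B t) (u t)) →
    IntegrableOn (fun t => B t ^ q * r t ^ ((1 + 3 * (p⁻¹).toReal) / (1 - 3 * (p⁻¹).toReal)))
      (Ioo T0 T) →
    IntegrableOn (fun t => R t ^ 3 * r t) (Ioo T0 T) →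
    (∀ t ∈ Ico T0 T, sob 1 (cf (u t)) ≤ sob 1 (cf (u T0)) * Real.exp (C * ((∫ s in Ioo T0 T,
      B s ^ q * r s ^ ((1 + 3 * (p⁻¹).toReal) / (1 - 3 * (p⁻¹).toReal)))
      + energy (u 0) * ∫ s in Ioo T0 T, R s ^ 3 * r s))) ∧
    ∃ M, ∀ t ∈ Ico 0 T, ∀ x i, |u t x i| ≤ M := by
  have hκ : 0 < c0 / 2 * ν := by have := c0_pos; positivity
  obtain ⟨C, hC⟩ := lev_sq hp hpq hκ
  refine ⟨K3' / ν * (52 + 2 * |C|), fun T T0 u P h hT0 hT σ R δ B r H hi hiR => ?_⟩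
  have hr0 : ∀ t ∈ Ioo T0 T, 0 ≤ r t := fun t ht => (share_nonneg _ _).trans (H t ht).2.2.2.2.1
  set E0 := energy (u 0) with hE0
  have hE : 0 ≤ E0 := energy_nonneg _
  -- the truncation
  have hex : ∀ t, ∃ l : ℝ, t ∈ Ioo T0 T → 0 ≤ l ∧ l * r t ≤ c0 / 2 * ν ∧
      ∀ g : V → ℝ, AEStronglyMeasurable g mc → eLpNorm g p mc ≤ ENNReal.ofReal (B t) →
      eLpNorm (fun x => max (|g x| - lev p (c0 / 2 * ν) (B t) (r t)) 0) 3 mc
        ≤ ENNReal.ofReal l := by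
    intro t
    by_cases ht : t ∈ Ioo T0 T
    · obtain ⟨l, h1, h2, h3⟩ := trunc_Lp hp hκ (H t ht).2.2.1 (hr0 t ht)
      exact ⟨l, fun _ => ⟨h1, h2, h3⟩⟩
    · exact ⟨0, fun h => absurd h ht⟩
  choose l hl using hex
  set e : ℝ := (1 + 3 * (p⁻¹).toReal) / (1 - 3 * (p⁻¹).toReal) with he
  set w : ℝ → ℝ := fun t => (52 + 2 * |C|) * (B t ^ q * r t ^ e + E0 * (R t ^ 3 * r t)) with hw
  have hiw : IntegrableOn w (Ioo T0 T) :=
    Integrable.const_mul (Integrable.add hi (Integrable.const_mul hiR E0)) _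
  have hwint : ∫ s in Ioo T0 T, w s = (52 + 2 * |C|) * ((∫ s in Ioo T0 T, B s ^ q * r s ^ e)
      + E0 * ∫ s in Ioo T0 T, R s ^ 3 * r s) := by
    simp only [hw]
    rw [integral_const_mul, integral_add hi (Integrable.const_mul hiR E0), integral_const_mul]
  have hA := mainA h hν hT0 hT (σ := σ)
    (β := fun t => √(26 * R t ^ 3) * √E0 + lev p (c0 / 2 * ν) (B t) (r t))
    (δ := fun t => δ t + l t) (r := r) (w := w) (fun t ht => ?_) hiw
  · rw [hwint, ← mul_assoc] at hA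
    exact hA
  · obtain ⟨h1, hR, h2, h3, h4, h5, h6, h7⟩ := H t ht
    obtain ⟨l0, l1, l2⟩ := hl t ht
    have hr := hr0 t ht
    have hI : t ∈ Ico 0 T := ⟨hT0.trans ht.1.le, ht.2⟩
    have hlev := lev_nonneg p hκ.le h2 hr
    refine ⟨?_, h1, by positivity, add_nonneg h3 l0, h4, h5, ?_, fun i => ?_⟩
    · have a1 : (√(26 * R t ^ 3) * √E0) ^ 2 = 26 * R t ^ 3 * E0 := by
        rw [mul_pow, Real.sq_sqrt (by positivity), Real.sq_sqrt hE]
      have a2 := hC (B t) (r t) h2 hr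
      have a3 : (√(26 * R t ^ 3) * √E0 + lev p (c0 / 2 * ν) (B t) (r t)) ^ 2
          ≤ 2 * (26 * R t ^ 3 * E0) + 2 * lev p (c0 / 2 * ν) (B t) (r t) ^ 2 := by
        rw [← a1]
        nlinarith [sq_nonneg (√(26 * R t ^ 3) * √E0 - lev p (c0 / 2 * ν) (B t) (r t))]
      have a4 := mul_le_mul_of_nonneg_right a3 hr
      have a5 : (0 : ℝ) ≤ B t ^ q * r t ^ e := by positivity
      have a6 : 0 ≤ E0 * (R t ^ 3 * r t) := by positivity
      have a7 : C * (B t ^ q * r t ^ e) ≤ |C| * (B t ^ q * r t ^ e) :=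
        mul_le_mul_of_nonneg_right (le_abs_self C) a5
      have a8 : 0 ≤ |C| * (E0 * (R t ^ 3 * r t)) := by positivity
      have a2' : lev p (c0 / 2 * ν) (B t) (r t) ^ 2 * r t = C * (B t ^ q * r t ^ e) := a2
      simp only [hw]
      nlinarith
    · calc (δ t + l t) * r t = δ t * r t + l t * r t := by ring
        _ ≤ c0 / 2 * ν + c0 / 2 * ν := add_le_add h6 l1
        _ = c0 * ν := by ring
    · obtain ⟨f, g, mf, mg, hle, hf, hg⟩ := h7 i
      have hch := continuous_helHigh h hI (R t) h1 i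
      refine le_trans ?_ (trunc_add hch mf mg hle h3 l0 hf (l2 g mg hg))
      have hcp := continuous_helPart h hI h1 i
      refine integral_mono
        (integrableOn_cube (((hcp.abs.sub continuous_const).max continuous_const).pow 3))
        (integrableOn_cube (((hch.abs.sub continuous_const).max continuous_const).pow 3))
        fun x => ?_
      refine pow_le_pow_left₀ (le_max_right _ _) (max_le_max ?_ le_rfl) 3
      have := low_bound' h hν hI h1 hR x i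
      simp only
      linarith

end Pool.Agent.TH301.HX
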