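import Pool.Agent.TH301.HX.CB
import Pool.Agent.TH305.FB.NSf

/-!
The balance of the `H^{1/2}` norm of a smooth periodic solution.
-/

set_option autoImplicit false

open MeasureTheory Set Filter Topology
open scoped ContDiff
open H459R3.NS Pool.Agent.TH305.FB

namespace Pool.Agent.TH301.HX

theorem Npow_le (k : K3) {j : ℕ} (h1 : 1 ≤ j) (h4 : j ≤ 4) : (N k : ℝ) ^ j ≤ (N k : ℝ) ^ 4 := by
  rcases Nat.eq_zero_or_pos (N k) with h | h
  · rw [h]
    simp only [Nat.cast_zero]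
    rw [zero_pow (by omega), zero_pow (by norm_num)]
  · exact pow_le_pow_right₀ (by exact_mod_cast h) h4

theorem w_le (k : K3) {j : ℕ} (h1 : 1 ≤ j) (h4 : j ≤ 4) : rr k ^ j / 2 ^ j ≤ (N k : ℝ) ^ 4 := by
  refine le_trans ?_ (Npow_le k h1 h4)
  rw [← div_pow]
  refine pow_le_pow_left₀ (div_nonneg (rr_nonneg k) (by norm_num)) ?_ j
  linarith [rr_le k]

theorem w_nonneg (k : K3) (j : ℕ) : 0 ≤ rr k ^ j / 2 ^ j :=
  div_nonneg (pow_nonneg (rr_nonneg k) _) (by positivity)

section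

variable {ν T : ℝ} {u : ℝ → V → V} {p : ℝ → V → ℝ}

theorem hasSum_conv' (h : IsSol ν T u p) {t : ℝ} (ht : t ∈ Ico 0 T) (i : Fin 3) :
    HasSum (fun k => ((rr k : ℝ) : ℂ) *
      ((starRingEnd ℂ) (uh u t i k) * fr (conv (fun i y => u t y i) i) k))
      (∑ j, Tri (uh u t j) (D j (uh u t i)) (Lm (uh u t i))) := by
  have hR := rap_uh h ht
  have hc : Rap (Lm (uh u t i)) := rap_Lm (hR i)
  have hsp : ∀ i, SP (fun y => u t y i) := fun i => h.sp ht i
  have hcs := hc.summable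
  set c : K3 → ℂ := Lm (uh u t i) with hcdef
  have hcont : Continuous fun x : V => ((conv (fun i y => u t y i) i x : ℝ) : ℂ) :=
    (contDiff_ofReal (sp_conv hsp i).smooth).continuous
  have h1 := integral_S_mul hcs hcont
  have e1 : ∀ k, c k * ∫ x in cube, ee k x * ((conv (fun i y => u t y i) i x : ℝ) : ℂ)
      = c k * fr (conv (fun i y => u t y i) i) (-k) := by
    intro k
    unfold fr fc
    rw [neg_neg]
  simp_rw [e1] at h1
  have h2 := (Equiv.neg K3).hasSum_iff.2 h1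
  have e2' : ((fun k => c k * fr (conv (fun i y => u t y i) i) (-k)) ∘ (Equiv.neg K3))
      = fun k => ((rr k : ℝ) : ℂ) *
      ((starRingEnd ℂ) (uh u t i k) * fr (conv (fun i y => u t y i) i) k) := by
    funext k
    simp only [Function.comp_apply, Equiv.neg_apply, neg_neg, hcdef, Lm]
    rw [rr_neg, uh, fr_conj]
    ring
  rw [e2'] at h2
  have e3 : ∑ j, Tri (uh u t j) (D j (uh u t i)) c
      = ∫ x in cube, S c x * ((conv (fun i y => u t y i) i x : ℝ) : ℂ) := by
    have e4 : ∀ j, Tri (uh u t j) (D j (uh u t i)) c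
        = ∫ x in cube, S c x * ((u t x j * pd j (fun y => u t y i) x : ℝ) : ℂ) := by
      intro j
      rw [tri_eq (hR j).summable ((hR i).D j).summable hcs]
      congr 1
      funext x
      have a1 : S (uh u t j) x = ((u t x j : ℝ) : ℂ) := S_fr (hsp j) x
      have a2 : S (D j (uh u t i)) x = ((pd j (fun y => u t y i) x : ℝ) : ℂ) := by
        rw [uh, ← fr_pd (hsp i)]
        exact S_fr ((hsp i).pd j) x
      rw [a1, a2]
      push_cast
      ring
    simp_rw [e4]
    rw [← integral_finsetSum]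
    · congr 1
      funext x
      rw [← Finset.mul_sum]
      unfold conv
      push_cast
      rfl
    · intro j _
      exact integrableOn_cube ((S_continuous hcs).mul
        (contDiff_ofReal ((hsp j).mul ((hsp i).pd j)).smooth).continuous)
  rw [e3]
  exact h2

theorem hasSum_TT (h : IsSol ν T u p) {t : ℝ} (ht : t ∈ Ico 0 T) :
    HasSum (fun k => ((rr k : ℝ) : ℂ) *
      ∑ i, (starRingEnd ℂ) (uh u t i k) * fr (conv (fun i y => u t y i) i) k)
      (TT (uh u t) (uh u t) (fun i => Lm (uh u t i))) := by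
  unfold TT
  have h1 := hasSum_sum (s := Finset.univ) fun i _ => hasSum_conv' h ht i
  simp_rw [Finset.mul_sum]
  exact h1

theorem EJ_eq (h : IsSol ν T u p) (j : ℕ) {t : ℝ} (ht : t ∈ Ico 0 T) :
    EJ j (uh u t) = 2 ^ j * ∑ i, ∑' k, rr k ^ j / 2 ^ j * ‖uh u t i k‖ ^ 2 := by
  have hs : ∀ i, Summable fun k => rr k ^ j / 2 ^ j * ‖uh u t i k‖ ^ 2 := by
    intro i
    refine ((summable_hn j (rap_uh h ht i)).div_const (2 ^ j)).congr fun k => ?_
    ring
  rw [← Summable.tsum_finsetSum fun i _ => hs i, ← tsum_mul_left]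
  unfold EJ TH305.FB.e2
  refine tsum_congr fun k => ?_
  rw [Finset.mul_sum, Finset.mul_sum]
  refine Finset.sum_congr rfl fun i _ => ?_
  field_simp

theorem EJ_continuousOn (h : IsSol ν T u p) {j : ℕ} (h1 : 1 ≤ j) (h4 : j ≤ 4) :
    ContinuousOn (fun t => EJ j (uh u t)) (Ico 0 T) := by
  have h1 : ContinuousOn (fun t => 2 ^ j * ∑ i, ∑' k, rr k ^ j / 2 ^ j *
      ‖fr (fun y => u t y i) k‖ ^ 2) (Ico 0 T) := by
    refine continuousOn_const.mul (continuousOn_finsetSum _ fun i _ => ?_)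
    exact continuousOn_tsum_fr (f := fun t y => u t y i) (h.smooth_c i)
      (fun t ht => (h.sp ht i).per) (fun k => w_nonneg k j) (fun k => w_le k h1 h4)
  exact h1.congr fun t ht => EJ_eq h j ht

theorem EJ_hasDerivAt (h : IsSol ν T u p) {t : ℝ} (ht : t ∈ Ioo 0 T) :
    HasDerivAt (fun s => EJ 1 (uh u s))
      (-(8 * Real.pi ^ 2 * ν * EJ 3 (uh u t))
        - 2 * (TT (uh u t) (uh u t) (fun i => Lm (uh u t i))).re) t := by
  have hI : t ∈ Ico 0 T := ⟨ht.1.le, ht.2⟩
  have h1 : HasDerivAt (fun s => 2 ^ 1 * ∑ i, ∑' k, rr k ^ 1 / 2 ^ 1 *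
      ‖fr (fun y => u s y i) k‖ ^ 2)
      (2 ^ 1 * ∑ i, ∑' k, rr k ^ 1 / 2 ^ 1 * (2 * ((starRingEnd ℂ) (uh u t i k)
        * fr (dt (fun s y => u s y i) t) k).re)) t :=
    (HasDerivAt.fun_sum fun i _ => hasDerivAt_tsum_fr (f := fun s y => u s y i) (h.smooth_c i)
      (fun t ht => (h.sp ht i).per) (fun k => w_nonneg k 1)
      (fun k => w_le k le_rfl (by norm_num)) ht).const_mul _
  have h2 : HasDerivAt (fun s => EJ 1 (uh u s))
      (2 ^ 1 * ∑ i, ∑' k, rr k ^ 1 / 2 ^ 1 * (2 * ((starRingEnd ℂ) (uh u t i k)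
        * fr (dt (fun s y => u s y i) t) k).re)) t := by
    refine h1.congr_of_eventuallyEq ?_
    filter_upwards [Ioo_mem_nhds ht.1 ht.2] with s hs
    exact EJ_eq h 1 ⟨hs.1.le, hs.2⟩
  refine h2.congr_deriv ?_
  have hR := rap_uh h hI
  have hsum : ∀ i, Summable fun k => rr k ^ 1 / 2 ^ 1 * (2 * ((starRingEnd ℂ) (uh u t i k)
        * fr (dt (fun s y => u s y i) t) k).re) := by
    intro i
    obtain ⟨C, hC⟩ := norm_fr_le (h.sp_dt ht i)
    have hC0 : 0 ≤ C := (norm_nonneg _).trans (hC 0)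
    refine Summable.of_norm_bounded (((hR i) 4).mul_left (2 * C)) fun k => ?_
    have h3 : |((starRingEnd ℂ) (uh u t i k) * fr (dt (fun s y => u s y i) t) k).re|
        ≤ ‖uh u t i k‖ * C := by
      refine (Complex.abs_re_le_norm _).trans ?_
      rw [norm_mul, RCLike.norm_conj]
      exact mul_le_mul_of_nonneg_left (hC k) (norm_nonneg _)
    rw [Real.norm_eq_abs, abs_mul, abs_mul, abs_of_nonneg (w_nonneg k 1), abs_two]
    calc rr k ^ 1 / 2 ^ 1 * (2 * |((starRingEnd ℂ) (uh u t i k)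
          * fr (dt (fun s y => u s y i) t) k).re|)
        ≤ (N k : ℝ) ^ 4 * (2 * (‖uh u t i k‖ * C)) :=
          mul_le_mul (w_le k le_rfl (by norm_num)) (by linarith) (by positivity) (by positivity)
      _ = _ := by ring
  rw [← Summable.tsum_finsetSum fun i _ => hsum i]
  simp_rw [← Finset.mul_sum]
  have hre := Complex.hasSum_re (hasSum_TT h hI)
  have hA : Summable fun k => rr k ^ 3 * TH305.FB.e2 (uh u t) k := summable_EJ 3 hR
  have h5 := (hA.hasSum.mul_left (-(8 * Real.pi ^ 2 * ν))).sub (hre.mul_left 2)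
  have h6 : (fun k => -(8 * Real.pi ^ 2 * ν) * (rr k ^ 3 * TH305.FB.e2 (uh u t) k)
      - 2 * (((rr k : ℝ) : ℂ) *
      ∑ i, (starRingEnd ℂ) (uh u t i k) * fr (conv (fun i y => u t y i) i) k).re)
      = fun k => rr k * ∑ i, (2 * ((starRingEnd ℂ) (uh u t i k)
        * fr (dt (fun s y => u s y i) t) k).re) := by
    funext k
    have h7 : rr k ^ 2 = nk2 k := rr_sq k
    rw [re_sum h ht k, Complex.re_ofReal_mul, ← h7]
    ring
  rw [h6] at h5
  have h8 : EJ 3 (uh u t) = ∑' k, rr k ^ 3 * TH305.FB.e2 (uh u t) k := rfl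
  rw [← tsum_mul_left, h8]
  have h9 : (fun k => (2 : ℝ) ^ 1 * (rr k ^ 1 / 2 ^ 1 *
      (2 * ∑ i, ((starRingEnd ℂ) (uh u t i k) * fr (dt (fun s y => u s y i) t) k).re)))
      = fun k => rr k * ∑ i, (2 * ((starRingEnd ℂ) (uh u t i k)
        * fr (dt (fun s y => u s y i) t) k).re) := by
    funext k
    rw [← Finset.mul_sum]
    ring
  rw [h9, h5.tsum_eq]
  ring

end

end Pool.Agent.TH301.HX
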