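import Pool.Agent.TH301.HX.Fin

/-!
The helical parts of a periodic vector field.
-/

set_option autoImplicit false

open MeasureTheory Set Filter Topology
open scoped ContDiff ENNReal
open H459R3.NS Pool.Agent.TH305.FB

namespace Pool.Agent.TH301.HX

/-- The Euclidean length `|k|` of a frequency `k ∈ ℤ³`. -/
noncomputable def euc (k : K3) : ℝ := √(∑ j, (k j : ℝ) ^ 2)

/-- The Fourier coefficient `∫ exp (-2 π i k · x) v(x) dx` (over the period cell) of a vector
field `v`, a vector in `ℂ³`. -/
noncomputable def cf (v : V → V) (k : K3) (i : Fin 3) : ℂ := fr (fun y => v y i) k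

/-- The Fourier coefficients of the helical part of sign `s` (`s = 1` or `s = -1`) of `v`:
`(v̂(k) + s i (k × v̂(k)) / |k|) / 2` for `k ≠ 0`, and `0` for `k = 0`. -/
noncomputable def helCoeff (s : ℝ) (v : V → V) (k : K3) (i : Fin 3) : ℂ :=
  if k = 0 then 0
  else (cf v k i + s * (Complex.I * crossProduct (fun j => (k j : ℂ)) (cf v k) i / euc k)) / 2

/-- The helical part of sign `s` of the vector field `v`: the sum of the Fourier series with the
coefficients `helCoeff s v` (a real number for real `v`). -/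
noncomputable def helPart (s : ℝ) (v : V → V) (x : V) (i : Fin 3) : ℝ :=
  (∑' k, helCoeff s v k i * ee k x).re

/-- The square `∑ |k|^j |c(k)|²` of a homogeneous Sobolev norm (of order `j / 2`) of the vector
field with Fourier coefficients `c`. -/
noncomputable def sob (j : ℕ) (c : K3 → Fin 3 → ℂ) : ℝ := ∑' k, euc k ^ j * ∑ i, ‖c k i‖ ^ 2

/-- The share of the helical part of sign `s` in the homogeneous Sobolev norm of order `3/2`:
`‖vˢ‖ / ‖v‖`, a number in `[0, 1]`. -/
noncomputable def share (s : ℝ) (v : V → V) : ℝ := √(sob 3 (helCoeff s v) / sob 3 (cf v))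

theorem euc_eq (k : K3) : euc k = rr k := rfl

/-- The Fourier coefficients as used in the proofs. -/
noncomputable def cu (v : V → V) (i : Fin 3) (k : K3) : ℂ := fr (fun y => v y i) k

theorem helCoeff_eq (s : ℝ) (v : V → V) (k : K3) (i : Fin 3) :
    helCoeff s v k i = hp s (cu v) i k := by
  unfold helCoeff hp
  by_cases hk : k = 0
  · rw [if_pos hk, if_pos hk]
  · rw [if_neg hk, if_neg hk]
    have hr : (rr k : ℂ) ≠ 0 := by
      exact_mod_cast (rr_pos hk).ne'
    have hpi : (Real.pi : ℂ) ≠ 0 := by exact_mod_cast Real.pi_ne_zero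
    have e : curl (cu v) i k
        = 2 * Real.pi * (Complex.I * crossProduct (fun j => (k j : ℂ)) (cf v k) i) := by
      fin_cases i
      · show curl (cu v) 0 k = _ * (_ * crossProduct (fun j => (k j : ℂ)) (cf v k) 0)
        rw [curl_0, cross_apply]
        simp only [Matrix.cons_val_zero, cf, cu]
        ring
      · show curl (cu v) 1 k = _ * (_ * crossProduct (fun j => (k j : ℂ)) (cf v k) 1)
        rw [curl_1, cross_apply]
        simp only [Matrix.cons_val_one, Matrix.cons_val, cf, cu]
        ring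
      · show curl (cu v) 2 k = _ * (_ * crossProduct (fun j => (k j : ℂ)) (cf v k) 2)
        rw [curl_2, cross_apply]
        simp only [Matrix.cons_val, cf, cu]
        ring
    rw [e, euc_eq]
    have e2 : cf v k i = cu v i k := rfl
    rw [e2]
    field_simp

theorem sob_eq (j : ℕ) (v : V → V) : sob j (cf v) = EJ j (cu v) := rfl

theorem sob_hel (j : ℕ) (s : ℝ) (v : V → V) : sob j (helCoeff s v) = EJ j (hp s (cu v)) := by
  unfold sob EJ TH305.FB.e2
  simp_rw [helCoeff_eq, euc_eq]

theorem conj_curl {U : Fin 3 → K3 → ℂ} (h : ∀ i k, U i (-k) = (starRingEnd ℂ) (U i k))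
    (i : Fin 3) (k : K3) : curl U i (-k) = (starRingEnd ℂ) (curl U i k) := by
  fin_cases i
  · show curl U 0 (-k) = (starRingEnd ℂ) (curl U 0 k)
    rw [curl_0, curl_0, h, h]
    simp only [Pi.neg_apply, Int.cast_neg, map_mul, map_sub, Complex.conj_I, Complex.conj_ofReal,
      map_intCast, map_ofNat]
    ring
  · show curl U 1 (-k) = (starRingEnd ℂ) (curl U 1 k)
    rw [curl_1, curl_1, h, h]
    simp only [Pi.neg_apply, Int.cast_neg, map_mul, map_sub, Complex.conj_I, Complex.conj_ofReal,
      map_intCast, map_ofNat]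
    ring
  · show curl U 2 (-k) = (starRingEnd ℂ) (curl U 2 k)
    rw [curl_2, curl_2, h, h]
    simp only [Pi.neg_apply, Int.cast_neg, map_mul, map_sub, Complex.conj_I, Complex.conj_ofReal,
      map_intCast, map_ofNat]
    ring

theorem conj_hp {U : Fin 3 → K3 → ℂ} (h : ∀ i k, U i (-k) = (starRingEnd ℂ) (U i k)) (s : ℝ)
    (i : Fin 3) (k : K3) : hp s U i (-k) = (starRingEnd ℂ) (hp s U i k) := by
  unfold hp
  by_cases hk : k = 0
  · rw [if_pos hk, if_pos (by rw [hk, neg_zero]), map_zero]
  · rw [if_neg hk, if_neg (fun h => hk (neg_eq_zero.1 h)), h, conj_curl h, rr_neg]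
    simp only [map_div₀, map_add, map_mul, Complex.conj_ofReal, map_ofNat]

theorem S_real {a : K3 → ℂ} (h : ∀ k, a (-k) = (starRingEnd ℂ) (a k)) (x : V) :
    (starRingEnd ℂ) (S a x) = S a x := by
  unfold S
  rw [Complex.conj_tsum, ← (Equiv.neg K3).tsum_eq]
  refine tsum_congr fun k => ?_
  simp only [Equiv.neg_apply, map_mul]
  rw [h, Complex.conj_conj, ee_neg, Complex.conj_conj]

theorem cu_conj (v : V → V) (i : Fin 3) (k : K3) :
    cu v i (-k) = (starRingEnd ℂ) (cu v i k) := fr_conj _ k

theorem helPart_eq (s : ℝ) (v : V → V) (x : V) (i : Fin 3) :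
    helPart s v x i = (S (hp s (cu v) i) x).re := by
  unfold helPart S
  simp_rw [helCoeff_eq]

theorem norm_S_hp (s : ℝ) (v : V → V) (x : V) (i : Fin 3) :
    ‖S (hp s (cu v) i) x‖ = |helPart s v x i| := by
  have h := S_real (conj_hp (cu_conj v) s i) x
  have h2 := Complex.conj_eq_iff_real.1 h
  obtain ⟨r, hr⟩ := h2
  rw [helPart_eq, hr, Complex.norm_real, Complex.ofReal_re, Real.norm_eq_abs]

/-- A smooth periodic vector field without divergence is the sum of its mean value and its two
helical parts. -/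
theorem helPart_add {v : V → V} (hv : ∀ i, SP (fun y => v y i))
    (hd : ∀ x, ∑ i, pd i (fun y => v y i) x = 0) (x : V) (i : Fin 3) :
    v x i = (∫ y in cube, v y i) + helPart 1 v x i + helPart (-1) v x i := by
  have hU : RV (cu v) := fun i => rap_fr (hv i)
  have hD : Dv (cu v) := fr_div hv hd
  have r1 := (rv_hp (s := 1) (by norm_num) hU hD i).summable
  have r2 := (rv_hp (s := -1) (by norm_num) hU hD i).summable
  have h1 : S (cu v i) x = (v x i : ℂ) := S_fr (hv i) x
  have h2 : S (cu v i) x = cu v i 0 + (S (hp 1 (cu v) i) x + S (hp (-1) (cu v) i) x) := by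
    have e : ∀ k, cu v i k * ee k x = (if k = 0 then cu v i 0 else 0)
        + (hp 1 (cu v) i k * ee k x + hp (-1) (cu v) i k * ee k x) := by
      intro k
      by_cases hk : k = 0
      · rw [if_pos hk, hk, hp_zero, hp_zero, ee_zero]
        ring
      · rw [if_neg hk, ← add_mul, hp_add i hk]
        ring
    have hs := (summable_term r1 x).add (summable_term r2 x)
    unfold S
    rw [tsum_congr e, (hasSum_ite_eq (0 : K3) (cu v i 0)).summable.tsum_add hs, tsum_ite_eq,
      (summable_term r1 x).tsum_add (summable_term r2 x)]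
  have h3 : cu v i 0 = ((∫ y in cube, v y i : ℝ) : ℂ) := by
    unfold cu fr fc
    simp_rw [neg_zero, ee_zero, one_mul]
    rw [integral_complex_ofReal]
  have h4 := congrArg Complex.re (h1.symm.trans h2)
  rw [h3] at h4
  simp only [Complex.ofReal_re, Complex.add_re] at h4
  rw [helPart_eq, helPart_eq]
  linarith

end Pool.Agent.TH301.HX
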