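import Pool.Agent.TH301.HX.Ode
import Pool.Agent.TH305.FB.Gw
import Pool.Agent.H459R3.NS.High2
import Pool.Agent.H459R3.NS.Final
import Pool.Agent.H459R3.NS.Iso

/-!
The regularity criterion in terms of the Fourier coefficients.
-/

set_option autoImplicit false

open MeasureTheory Set Filter Topology
open scoped ContDiff ENNReal
open H459R3.NS Pool.Agent.TH305.FB

namespace Pool.Agent.TH301.HX

theorem gron0 {F F' g : ℝ → ℝ} {a b B : ℝ} (hab : a ≤ b)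
    (hc : ContinuousOn F (Icc a b)) (hpos : ∀ t ∈ Icc a b, 0 ≤ F t)
    (hd : ∀ t ∈ Ioo a b, HasDerivAt F (F' t) t) (hg0 : ∀ t ∈ Ioo a b, 0 ≤ g t)
    (hgi : IntegrableOn g (Icc a b)) (hgB : ∫ s in a..b, g s ≤ B)
    (hle : ∀ t ∈ Ioo a b, F' t ≤ g t * F t) : F b ≤ F a * Real.exp B := by
  have h1 : ∀ ε : ℝ, 0 < ε → F b + ε ≤ (F a + ε) * Real.exp B := by
    intro ε hε
    refine gron_log (F := fun t => F t + ε) (F' := F') (g := g) hab (hc.add continuousOn_const)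
      (fun t ht => by have := hpos t ht; positivity) (fun t ht => (hd t ht).add_const ε) hgi hgB
      fun t ht => (hle t ht).trans ?_
    exact mul_le_mul_of_nonneg_left (by linarith) (hg0 t ht)
  have hlim1 : Tendsto (fun ε : ℝ => F b + ε) (𝓝[>] 0) (𝓝 (F b + 0)) :=
    (tendsto_const_nhds.add tendsto_id).mono_left nhdsWithin_le_nhds
  have hlim2 : Tendsto (fun ε : ℝ => (F a + ε) * Real.exp B) (𝓝[>] 0)
      (𝓝 ((F a + 0) * Real.exp B)) :=
    ((tendsto_const_nhds.add tendsto_id).mul_const _).mono_left nhdsWithin_le_nhds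
  have := le_of_tendsto_of_tendsto hlim1 hlim2 (by
    filter_upwards [self_mem_nhdsWithin] with ε hε
    exact h1 ε hε)
  simpa using this

/-- The small constant. -/
noncomputable def c0 : ℝ := Real.pi ^ 2 / K2

theorem c0_pos : 0 < c0 := div_pos (by positivity) K2_pos

/-- The constant in the exponent. -/
noncomputable def K3' : ℝ := K1 ^ 2 / (2 * Real.pi ^ 2)

theorem K3'_nonneg : 0 ≤ K3' := by unfold K3'; positivity

section

variable {ν T : ℝ} {u : ℝ → V → V} {p : ℝ → V → ℝ}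

theorem rv_uh (h : IsSol ν T u p) {t : ℝ} (ht : t ∈ Ico 0 T) : RV (uh u t) := fun i => rap_uh h ht i

theorem dv_uh (h : IsSol ν T u p) {t : ℝ} (ht : t ∈ Ico 0 T) : Dv (uh u t) := div_uh h ht

theorem diff_ineq (h : IsSol ν T u p) (hν : 0 < ν) {t : ℝ} (ht : t ∈ Ioo 0 T) {s β δ r : ℝ}
    (hs : s ^ 2 = 1) (hβ : 0 ≤ β) (hδ : 0 ≤ δ) (hr0 : 0 ≤ r) (hr1 : r ≤ 1)
    (hr : EJ 3 (hp (-s) (uh u t)) ≤ r ^ 2 * EJ 3 (uh u t)) (hδr : δ * r ≤ c0 * ν)
    (hx : ∀ i, ∫ x in cube, ex β (hp s (uh u t) i) x ^ 3 ≤ δ ^ 3) :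
    -(8 * Real.pi ^ 2 * ν * EJ 3 (uh u t)) - 2 * (TT (uh u t) (uh u t) (fun i => Lm (uh u t i))).re
      ≤ -(4 * Real.pi ^ 2 * ν * EJ 3 (uh u t)) + K3' / ν * (β ^ 2 * r) * EJ 1 (uh u t) := by
  have hI : t ∈ Ico 0 T := ⟨ht.1.le, ht.2⟩
  have h1 := C_bound hs (rv_uh h hI) (dv_uh h hI) hβ hδ hr0 hr1 hr hx
  have h2 := (abs_le.1 (Complex.abs_re_le_norm
    (TT (uh u t) (uh u t) (fun i => Lm (uh u t i))))).1
  set E := EJ 1 (uh u t) with hE
  set G := EJ 3 (uh u t) with hG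
  have hE0 : 0 ≤ E := EJ_nonneg _ _
  have hG0 : 0 ≤ G := EJ_nonneg _ _
  have h3 : K2 * (δ * r * G) ≤ Real.pi ^ 2 * ν * G := by
    have hK := K2_pos
    calc K2 * (δ * r * G) ≤ K2 * (c0 * ν * G) := by gcongr
      _ = Real.pi ^ 2 * ν * G := by
        have := K2_pos.ne'
        unfold c0
        field_simp
  have h4 : 2 * (K1 * (β * √r * (√E * √G)))
      ≤ 2 * Real.pi ^ 2 * ν * G + K3' / ν * (β ^ 2 * r) * E := by
    have hp : 0 < 2 * Real.pi ^ 2 * ν := by positivity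
    have e1 : √E ^ 2 = E := Real.sq_sqrt hE0
    have e2 : √G ^ 2 = G := Real.sq_sqrt hG0
    have e3 : √r ^ 2 = r := Real.sq_sqrt hr0
    have h5 : 0 ≤ (2 * Real.pi ^ 2 * ν * √G - K1 * β * √r * √E) ^ 2 / (2 * Real.pi ^ 2 * ν) := by
      positivity
    have e : (2 * Real.pi ^ 2 * ν * √G - K1 * β * √r * √E) ^ 2 / (2 * Real.pi ^ 2 * ν)
        = 2 * Real.pi ^ 2 * ν * √G ^ 2 + K3' / ν * (β ^ 2 * √r ^ 2) * √E ^ 2
          - 2 * (K1 * (β * √r * (√E * √G))) := by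
      have := Real.pi_pos.ne'
      unfold K3'
      field_simp
      ring
    rw [e, e1, e2, e3] at h5
    linarith
  linarith

/-- The hypothesis at one time. -/
structure Hyp (ν : ℝ) (U : Fin 3 → K3 → ℂ) (s β δ r w : ℝ) : Prop where
  hw : β ^ 2 * r ≤ w
  hs : s ^ 2 = 1
  hβ : 0 ≤ β
  hδ : 0 ≤ δ
  hr0 : 0 ≤ r
  hr1 : r ≤ 1
  hr : EJ 3 (hp (-s) U) ≤ r ^ 2 * EJ 3 U
  hδr : δ * r ≤ c0 * ν
  hx : ∀ i, ∫ x in cube, ex β (hp s U i) x ^ 3 ≤ δ ^ 3

theorem reg_bound (h : IsSol ν T u p) (hν : 0 < ν) {T0 : ℝ} (hT0 : 0 ≤ T0)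
    {s β δ r w : ℝ → ℝ} (H : ∀ t ∈ Ioo T0 T, Hyp ν (uh u t) (s t) (β t) (δ t) (r t) (w t))
    (hβi : IntegrableOn w (Ioo T0 T))
    {t : ℝ} (ht : t ∈ Ico T0 T) :
    EJ 1 (uh u t) ≤ EJ 1 (uh u T0) * Real.exp (K3' / ν * ∫ s in Ioo T0 T, w s) ∧
    4 * Real.pi ^ 2 * ν * (∫ s in T0..t, EJ 3 (uh u s)) ≤ EJ 1 (uh u T0)
      + EJ 1 (uh u T0) * Real.exp (K3' / ν * ∫ s in Ioo T0 T, w s)
        * (K3' / ν * ∫ s in Ioo T0 T, w s) := by
  have hK := K3'_nonneg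
  have hg0 : ∀ r' ∈ Ioo T0 T, 0 ≤ w r' := fun r' hr' =>
    (mul_nonneg (sq_nonneg _) (H r' hr').hr0).trans (H r' hr').hw
  set B := K3' / ν * ∫ s in Ioo T0 T, w s with hB
  have hint : ∀ t ∈ Ico T0 T, IntegrableOn (fun r' => K3' / ν * w r')
      (Icc T0 t) := by
    intro t ht
    refine Integrable.const_mul ?_ _
    show IntegrableOn w (Icc T0 t)
    rw [integrableOn_Icc_iff_integrableOn_Ioc, integrableOn_Ioc_iff_integrableOn_Ioo]
    exact hβi.mono_set (Ioo_subset_Ioo_right ht.2.le)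
  have hle : ∀ t ∈ Ico T0 T, ∫ r' in T0..t, K3' / ν * w r' ≤ B := by
    intro t ht
    rw [intervalIntegral.integral_const_mul, hB]
    refine mul_le_mul_of_nonneg_left ?_ (by positivity)
    rw [intervalIntegral.integral_of_le ht.1, integral_Ioc_eq_integral_Ioo]
    refine setIntegral_mono_set hβi ?_ (Ioo_subset_Ioo_right ht.2.le).eventuallyLE
    filter_upwards [self_mem_ae_restrict measurableSet_Ioo] with s hs
    exact hg0 s hs
  have hEc : ∀ t ∈ Ico T0 T, ContinuousOn (fun r => EJ 1 (uh u r)) (Icc T0 t) := fun t ht =>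
    (EJ_continuousOn h (j := 1) le_rfl (by norm_num)).mono
      fun r hr => ⟨hT0.trans hr.1, hr.2.trans_lt ht.2⟩
  have hGc : ∀ t ∈ Ico T0 T, ContinuousOn (fun r => EJ 3 (uh u r)) (Icc T0 t) := fun t ht =>
    (EJ_continuousOn h (j := 3) (by norm_num) (by norm_num)).mono
      fun r hr => ⟨hT0.trans hr.1, hr.2.trans_lt ht.2⟩
  have hI : ∀ t ∈ Ico T0 T, ∀ r ∈ Ioo T0 t, r ∈ Ioo 0 T ∧ r ∈ Ioo T0 T := fun t ht r hr =>
    ⟨⟨hT0.trans_lt hr.1, hr.2.trans ht.2⟩, ⟨hr.1, hr.2.trans ht.2⟩⟩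
  have hdi : ∀ r' ∈ Ioo 0 T, r' ∈ Ioo T0 T →
      -(8 * Real.pi ^ 2 * ν * EJ 3 (uh u r'))
        - 2 * (TT (uh u r') (uh u r') (fun i => Lm (uh u r' i))).re
      ≤ -(4 * Real.pi ^ 2 * ν * EJ 3 (uh u r')) + K3' / ν * w r' * EJ 1 (uh u r') := by
    intro r' h1 h2
    have h3 := diff_ineq h hν h1 (H r' h2).hs (H r' h2).hβ (H r' h2).hδ (H r' h2).hr0
      (H r' h2).hr1 (H r' h2).hr (H r' h2).hδr (H r' h2).hx
    have h4 : K3' / ν * (β r' ^ 2 * r r') * EJ 1 (uh u r') ≤ K3' / ν * w r' * EJ 1 (uh u r') := by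
      have h5 := (H r' h2).hw
      have h6 : 0 ≤ EJ 1 (uh u r') := EJ_nonneg _ _
      gcongr
    linarith
  have hbd : ∀ t ∈ Ico T0 T, EJ 1 (uh u t) ≤ EJ 1 (uh u T0) * Real.exp B := by
    intro t ht
    refine gron0 (F := fun r => EJ 1 (uh u r)) (g := fun r' => K3' / ν * w r') ht.1
      (hEc t ht) (fun r _ => EJ_nonneg _ _) (fun r hr => EJ_hasDerivAt h (hI t ht r hr).1)
      (fun r' hr' => mul_nonneg (by positivity) (hg0 r' (hI t ht r' hr').2)) (hint t ht)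
      (hle t ht) fun r hr => ?_
    obtain ⟨h1, h2⟩ := hI t ht r hr
    have h3 := hdi r h1 h2
    have h4 : 0 ≤ EJ 3 (uh u r) := EJ_nonneg _ _
    have h5 : 0 ≤ 4 * Real.pi ^ 2 * ν * EJ 3 (uh u r) := by positivity
    linarith
  refine ⟨hbd t ht, ?_⟩
  set Y := EJ 1 (uh u T0) * Real.exp B with hY
  have hY0 : 0 ≤ Y := mul_nonneg (EJ_nonneg _ _) (Real.exp_pos _).le
  have hGi : IntegrableOn (fun r => EJ 3 (uh u r)) (Icc T0 t) := (hGc t ht).integrableOn_Icc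
  have hg1 : IntegrableOn (fun r' => -(4 * Real.pi ^ 2 * ν * EJ 3 (uh u r'))
      + Y * (K3' / ν * w r')) (Icc T0 t) :=
    ((hGi.const_mul _).neg).add ((hint t ht).const_mul _)
  have h1 := intervalIntegral.sub_le_integral_of_hasDeriv_right_of_le ht.1 (hEc t ht)
    (fun r hr => (EJ_hasDerivAt h (hI t ht r hr).1).hasDerivWithinAt) hg1
    (fun r' hr' => by
      obtain ⟨h1, h2⟩ := hI t ht r' hr'
      have h3 := hdi r' h1 h2
      have h4 := mul_le_mul_of_nonneg_left (hbd r' ⟨h2.1.le, h2.2⟩)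
        (show 0 ≤ K3' / ν * w r' from mul_nonneg (by positivity) (hg0 r' h2))
      linarith)
  have i2 : IntervalIntegrable (fun r => EJ 3 (uh u r)) volume T0 t :=
    (intervalIntegrable_iff_integrableOn_Icc_of_le ht.1).2 hGi
  have i1 : IntervalIntegrable (fun r' => K3' / ν * w r') volume T0 t :=
    (intervalIntegrable_iff_integrableOn_Icc_of_le ht.1).2 (hint t ht)
  have j1 : IntervalIntegrable (fun r => -(4 * Real.pi ^ 2 * ν * EJ 3 (uh u r))) volume T0 t :=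
    (i2.const_mul _).neg
  have j2 : IntervalIntegrable (fun r' => Y * (K3' / ν * w r')) volume T0 t :=
    i1.const_mul _
  rw [intervalIntegral.integral_add j1 j2, intervalIntegral.integral_neg,
    intervalIntegral.integral_const_mul, intervalIntegral.integral_const_mul] at h1
  have h2 := mul_le_mul_of_nonneg_left (hle t ht) hY0
  have h3 : 0 ≤ EJ 1 (uh u t) := EJ_nonneg _ _
  linarith

end

end Pool.Agent.TH301.HX
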