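import Pool.Agent.TH301.HX.Ker
import Pool.Agent.TH305.FB.NSf

/-!
Difference quotients of characters: integral representation of `|k| + |l| - |k + l|`.
-/

set_option autoImplicit false

open MeasureTheory Set Filter Topology
open H459R3.NS Pool.Agent.TH305.FB
open scoped RealInnerProductSpace

namespace Pool.Agent.TH301.HX

/-- The Euclidean length of a frequency. -/
noncomputable def rr (k : K3) : ℝ := √(nk2 k)

theorem rr_nonneg (k : K3) : 0 ≤ rr k := Real.sqrt_nonneg _

theorem rr_sq (k : K3) : rr k ^ 2 = nk2 k := Real.sq_sqrt (nk2_nonneg k)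

theorem nk2_neg (k : K3) : nk2 (-k) = nk2 k := by simp [nk2]

theorem rr_neg (k : K3) : rr (-k) = rr k := by rw [rr, rr, nk2_neg]

theorem N_le_rr (k : K3) : (N k : ℝ) ≤ rr k := Real.le_sqrt_of_sq_le (Pool.Agent.TH305.FB.N_sq_le k)

theorem rr_le (k : K3) : rr k ≤ 2 * N k := by
  unfold rr
  rw [Real.sqrt_le_left (by positivity)]
  refine (nk2_le k).trans ?_
  nlinarith [sq_nonneg (N k : ℝ)]

theorem rr_pos {k : K3} (hk : k ≠ 0) : 0 < rr k := by
  refine lt_of_lt_of_le ?_ (N_le_rr k)
  have : N k ≠ 0 := fun h => hk (N_eq_zero.1 h)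
  positivity

theorem one_le_rr {k : K3} (hk : k ≠ 0) : 1 ≤ rr k := by
  refine le_trans ?_ (N_le_rr k)
  have : N k ≠ 0 := fun h => hk (N_eq_zero.1 h)
  exact_mod_cast Nat.one_le_iff_ne_zero.2 this

theorem rr_zero : rr 0 = 0 := by simp [rr, nk2]

/-- The Euclidean length of a point. -/
noncomputable def qq (y : V) : ℝ := √(∑ j, y j ^ 2)

/-- The weight `1 / |y|⁴`. -/
noncomputable def wy (y : V) : ℝ := 1 / qq y ^ 4

theorem wy_nonneg (y : V) : 0 ≤ wy y := by unfold wy; positivity

theorem wy_neg (y : V) : wy (-y) = wy y := by simp [wy, qq]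

theorem wy_measurable : Measurable wy := by
  unfold wy qq
  fun_prop

/-- The symbol of the difference operator. -/
noncomputable def dl (y : V) (k : K3) : ℂ := ee k y - 1

theorem dl_continuous (k : K3) : Continuous fun y => dl y k := by
  unfold dl
  exact (ee_continuous k).sub continuous_const

theorem norm_dl_sq (y : V) (k : K3) : ‖dl y k‖ ^ 2 = 2 * (1 - (ee k y).re) := by
  have h : ‖ee k y‖ ^ 2 = 1 := by rw [norm_ee, one_pow]
  rw [← Complex.normSq_eq_norm_sq, Complex.normSq_apply] at h ⊢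
  unfold dl
  simp only [Complex.sub_re, Complex.one_re, Complex.sub_im, Complex.one_im, sub_zero]
  linarith

theorem ee_re (y : V) (k : K3) : (ee k y).re = Real.cos (2 * Real.pi * ph k y) := by
  have : ee k y = Complex.exp (((2 * Real.pi * ph k y : ℝ) : ℂ) * Complex.I) := by
    rw [ee]; congr 1; push_cast; ring
  rw [this, Complex.exp_ofReal_mul_I_re]

theorem norm_dl_le (y : V) (k : K3) : ‖dl y k‖ ≤ 2 := by
  unfold dl
  refine (norm_sub_le _ _).trans ?_
  rw [norm_ee, norm_one]
  norm_num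

/-- The frequency as a vector. -/
noncomputable def xi (k : K3) : E3 := WithLp.toLp 2 fun j => (k j : ℝ)

theorem norm_xi (k : K3) : ‖xi k‖ = rr k := by
  rw [EuclideanSpace.norm_eq, rr, nk2]
  congr 1
  refine Finset.sum_congr rfl fun j _ => ?_
  rw [Real.norm_eq_abs, sq_abs]
  rfl

theorem ker_xi (k : K3) (y : E3) :
    ‖dl (WithLp.ofLp y) k‖ ^ 2 * wy (WithLp.ofLp y) = 2 * ker (xi k) y := by
  have h1 : ⟪xi k, y⟫ = ph k (WithLp.ofLp y) := by
    rw [PiLp.inner_apply, ph]
    refine Finset.sum_congr rfl fun j _ => ?_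
    simp only [xi, RCLike.inner_apply, conj_trivial]
    ring
  have h2 : ‖y‖ = qq (WithLp.ofLp y) := by
    rw [EuclideanSpace.norm_eq, qq]
    congr 1
    refine Finset.sum_congr rfl fun j _ => ?_
    rw [Real.norm_eq_abs, sq_abs]
  rw [norm_dl_sq, ee_re, ker, h1, h2, wy]
  ring

theorem dl_integrable (k : K3) : Integrable fun y : V => ‖dl y k‖ ^ 2 * wy y := by
  have h := (PiLp.volume_preserving_ofLp (Fin 3))
  rw [← h.integrable_comp_emb (MeasurableEquiv.toLp 2 (Fin 3 → ℝ)).symm.measurableEmbedding]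
  have e : (fun y : V => ‖dl y k‖ ^ 2 * wy y) ∘ (WithLp.ofLp : E3 → V)
      = fun y => 2 * ker (xi k) y := funext fun y => ker_xi k y
  rw [e]
  exact (ker_integrable _).const_mul 2

theorem dl_int (k : K3) : ∫ y : V, ‖dl y k‖ ^ 2 * wy y = 2 * kap * rr k := by
  have h := (PiLp.volume_preserving_ofLp (Fin 3))
  rw [← h.integral_comp (MeasurableEquiv.toLp 2 (Fin 3 → ℝ)).symm.measurableEmbedding]
  simp_rw [ker_xi]
  rw [integral_const_mul, ker_int, norm_xi]
  ring

theorem dl_dl_integrable (k l : K3) :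
    Integrable fun y : V => dl y k * dl y l * (wy y : ℂ) := by
  refine ((dl_integrable k).add (dl_integrable l)).mono'
    (((dl_continuous k).mul (dl_continuous l)).measurable.mul
      (Complex.measurable_ofReal.comp wy_measurable)).aestronglyMeasurable
    (Eventually.of_forall fun y => ?_)
  rw [norm_mul, norm_mul, Complex.norm_real, Real.norm_eq_abs, abs_of_nonneg (wy_nonneg y)]
  show _ ≤ ‖dl y k‖ ^ 2 * wy y + ‖dl y l‖ ^ 2 * wy y
  rw [← add_mul]
  refine mul_le_mul_of_nonneg_right ?_ (wy_nonneg y)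
  nlinarith [sq_nonneg (‖dl y k‖ - ‖dl y l‖), sq_nonneg ‖dl y k‖, sq_nonneg ‖dl y l‖]

theorem dl_neg (y : V) (k : K3) : dl (-y) k = (starRingEnd ℂ) (dl y k) := by
  unfold dl
  rw [map_sub, map_one, ← ee_neg]
  congr 1
  unfold ee
  congr 2
  simp [ph]

/-- The integral representation. -/
theorem dl_dl_int (k l : K3) :
    ∫ y : V, dl y k * dl y l * (wy y : ℂ) = ((kap * (rr k + rr l - rr (k + l)) : ℝ) : ℂ) := by
  have h1 : (starRingEnd ℂ) (∫ y : V, dl y k * dl y l * (wy y : ℂ))
      = ∫ y : V, dl y k * dl y l * (wy y : ℂ) := by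
    rw [← integral_conj, ← integral_neg_eq_self (fun y : V => dl y k * dl y l * (wy y : ℂ))]
    congr 1
    funext y
    rw [dl_neg, dl_neg, wy_neg, map_mul, map_mul, Complex.conj_ofReal]
  rw [Complex.conj_eq_iff_re] at h1
  rw [← h1]
  congr 1
  have h2 : (∫ y : V, dl y k * dl y l * (wy y : ℂ)).re
      = ∫ y : V, (dl y k * dl y l * (wy y : ℂ)).re := by
    exact (integral_re (dl_dl_integrable k l)).symm
  rw [h2]
  have e : ∀ y : V, (dl y k * dl y l * (wy y : ℂ)).re
      = 1 / 2 * (‖dl y k‖ ^ 2 * wy y) + 1 / 2 * (‖dl y l‖ ^ 2 * wy y)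
        - 1 / 2 * (‖dl y (k + l)‖ ^ 2 * wy y) := by
    intro y
    rw [Complex.mul_re, Complex.ofReal_re, Complex.ofReal_im, mul_zero, sub_zero]
    rw [norm_dl_sq, norm_dl_sq, norm_dl_sq, ee_add_left]
    unfold dl
    simp only [Complex.sub_re, Complex.one_re, Complex.sub_im, Complex.one_im, sub_zero,
      Complex.mul_re]
    ring
  simp_rw [e]
  have i12 : Integrable fun y : V => 1 / 2 * (‖dl y k‖ ^ 2 * wy y)
      + 1 / 2 * (‖dl y l‖ ^ 2 * wy y) :=
    ((dl_integrable k).const_mul _).add ((dl_integrable l).const_mul _)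
  rw [integral_sub i12 ((dl_integrable (k + l)).const_mul _),
    integral_add ((dl_integrable k).const_mul _) ((dl_integrable l).const_mul _),
    integral_const_mul, integral_const_mul, integral_const_mul, dl_int, dl_int, dl_int]
  ring

end Pool.Agent.TH301.HX
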