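import Pool.Agent.TH301.HX.Phys

/-!
Truncation of functions in `L^p`, `3 < p ≤ ∞`.
-/

set_option autoImplicit false

open MeasureTheory Set Filter Topology
open scoped ENNReal
open H459R3.NS Pool.Agent.TH305.FB

namespace Pool.Agent.TH301.HX

theorem trunc_pt {P β x : ℝ} (hP : 3 < P) (hβ : 0 < β) (hx : 0 ≤ x) :
    max (x - β) 0 ^ 3 ≤ β ^ (3 - P) * x ^ P := by
  rcases le_or_gt x β with h | h
  · rw [max_eq_right (by linarith)]
    simp only [ne_eq, OfNat.ofNat_ne_zero, not_false_eq_true, zero_pow]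
    positivity
  · rw [max_eq_left (by linarith)]
    have hx0 : 0 < x := hβ.trans h
    calc (x - β) ^ 3 ≤ x ^ 3 := by
          have : 0 ≤ x - β := by linarith
          gcongr
          linarith
      _ = x ^ (3 - P) * x ^ P := by
        rw [← Real.rpow_add hx0, sub_add_cancel]
        norm_cast
      _ ≤ β ^ (3 - P) * x ^ P := by
        refine mul_le_mul_of_nonneg_right ?_ (by positivity)
        exact Real.rpow_le_rpow_of_nonpos hβ h.le (by linarith)

/-- The restricted measure. -/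
noncomputable abbrev mc : Measure V := volume.restrict cube

theorem eLpNorm_three (h : V → ℝ) :
    eLpNorm h 3 mc = (∫⁻ x in cube, ENNReal.ofReal (|h x| ^ 3)) ^ (1 / 3 : ℝ) := by
  rw [eLpNorm_eq_lintegral_rpow_enorm_toReal (by norm_num) (by norm_num)]
  have e1 : (3 : ℝ≥0∞).toReal = 3 := by norm_num
  rw [e1]
  congr 1
  refine lintegral_congr fun x => ?_
  rw [← ofReal_norm, ENNReal.ofReal_rpow_of_nonneg (norm_nonneg _) (by norm_num),
    Real.norm_eq_abs]
  norm_cast

theorem int_le_of_eLpNorm {h : V → ℝ} (hc : Continuous h) (h0 : ∀ x, 0 ≤ h x) {δ : ℝ}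
    (hδ : 0 ≤ δ) (hn : eLpNorm h 3 mc ≤ ENNReal.ofReal δ) : ∫ x in cube, h x ^ 3 ≤ δ ^ 3 := by
  rw [eLpNorm_three] at hn
  have h1 := ENNReal.rpow_le_rpow hn (show (0 : ℝ) ≤ 3 by norm_num)
  rw [← ENNReal.rpow_mul, ENNReal.ofReal_rpow_of_nonneg hδ (by norm_num)] at h1
  have e2 : (1 / 3 : ℝ) * 3 = 1 := by norm_num
  rw [e2, ENNReal.rpow_one] at h1
  have e3 : ∀ x, ENNReal.ofReal (|h x| ^ 3) = ENNReal.ofReal (h x ^ 3) := fun x => by
    rw [abs_of_nonneg (h0 x)]
  simp_rw [e3] at h1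
  have e4 : δ ^ (3 : ℝ) = δ ^ 3 := by norm_cast
  rw [← ofReal_integral_eq_lintegral_ofReal (f := fun x => h x ^ 3)
    (integrableOn_cube (hc.pow 3)) (Eventually.of_forall fun x => pow_nonneg (h0 x) 3), e4] at h1
  exact (ENNReal.ofReal_le_ofReal_iff (pow_nonneg hδ 3)).1 h1

theorem trunc_add {h f g : V → ℝ} (hc : Continuous h)
    (mf : AEStronglyMeasurable f mc) (mg : AEStronglyMeasurable g mc)
    (hle : ∀ x ∈ cube, |h x| ≤ |f x| + |g x|) {δ β l : ℝ} (hδ : 0 ≤ δ) (hl : 0 ≤ l)
    (hf : eLpNorm f 3 mc ≤ ENNReal.ofReal δ)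
    (hg : eLpNorm (fun x => max (|g x| - β) 0) 3 mc ≤ ENNReal.ofReal l) :
    ∫ x in cube, max (|h x| - β) 0 ^ 3 ≤ (δ + l) ^ 3 := by
  refine int_le_of_eLpNorm ((hc.abs.sub continuous_const).max continuous_const)
    (fun x => le_max_right _ _) (add_nonneg hδ hl) ?_
  have mg' : AEStronglyMeasurable (fun x => max (|g x| - β) 0) mc :=
    ((mg.norm.sub aestronglyMeasurable_const).sup aestronglyMeasurable_const)
  have mf' : AEStronglyMeasurable (fun x => |f x|) mc := mf.norm
  have h1 : eLpNorm (fun x => max (|h x| - β) 0) 3 mc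
      ≤ eLpNorm ((fun x => |f x|) + fun x => max (|g x| - β) 0) 3 mc := by
    refine eLpNorm_mono_ae ?_
    rw [ae_restrict_iff' measurableSet_cube]
    refine Eventually.of_forall fun x hx => ?_
    have h2 := hle x hx
    have h3 : 0 ≤ |f x| := abs_nonneg _
    have h4 : 0 ≤ max (|g x| - β) 0 := le_max_right _ _
    have h5 : |g x| - β ≤ max (|g x| - β) 0 := le_max_left _ _
    rw [Real.norm_eq_abs, Real.norm_eq_abs, abs_of_nonneg (le_max_right _ _), Pi.add_apply,
      abs_of_nonneg (add_nonneg h3 h4)]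
    refine max_le ?_ (add_nonneg h3 h4)
    linarith
  refine h1.trans ((eLpNorm_add_le mf' mg' (by norm_num)).trans ?_)
  rw [ENNReal.ofReal_add hδ hl]
  refine add_le_add ?_ hg
  rw [show (fun x => |f x|) = fun x => ‖f x‖ from rfl, eLpNorm_norm]
  exact hf

instance : IsProbabilityMeasure mc := ⟨by rw [Measure.restrict_apply_univ, volume_cube]⟩

/-- The truncation level. -/
noncomputable def lev (p : ℝ≥0∞) (κ B r : ℝ) : ℝ :=
  if p = ∞ then B
  else κ ^ (-3 / (p.toReal - 3)) * B ^ (p.toReal / (p.toReal - 3)) * r ^ (3 / (p.toReal - 3))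

theorem lev_nonneg (p : ℝ≥0∞) {κ B r : ℝ} (hκ : 0 ≤ κ) (hB : 0 ≤ B) (hr : 0 ≤ r) :
    0 ≤ lev p κ B r := by
  unfold lev
  split_ifs <;> positivity

theorem toReal_gt {p : ℝ≥0∞} (hp : 3 < p) (hp' : p ≠ ∞) : 3 < p.toReal := by
  have := (ENNReal.toReal_lt_toReal (by norm_num) hp').2 hp
  simpa using this

/-- The exponent of the share. -/
noncomputable def ex2 (p : ℝ≥0∞) : ℝ := (1 + 3 * (p⁻¹).toReal) / (1 - 3 * (p⁻¹).toReal)

theorem lev_sq {p : ℝ≥0∞} (hp : 3 < p) {q : ℝ} (hpq : 3 * (p⁻¹).toReal + 2 / q = 1) {κ : ℝ}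
    (hκ : 0 < κ) : ∃ C : ℝ, ∀ B r : ℝ, 0 ≤ B → 0 ≤ r →
      lev p κ B r ^ 2 * r = C * (B ^ q * r ^ ex2 p) := by
  have hθ0 := th_nonneg p
  have hθ1 := th_lt_one hp
  have hth : th p = 3 * (p⁻¹).toReal := rfl
  have hq : q = 2 / (1 - 3 * (p⁻¹).toReal) := by
    rw [hth] at hθ1
    have h1 : 2 / q = 1 - 3 * (p⁻¹).toReal := by linarith
    have : q ≠ 0 := by
      intro h0
      rw [h0, div_zero] at h1
      linarith
    rw [← h1]
    field_simp
  by_cases hp' : p = ∞
  · refine ⟨1, fun B r hB hr => ?_⟩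
    have e1 : (p⁻¹).toReal = 0 := by rw [hp']; simp
    rw [lev, if_pos hp', hq, ex2, e1]
    norm_num
  · set P := p.toReal with hP
    have hP3 : 3 < P := toReal_gt hp hp'
    have e1 : (p⁻¹).toReal = 1 / P := by rw [ENNReal.toReal_inv, one_div]
    have hP0 : 0 < P - 3 := by linarith
    have e2 : ex2 p = 6 / (P - 3) + 1 := by
      rw [ex2, e1]
      have : P ≠ 0 := by linarith
      have : P - 3 ≠ 0 := hP0.ne'
      field_simp
      ring
    have e3 : q = 2 * (P / (P - 3)) := by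
      rw [hq, e1]
      have : P ≠ 0 := by linarith
      have : P - 3 ≠ 0 := hP0.ne'
      field_simp
    refine ⟨(κ ^ (-3 / (P - 3))) ^ 2, fun B r hB hr => ?_⟩
    have h6 : 6 / (P - 3) + 1 ≠ 0 := by positivity
    rw [lev, if_neg hp', e2, e3, Real.rpow_add' hr h6, Real.rpow_one]
    have e4 : (B ^ (P / (P - 3))) ^ 2 = B ^ (2 * (P / (P - 3))) := by
      rw [← Real.rpow_natCast, ← Real.rpow_mul hB]
      congr 1
      push_cast
      ring
    have e5 : (r ^ (3 / (P - 3))) ^ 2 = r ^ (6 / (P - 3)) := by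
      rw [← Real.rpow_natCast, ← Real.rpow_mul hr]
      congr 1
      push_cast
      ring
    rw [← e4, ← e5]
    ring

theorem trunc_Lp {p : ℝ≥0∞} (hp : 3 < p) {κ B r : ℝ} (hκ : 0 < κ) (hB : 0 ≤ B) (hr : 0 ≤ r) :
    ∃ l : ℝ, 0 ≤ l ∧ l * r ≤ κ ∧ ∀ g : V → ℝ, AEStronglyMeasurable g mc →
      eLpNorm g p mc ≤ ENNReal.ofReal B →
      eLpNorm (fun x => max (|g x| - lev p κ B r) 0) 3 mc ≤ ENNReal.ofReal l := by
  by_cases hp' : p = ∞
  · refine ⟨0, le_rfl, by simpa using hκ.le, fun g mg hg => ?_⟩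
    rw [hp'] at hg
    have h1 : (fun x => max (|g x| - lev p κ B r) 0) =ᵐ[mc] fun _ => (0 : ℝ) := by
      have h2 := ae_le_eLpNormEssSup (f := g) (μ := mc)
      rw [eLpNorm_exponent_top] at hg
      filter_upwards [h2] with x hx
      have h3 : ‖g x‖ₑ ≤ ENNReal.ofReal B := hx.trans hg
      rw [← ofReal_norm, ENNReal.ofReal_le_ofReal_iff hB, Real.norm_eq_abs] at h3
      rw [lev, if_pos hp', max_eq_right (by linarith)]
    rw [eLpNorm_congr_ae h1]
    simp
  · set P := p.toReal with hP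
    have hP3 : 3 < P := toReal_gt hp hp'
    have hP0 : 0 < P - 3 := by linarith
    by_cases hBr : B = 0 ∨ r = 0
    · refine ⟨B, hB, ?_, fun g mg hg => ?_⟩
      · rcases hBr with h | h <;> rw [h] <;> simpa using hκ.le
      · have e : lev p κ B r = 0 := by
          rw [lev, if_neg hp']
          rcases hBr with h | h
          · rw [h, Real.zero_rpow (by positivity)]; ring
          · rw [h, Real.zero_rpow (show 3 / (p.toReal - 3) ≠ 0 by positivity)]; ring
        rw [e]
        have e2 : (fun x => max (|g x| - 0) 0) = fun x => ‖g x‖ := by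
          funext x
          rw [sub_zero, max_eq_left (abs_nonneg _)]
          rfl
        rw [e2, eLpNorm_norm]
        exact (eLpNorm_le_eLpNorm_of_exponent_le hp.le mg).trans hg
    · push Not at hBr
      have hB' : 0 < B := lt_of_le_of_ne hB (Ne.symm hBr.1)
      have hr' : 0 < r := lt_of_le_of_ne hr (Ne.symm hBr.2)
      refine ⟨κ / r, by positivity, by rw [div_mul_cancel₀ _ hr'.ne'], fun g mg hg => ?_⟩
      set β := lev p κ B r with hβ
      have eβ : β = κ ^ (-3 / (P - 3)) * B ^ (P / (P - 3)) * r ^ (3 / (P - 3)) := by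
        rw [hβ, lev, if_neg hp']
      have hβ0 : 0 < β := by rw [eβ]; positivity
      have h1 : β ^ (3 - P) * B ^ P = (κ / r) ^ 3 := by
        have a1 : (κ ^ (-3 / (P - 3))) ^ (3 - P) = κ ^ (3 : ℝ) := by
          rw [← Real.rpow_mul hκ.le]
          congr 1
          field_simp
          ring
        have a2 : (B ^ (P / (P - 3))) ^ (3 - P) = B ^ (-P) := by
          rw [← Real.rpow_mul hB]
          congr 1
          field_simp
          ring
        have a3 : (r ^ (3 / (P - 3))) ^ (3 - P) = r ^ (-3 : ℝ) := by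
          rw [← Real.rpow_mul hr]
          congr 1
          field_simp
          ring
        rw [eβ, Real.mul_rpow (by positivity) (by positivity),
          Real.mul_rpow (by positivity) (by positivity), a1, a2, a3, Real.rpow_neg hB,
          Real.rpow_neg hr]
        have : B ^ P ≠ 0 := (Real.rpow_pos_of_pos hB' _).ne'
        have e3 : κ ^ (3 : ℝ) = κ ^ 3 := by norm_cast
        have e4 : r ^ (3 : ℝ) = r ^ 3 := by norm_cast
        rw [e3, e4]
        field_simp
      rw [eLpNorm_three]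
      have hg2 : ∫⁻ x in cube, ‖g x‖ₑ ^ P ≤ ENNReal.ofReal (B ^ P) := by
        rw [eLpNorm_eq_lintegral_rpow_enorm_toReal (by
          intro h; rw [h] at hp; exact absurd hp (by norm_num)) hp'] at hg
        have h3 := ENNReal.rpow_le_rpow hg (show (0 : ℝ) ≤ P by linarith)
        rw [← ENNReal.rpow_mul, ENNReal.ofReal_rpow_of_nonneg hB (by linarith)] at h3
        have e5 : 1 / p.toReal * P = 1 := by
          rw [← hP]
          have : P ≠ 0 := by linarith
          field_simp
        rw [e5, ENNReal.rpow_one] at h3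
        exact h3
      have h2 : ∫⁻ x in cube, ENNReal.ofReal (|max (|g x| - β) 0| ^ 3)
          ≤ ENNReal.ofReal ((κ / r) ^ 3) := by
        calc ∫⁻ x in cube, ENNReal.ofReal (|max (|g x| - β) 0| ^ 3)
            ≤ ∫⁻ x in cube, ENNReal.ofReal (β ^ (3 - P)) * ‖g x‖ₑ ^ P := by
              refine lintegral_mono fun x => ?_
              rw [abs_of_nonneg (le_max_right _ _), ← ofReal_norm,
                ENNReal.ofReal_rpow_of_nonneg (norm_nonneg _) (by linarith),
                ← ENNReal.ofReal_mul (by positivity), Real.norm_eq_abs]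
              exact ENNReal.ofReal_le_ofReal (trunc_pt hP3 hβ0 (abs_nonneg _))
          _ = ENNReal.ofReal (β ^ (3 - P)) * ∫⁻ x in cube, ‖g x‖ₑ ^ P := by
              rw [lintegral_const_mul' _ _ ENNReal.ofReal_ne_top]
          _ ≤ ENNReal.ofReal (β ^ (3 - P)) * ENNReal.ofReal (B ^ P) := by gcongr
          _ = ENNReal.ofReal ((κ / r) ^ 3) := by
              rw [← ENNReal.ofReal_mul (by positivity), h1]
      have h4 := ENNReal.rpow_le_rpow h2 (show (0 : ℝ) ≤ 1 / 3 by norm_num)
      refine h4.trans (le_of_eq ?_)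
      rw [ENNReal.ofReal_rpow_of_nonneg (by positivity) (by norm_num)]
      congr 1
      rw [← Real.rpow_natCast, ← Real.rpow_mul (by positivity)]
      norm_num

end Pool.Agent.TH301.HX
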